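import Pool.Agent.MP_6eaae3_al.IS.Basic

/-! The dihedral step for a crossing without winding, for all labels. -/

namespace Pool.Agent.MP_6eaae3_al.IS

open FreeGroup (of mk invRev IsReduced)
open Set Pool.Agent.MP_6eaae3_al.LT Pool.Agent.MP_6eaae3_al.EV

namespace Ac

variable {G : Type} [Group G] {s t Δ : G} {N : ℕ} {p : ℤ} (P : Pu s t N p) {i : ℕ}

open C1 in
/-- The counts. -/
theorem cnt {g : G} (hN : 2 ≤ N) (rel : ∀ i, aa s t i (N + 1) = Δ) (i1 : 1 ≤ i) (iN : i ≤ N)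
    (par : (i + p) % 2 = 1) (hg : g ∈ Subgroup.closure {s, t}) :
    (P.W g i ∈ Fre (Tp i) → ∃ a k b : ℤ, g = t ^ a * Δ ^ k * s ^ b) ∧
    (Bd (of i) (Fre (Tp i)ᶜ) (P.W g i) →
      ∃ a k h b : ℤ, (k * (N + 1)) % 2 = 0 ∧ Tri h ∧ g = s ^ a * Δ ^ k * t ^ h * s ^ b) := by
  obtain ⟨U, hU⟩ := exists_cheb hN
  obtain ⟨ω, τ, f0, f1, f0', f1', k1, k2, z1, z2, nz, -, -, -, -, key⟩ :=
    EV.hf G s t N p P U i hU hN i1 iN par
  obtain ⟨-, e2, -, e4⟩ := key g hg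
  have hg' : g ∈ Subgroup.closure {t, s} := pair_comm s t ▸ hg
  have he := hecke hU (by omega) rel (Subgroup.subset_closure (Or.inl rfl))
    (Subgroup.subset_closure (Or.inr rfl)) k1.1 k1.2.1 k1.2.2.1 k1.2.2.2 hg
  refine ⟨fun h => he.2 ?_, fun h => ?_⟩
  · rw [ws_fre z1 h, mul_zero] at e2
    exact (sub_eq_zero.1 ((mul_eq_zero.1 e2.symm).resolve_left nz)).symm
  · exact LT.hk G t s Δ N U hU hN (rel_sw rel) f0' f1' _
      (Subgroup.subset_closure (Or.inl rfl)) (Subgroup.subset_closure (Or.inr rfl))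
      k2.1 k2.2.1 k2.2.2.1 k2.2.2.2 g hg' (by
        rcases ws_bd z2 h with h | h | h <;> rw [h] at e4
        · exact Or.inl (mul_left_cancel₀ nz (by linarith))
        · exact Or.inr (Or.inl (mul_left_cancel₀ nz (by linarith)))
        · exact Or.inr (Or.inr (mul_left_cancel₀ nz (by linarith))))

theorem pe : EV.S_PD := EV.pd EV.df EV.z1 EV.z2 EV.z3 EV.z4 EV.mn (EV.cj EV.mn)

theorem pm : MX.S_P1 := MX.p1 MX.df MX.tl MX.ld (MX.pl MX.po MX.pq) MX.en MX.t1 MX.t7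

/-- Powers of the Garside element, curves of the other colour. -/
theorem pw1 {k : ℤ} (hN : 2 ≤ N) (rel : ∀ i, aa s t i (N + 1) = Δ) (i1 : 1 ≤ i) (iN : i ≤ N)
    (par : (i + p) % 2 = 1) (ev : 4 ≤ N → N % 2 = 0 → k % 2 = 0)
    (h : P.W (Δ ^ k) i ∈ Fre (Tp i)) : k = 0 := by
  rcases Nat.mod_two_eq_zero_or_one N with od | od
  swap
  · exact (pe G s t Δ N p P i k (by omega) od rel i1 iN par).1 (Or.inl h)
  by_cases h4 : 4 ≤ N
  · exact by_contra fun k0 => ((pm G s t Δ N p P i k h4 od rel i1 iN par k0).1 (ev h4 od)).1 h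
  refine (LT.pd LT.we LT.w1 LT.w3 LT.mi LT.lk G s t Δ N p P (3 - i) k hN rel (by omega)
    (by omega)).1 (by omega) fun j j1 jN pj => ?_
  obtain rfl : j = i := by omega
  have sub : Tp j ⊆ {3 - j}ᶜ := fun a u v => by
    have u' : a % 2 = j % 2 := u
    have v' : a = 3 - j := v
    omega
  have m : P.W (Δ ^ k) j ∈ Fre {3 - j}ᶜ := Fre.mono sub h
  exact ⟨fun _ => m, _, m, Or.inl rfl⟩

/-- Powers of the Garside element, curves of the same colour. -/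
theorem pw2 (n2 : S_N2) {k h : ℤ} (hN : 2 ≤ N) (rel : ∀ i, aa s t i (N + 1) = Δ) (i1 : 1 ≤ i)
    (iN : i ≤ N) (par : (i + p) % 2 = 1) (ev : (k * (N + 1)) % 2 = 0) (tr : Tri h)
    (b : Bd (of i) (Fre (Tp i)ᶜ) (P.W (Δ ^ k * t ^ h) i)) :
    ∃ a b c : ℤ, Δ ^ k * t ^ h = s ^ a * t ^ b * s ^ c := by
  rcases Nat.mod_two_eq_zero_or_one N with od | od
  swap
  · exact (pe G s t Δ N p P i k (by omega) od rel i1 iN par).2.1 h tr b
  have ek : k % 2 = 0 := by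
    have o : ((N : ℤ) + 1) % 2 = 1 := by omega
    rw [Int.mul_emod, o, mul_one, Int.emod_emod_of_dvd _ (dvd_refl 2)] at ev
    omega
  by_cases h4 : 4 ≤ N
  · obtain rfl : k = 0 :=
      by_contra fun k0 => ((pm G s t Δ N p P i k h4 od rel i1 iN par k0).1 ek).2.1 h b
    exact ⟨0, h, 0, by simp⟩
  obtain rfl : N = 2 := by omega
  exact n2 G s t Δ p P i k h rel i1 iN par ek tr b

end Ac

open Al Ac in
theorem ac (h : S_N2) : S_AC := by
  intro G _ s t Δ N p P i Q g hN rel i1 iN par hg q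
  have hΔ : ∀ j : ℤ, Δ ^ j ∈ Subgroup.closure {s, t} := fun j =>
    zpow_mem (rel 0 ▸ alG_mem _ (yy_mem ms mt _) (yy_mem ms mt _)) j
  refine ⟨fun ps H => ?_, fun ps H => ?_⟩
  · obtain ⟨a, k, b, v, u⟩ : ∃ a k b : ℤ, (4 ≤ N → N % 2 = 0 → k % 2 = 0) ∧
        g = t ^ a * Δ ^ k * s ^ b := by
      by_cases c : 4 ≤ N ∧ N % 2 = 0
      · obtain ⟨a, k, b, v, u⟩ :=
          (MX.c3 MX.h4 G s t Δ N p P i g c.1 c.2 rel i1 iN par hg).1 (H g hg q)
        exact ⟨a, k, b, fun _ _ => v, u⟩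
      · obtain ⟨a, k, b, u⟩ := (cnt P hN rel i1 iN par hg).1 (H g hg q)
        exact ⟨a, k, b, fun x y => (c ⟨x, y⟩).elim, u⟩
    have c := H _ (mul_mem (zpow_mem mt (-a)) hg) (ps g (-a) q)
    rw [show t ^ (-a) * g = Δ ^ k * s ^ b by rw [u]; group, W_s P i1 iN par (hΔ k)] at c
    obtain rfl := pw1 P hN rel i1 iN par v c
    exact ⟨a, b, by simpa using u⟩
  · obtain ⟨a, k, j, b, v, w, u⟩ := (cnt P hN rel i1 iN par hg).2 (H g hg q)
    have c := H _ (mul_mem (zpow_mem ms (-a)) hg) (ps g (-a) q)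
    rw [show s ^ (-a) * g = Δ ^ k * t ^ j * s ^ b by rw [u]; group,
      W_s P i1 iN par (mul_mem (hΔ k) (zpow_mem mt j))] at c
    obtain ⟨a', b', c', e⟩ := pw2 P h hN rel i1 iN par v w c
    exact ⟨a + a', b', c' + b, by rw [u, mul_assoc _ (Δ ^ k), e]; group⟩

end Pool.Agent.MP_6eaae3_al.IS
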