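import Pool.Agent.MP_6eaae3_al.IS.Pa

/-! Cliques whose small odd labels are far from the label two. -/

namespace Pool.Agent.MP_6eaae3_al.IS

theorem dc_free : S_DC :=
  have R := rn tt t3 qq
  dc cn (ax (lc ac) l2) (gl (su tt qq R) (sf tt R) (si R) (sj tt R) (sq tt R))

end Pool.Agent.MP_6eaae3_al.IS
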