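import Pool.Agent.MP_6eaae3_al.IS.Basic

/-! The plumbing satisfies the rules of the induction. -/

namespace Pool.Agent.MP_6eaae3_al.IS

open FreeGroup (of mk invRev IsReduced)
open Set Pool.Agent.MP_6eaae3_al.LT Pool.Agent.MP_6eaae3_al.LT.Path Pool.Agent.MP_6eaae3_al.EV

namespace Ax

variable {V M : Type} {m : V → V → ℕ} {n a : ℕ} {Y : Sy m n M} {Λ : Set V} {S : Set (FG M)}

theorem exists_bl (ev : Ni m Λ) (ch : Chs Y a Λ) {h : V} (hh : h ∈ Λ) {r} (ok : Ok m Λ h r) {i}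
    (hi : i < n) : ∃ B, Y.Bl (h, i) r B := by
  rcases r with x | k
  · obtain ⟨a, b, d⟩ := ok x rfl
    obtain ⟨c, p, j, cn, -, j1, j2, e⟩ := (ch x a h hh b.symm (ev.1 h x ▸ d)).1 i hi
    obtain ⟨B, u, -⟩ := cn.bl (Or.inr rfl) j1 j2 (by rw [e])
    exact ⟨B, e ▸ u⟩
  · exact ⟨_, Sy.bl_mr _ _⟩

theorem ps (ev : Ni m Λ) (ch : Chs Y a Λ) {q : V × ℕ} (ha : q.1 ∈ Λ) {r ρ B₀ y y' e e' k}
    (ok : Ok m Λ q.1 ρ) (ne : ρ ≠ r) (q2 : q.2 < n) (b : Y.Bl q r B₀) (a1 : y ∈ B₀) (a2 : y' ∈ B₀)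
    (a3 : k ≠ 0) (a4 : Y.Pg S q y e k y' e') : Y.Ps S q.1 ρ := by
  obtain ⟨⟨z₀, sg₀⟩, bl₀⟩ := b
  obtain ⟨B, ⟨z, sg⟩, bl⟩ := exists_bl ev ch ha ok q2
  exact ⟨q, B, rfl, q2, ⟨⟨z, sg⟩, bl⟩, MX.AxA.HP V M m n Y S q B B₀ z z₀ y y' e e' k q2 sg sg₀ a1 a2
    (fun u => ne (((bl y).1 u).uq ((bl₀ y).1 a1)))
    (fun u => ne (((bl y').1 u).uq ((bl₀ y').1 a2))) a3 a4⟩

theorem pi (ev : Ni m Λ) (ch : Chs Y a Λ) {h d : V} (ha : h ∈ Λ) (ok : Ok m Λ h (Sum.inl d))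
    (w : Y.Ps S d (Sum.inl h)) : Y.Cx S h (Sum.inl d) 0 := by
  obtain ⟨q, B, q1, q2, ⟨⟨y, sg⟩, bl⟩, hs⟩ := w
  obtain ⟨a1, p, p1, p2, p3⟩ := (bl y).1 sg.last
  obtain rfl : p.1 = h := p1
  obtain ⟨B', bl'⟩ := exists_bl ev ch ha ok p2
  have a2 : opp y ∈ B' := (bl'.2 _).2 ⟨p3, q, q1, q2, by rwa [opp_opp]⟩
  have a3 := hs.inf (M2.inf_pw sg.last)
  refine ⟨p, B', opp y, opp y, rfl, p2, bl', a2, a2, ?_⟩
  obtain ⟨μ, _ | _⟩ := y
  · rw [Sy.Pg, Sy.Rn_self, wd_one]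
    exact a3
  · rw [← neg_zero]
    refine Sy.Pg.symm ?_
    rw [Sy.Pg, Sy.Rn_self, wd_one]
    exact a3

theorem three (ev : Ni m Λ) {s t : V} (hs : s ∈ Λ) (ht : t ∈ Λ) (u : s ≠ t ∧ m s t ≠ 2) :
    3 ≤ m s t := by
  have := (ev.2 s hs t ht u.1).1
  have := u.2
  omega

theorem four (ev : Ni m Λ) {s t : V} (hs : s ∈ Λ) (ht : t ∈ Λ) (u : s ≠ t ∧ m s t ≠ 2)
    (nf : ¬ (Fr m Λ s ∧ Fr m Λ t)) : 4 ≤ m s t := by
  have := three ev hs ht u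
  have : m s t ≠ 3 := fun e => nf ((ev.2 s hs t ht u.1).2 e)
  omega

theorem nt (sy : ∀ s t, m s t = m t s) {s t : V} (h : 4 ≤ m s t) : MX.Nt m {s, t} := by
  refine ⟨sy, ?_⟩
  rintro x (rfl | rfl) y (rfl | rfl) ne
  exacts [(ne rfl).elim, Or.inr h, Or.inr (sy _ _ ▸ h), (ne rfl).elim]

theorem LL : MX.S_LL :=
  have L := MX.pl MX.po MX.pq
  MX.ll (MX.ls MX.de) (MX.c3 MX.h4) (MX.c4 MX.h4) (MX.p1 MX.df MX.tl MX.ld L MX.en MX.t1 MX.t7)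
    (MX.p3 MX.df MX.tl MX.ld L MX.en MX.t4 MX.t5 MX.t6 MX.t9) (MX.p4 MX.df MX.tl MX.ld L MX.en MX.t5 MX.t7)

end Ax

open EV.AxA in
theorem ax (h1 : S_LC) (h2 : S_L2) : S_AX := by
  intro V M m n Y kk Λ t₀ ev cs hn
  have m1 := m1 (f2 f3) V M m n Y 0
  have ok : ∀ {h d}, d ∈ Λ → h ≠ d ∧ m h d ≠ 2 → Ok m Λ h (Sum.inl d) := fun a b x e => by
    cases e; exact ⟨a, b⟩
  have two : ∀ {a h}, a ≠ h → ¬ (a ≠ h ∧ m a h ≠ 2) → m a h = 2 ∧ m h a = 2 := fun {a h} u v => by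
    have : m a h = 2 := by_contra fun e => v ⟨u, e⟩
    exact ⟨this, ev.1 a h ▸ this⟩
  have ok2 : ∀ {h d : V}, h ≠ d ∧ m h d ≠ 2 → Ok m {h, d} h (Sum.inl d) := fun b x e => by
    cases e; exact ⟨Or.inr rfl, b⟩
  have ok3 : ∀ {h d : V}, h ≠ d ∧ m h d ≠ 2 → Ok m {h, d} d (Sum.inl h) := fun {h d} b x e => by
    cases e; exact ⟨Or.inl rfl, b.1.symm, ev.1 h d ▸ b.2⟩
  have nn : ∀ {s : V} {ρ : V ⊕ Bool}, Ok m Λ s ρ → ρ ≠ Sum.inl s := fun b f => (b _ f).2.1 rfl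
  refine ⟨{ cr := fun a b => a ≠ b ∧ m a b ≠ 2
            fr := Fr m Λ
            Cx := fun g h r k => Y.Cx (Y.im g (Y.S0 t₀)) h r k
            Hh := fun g h r => MX.Hh Y kk (Y.im g (Y.S0 t₀)) h r
            Ps := fun g h r => Y.Ps (Y.im g (Y.S0 t₀)) h r
            sy := fun a b h => ⟨h.1.symm, ev.1 a b ▸ h.2⟩
            ne := fun a b h => h.1
            cm := fun a _ b _ h => ?_
            fc := fun a f b hb ne => ⟨ne.symm, f b hb ne⟩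
            base := ?_
            ps1 := fun g h ρ a j u v w => Y.im_mul _ _ _ ▸ (m1 _ h a ρ j u).1 v w
            cx1 := fun g h ρ a j u v w => Y.im_mul _ _ _ ▸ (m1 _ h a ρ j u).2.1 v w
            cx2 := fun g h _ ρ a _ j k u v w => Y.im_mul _ _ _ ▸
              ((m1 _ h a ρ j u).2.2 (two u v).1 (two u v).2).1 k w
            hh2 := fun g h _ ρ a _ j u v w => Y.im_mul _ _ _ ▸
              w.imp fun _ _ => MX.AxA.far j u (two u v).1 (two u v).2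
            cx0 := fun g h ρ j k w => ?_
            hp := fun g h hh x ρ u v w => ?_
            pi := fun g h hh d hd u w => Ax.pi ev cs hh (ok hd u) w
            sh := fun g h hh d hd j u nf v w => Y.im_mul _ _ _ ▸
              MX.AxA.sh (Ax.nt ev.1 (Ax.four ev hh hd u nf)) ((cs h hh d hd u.1 u.2).2 nf) (Or.inl rfl)
                (ok2 u) v w
            loc := fun g s hs t ht x e he u nf v w z => ?_
            df6 := fun h hh d hd u nf => ?_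
            lc := fun g s hs t ht x e he u v w z => ?_ }, fun _ _ _ h => h⟩
  · by_cases e : a = b
    exacts [e ▸ Commute.refl _, comm e (two e h).1]
  · refine ⟨(t₀, 0), _, _, _, rfl, hn, Sy.bl_mr _ false, List.mem_singleton_self _,
      List.mem_singleton_self _, _, Or.inl (by rw [Y.im_one]; exact ⟨0, hn, rfl⟩), ?_⟩
    rw [Sy.Rn_self, wd_one, Has]
    refine (wd_mk (l := [_, _]) ?_).symm ▸ List.infix_rfl
    simp [FreeGroup.isReduced_cons_cons]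
  · obtain ⟨q, B, y, y', rfl, a, b, c, d, e⟩ := w
    obtain ⟨z, f⟩ := b.1
    refine ⟨q, B, y, y', rfl, a, b, c, d, ?_⟩
    have := m0 (f2 f3) V M m n Y _ q y y' false true k j a (f.mem c) (f.mem d) e
    rw [Y.im_mul]
    simpa using this
  · rcases w with ⟨k, hk, q, B, y, y', rfl, a2, a3, a4, a5, a6⟩ | w
    · exact Ax.ps ev cs hh u v a2 a3 a4 a5 hk a6
    · obtain ⟨i, e, -, a2, B, y, y', k, a3, a4, a5, hk, a6⟩ := w.base
      exact Ax.ps (q := (h, i)) ev cs hh u v a2 a3 a4 a5 hk a6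
  · have f4 := Ax.four ev hs ht u nf
    have c2 := (cs s hs t ht u.1 u.2).2 nf
    have a1 := Ax.LL V M m n Y kk {s, t} _ s t x e (Ax.nt ev.1 f4) c2 (Or.inr rfl) (ok3 u) v w z
      (par_pair s t ▸ he)
    have a2 := h2 V M m n Y kk _ s t x e u.1 f4 c2 v w z (par_pair s t ▸ he)
    rw [← Y.im_mul] at a1 a2
    exact ⟨fun ρ b b' => (a2 ρ (nn b) b').1 fun j hj => Ax.exists_bl ev cs hs b hj,
      fun ρ b b' => (a2 ρ b' (nn b)).2 fun j hj => Ax.exists_bl ev cs ht b hj, a1.2.2.1, a1.2.2.2⟩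
  · have f4 := Ax.four ev hh hd u nf
    obtain ⟨c, p, j, cn, col, j1, jN, e, -⟩ :=
      (cs h hh d hd u.1 u.2).2 nf h (Or.inl rfl) d (Or.inr rfl) u.1 u.2 0 hn
    obtain ⟨P⟩ := exists_pu ta ch u.1 cn col
    have o : 3 ≤ m h d - 1 := by omega
    obtain ⟨U, hU⟩ := exists_cheb cn.two
    have par : (j + p) % 2 = 1 := by
      have := col j
      rw [e, yy] at this
      split_ifs at this
      exacts [(u.1 this.symm).elim, by omega]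
    obtain ⟨-, -, f0, f1, f0', f1', a, b, -⟩ := hf _ _ _ _ p P U j hU cn.two j1 jN par
    refine d6 _ _ _ (U 2) f0 f1 f0' f1' (deg m) ?_ a b (deg_of _) (deg_of _)
    have h3 := hU.ge (j := 2) (by omega)
    have h4 := hU.rc 1
    rw [hU.o] at h4
    norm_num at h3 h4
    linarith
  · have a2 := h1 V M m n Y _ s t x e u.1 (Ax.three ev hs ht u) (cs s hs t ht u.1 u.2).1 v w z
      (par_pair s t ▸ he)
    rw [← Y.im_mul] at a2
    exact ⟨fun ρ b b' => (a2 ρ (nn b) b').1 fun j hj => Ax.exists_bl ev cs hs b hj,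
      fun ρ b b' => (a2 ρ b' (nn b)).2 fun j hj => Ax.exists_bl ev cs ht b hj⟩

end Pool.Agent.MP_6eaae3_al.IS
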