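import Pool.Agent.MP_6eaae3_al.IS.Spec

/-! Small facts used in several places. -/

namespace Pool.Agent.MP_6eaae3_al.IS

open Set Pool.Agent.MP_6eaae3_al.LT Pool.Agent.MP_6eaae3_al.EV Pool.Agent.MP_6eaae3_al.EV.Uu

variable {V G : Type} [Group G] {r : V → G} {Λ : Set V} {t₀ : V}

theorem lpow {g} (hg : g ∈ Subgroup.closure (r '' Λ)) {a} (ha : a ∈ Λ) (p : ℤ) :
    ln r Λ t₀ (r a ^ p * g) ≤ ln r Λ t₀ g + 1 := ln_pow lnn hg ha p

theorem mm {a : V} (ha : a ∈ Λ) (p : ℤ) {w : G} (hw : w ∈ Subgroup.closure (r '' Λ)) :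
    r a ^ p * w ∈ Subgroup.closure (r '' Λ) := mul_mem (gen_mem ha p) hw

/-- A descent is a first syllable. -/
theorem top {v} (hv : v ∈ Subgroup.closure (r '' Λ)) {a} (ha : a ∈ Λ) (h : Ds r Λ t₀ v a) :
    ∃ q : ℤ, ∃ w ∈ Subgroup.closure (r '' Λ), v = r a ^ q * w ∧
      ln r Λ t₀ (r a ^ q * w) = ln r Λ t₀ w + 1 := by
  obtain ⟨p, hp⟩ := h
  have e : r a ^ (-p) * (r a ^ p * v) = v := by group
  have := lpow (t₀ := t₀) (mm ha p hv) ha (-p)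
  exact ⟨-p, _, mm ha p hv, e.symm, by rw [e] at this ⊢; omega⟩

/-- An element of positive length has a first syllable. -/
theorem split {v} (hv : v ∈ Subgroup.closure (r '' Λ)) (h : ln r Λ t₀ v ≠ 0) :
    ∃ d ∈ Λ, ∃ j : ℤ, ∃ w ∈ Subgroup.closure (r '' Λ), v = r d ^ j * w ∧
      ln r Λ t₀ (r d ^ j * w) = ln r Λ t₀ w + 1 := by
  obtain ⟨k, e⟩ := Nat.exists_eq_succ_of_ne_zero h
  obtain ⟨d, hd, j, w, hw, rfl, e'⟩ := (lnn V G r Λ t₀ v hv).2.2 k e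
  exact ⟨d, hd, j, w, hw, rfl, by omega⟩

theorem Dec.mem {v U z} (h : Dec r Λ t₀ v U z) : v ∈ Subgroup.closure (r '' Λ) := by
  obtain ⟨a, b, q, w, c, rfl, -⟩ := h
  exact mul_mem (ev_mem a) (mm b q c)

theorem Dec.nil {v z} (h : Dec r Λ t₀ v [] z) : ∃ q : ℤ, ∃ w ∈ Subgroup.closure (r '' Λ),
    v = r z ^ q * w ∧ ln r Λ t₀ (r z ^ q * w) = ln r Λ t₀ w + 1 := by
  obtain ⟨-, -, q, w, c, d, e⟩ := h
  rw [ev_nil, one_mul] at d
  exact ⟨q, w, c, d, by rw [← d, e, List.length_nil]; omega⟩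

theorem Dec.ds {v z} (h : Dec r Λ t₀ v [] z) : Ds r Λ t₀ v z := by
  obtain ⟨q, w, -, rfl, e⟩ := h.nil
  exact ds_of (by omega)

theorem Dec.ofDs {v z} (hv : v ∈ Subgroup.closure (r '' Λ)) (hz : z ∈ Λ) (h : Ds r Λ t₀ v z) :
    Dec r Λ t₀ v [] z := by
  obtain ⟨q, w, a, b, c⟩ := top hv hz h
  exact ⟨by simp, hz, q, w, a, by rw [ev_nil, one_mul, b], by rw [b, c, List.length_nil]; omega⟩

/-- The first syllable of a decomposition is removed. -/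
theorem Dec.tail {v U z d} {j : ℤ} (h : Dec r Λ t₀ v ((d, j) :: U) z) :
    d ∈ Λ ∧ ∃ w, Dec r Λ t₀ w U z ∧ v = r d ^ j * w ∧ ln r Λ t₀ (r d ^ j * w) = ln r Λ t₀ w + 1 := by
  obtain ⟨a, b, q, w, c, e1, e2⟩ := h
  have hd : d ∈ Λ := a (d, j) (by simp)
  have a' : ∀ y ∈ U, y.1 ∈ Λ := fun y hy => a y (by simp [hy])
  have l1 := lpow (t₀ := t₀) c b q
  have l2 := ln_le (t₀ := t₀) lnn (mm b q c) a'
  have l3 := lpow (t₀ := t₀) (mul_mem (ev_mem a') (mm b q c)) hd j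
  rw [ev_cons, mul_assoc] at e1
  rw [List.length_cons, e1] at e2
  simp only at e1 e2
  exact ⟨hd, _, ⟨a', b, q, w, c, rfl, by omega⟩, e1, by omega⟩

theorem Dec.cons {v U z d} {j : ℤ} (h : Dec r Λ t₀ v U z) (hd : d ∈ Λ)
    (e : ln r Λ t₀ (r d ^ j * v) = ln r Λ t₀ v + 1) : Dec r Λ t₀ (r d ^ j * v) ((d, j) :: U) z := by
  obtain ⟨a, b, q, w, c, e1, e2⟩ := h
  refine ⟨fun y hy => ?_, b, q, w, c, by rw [ev_cons, e1, mul_assoc], by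
    rw [e, e2, List.length_cons]; omega⟩
  rcases List.mem_cons.1 hy with rfl | hy
  exacts [hd, a y hy]

/-- A decomposition is cut at an earlier syllable. -/
theorem Dec.cut {v U U' z s} {q : ℤ} (h : Dec r Λ t₀ v (U ++ (s, q) :: U') z) : Dec r Λ t₀ v U s := by
  induction U generalizing v with
  | nil =>
    obtain ⟨a, w, b, rfl, c⟩ := h.tail
    exact Dec.ofDs (mm a q b.mem) a (ds_of (by omega))
  | cons y U ih =>
    obtain ⟨a, w, b, rfl, c⟩ := Dec.tail (d := y.1) (j := y.2) h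
    exact (ih b).cons a c

namespace Ax3

variable {A : Ax3 r Λ t₀}

theorem ok {h d} (hd : d ∈ Λ) (c : A.cr h d) (a : V) (e : (Sum.inl d : V ⊕ Bool) = Sum.inl a) :
    a ∈ Λ ∧ A.cr h a := by
  cases e; exact ⟨hd, c⟩

/-- A crossing without winding gives everything. -/
theorem g2 {g : G} {h : V} (hh : h ∈ Λ) {y} (c : A.Cx g h y 0) : A.SS g h y :=
  ⟨Or.inl ⟨0, c⟩, fun p hp ρ ok ne => A.hp _ h hh y ρ ok ne (Or.inl ⟨0 + p, fun e => by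
    rw [zero_add] at e
    rw [e, zpow_zero, one_mul] at hp
    omega, A.cx0 _ _ _ p 0 c⟩)⟩

theorem SW.pp {v h x} (s : A.SW v h x) : A.PP v h x := s.elim And.right And.right

theorem SW.ss {v h x} (s : A.SW v h x) (n : ¬ A.fr h) : A.SS v h x :=
  s.resolve_right fun ⟨⟨_, _, _, f, _⟩, _⟩ => n f

/-- One syllable. -/
theorem one {w h d x} {j : ℤ} (hh : h ∈ Λ) (hd : d ∈ Λ) (c : A.cr h d) (s : A.PP w d x)
    (n : x ≠ Sum.inl h) (e : ln r Λ t₀ (r d ^ j * w) = ln r Λ t₀ w + 1) :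
    A.SS (r d ^ j * w) h (Sum.inl d) :=
  g2 hh (A.pi _ h hh d hd c (s j e _ (ok hh (A.sy _ _ c)) n.symm))

/-- The substitute of a seed gives a seed for every other letter. -/
theorem AL.ss {v h x o} (s : A.AL v h x) (ho : o ∈ Λ) (n1 : o ≠ h) (n2 : x ≠ Sum.inl o) :
    A.SS v o x := by
  obtain ⟨a, ha, rfl, -, f, -, k⟩ := s
  have c := A.fc a f o ho fun e => n2 (by rw [e])
  exact g2 ho (A.pi _ o ho a ha (A.sy _ _ c) (k _ (ok ho c) fun e => n1 (Sum.inl.inj e)))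

theorem Prov.ne {v h x} (p : A.Prov v h x) : x ≠ Sum.inl h := by
  rcases p with rfl | ⟨a, U, rfl, c, -⟩
  · exact Sum.inr_ne_inl
  · exact fun e => A.ne _ _ c (Sum.inl.inj e).symm

theorem Prov.ne_true {v h x} (p : A.Prov v h x) : x ≠ Sum.inr true := by
  rcases p with rfl | ⟨a, U, rfl, -⟩
  · simp
  · exact Sum.inl_ne_inr

theorem Prov.inl {v h a} (p : A.Prov v h (Sum.inl a)) :
    A.cr h a ∧ ∃ U, (∀ y ∈ U, y.1 ≠ h ∧ y.1 ≠ a) ∧ Dec r Λ t₀ v U a := by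
  rcases p with e | ⟨_, U, e, c, k⟩
  · exact (Sum.inl_ne_inr e).elim
  · cases e; exact ⟨c, U, k⟩

theorem Prov.cons {v h x d} {j : ℤ} (p : A.Prov v h x) (hd : d ∈ Λ) (n1 : d ≠ h)
    (n2 : x ≠ Sum.inl d) (e : ln r Λ t₀ (r d ^ j * v) = ln r Λ t₀ v + 1) :
    A.Prov (r d ^ j * v) h x := by
  rcases p with rfl | ⟨a, U, rfl, c, hU, D⟩
  · exact Or.inl rfl
  · refine Or.inr ⟨a, (d, j) :: U, rfl, c, fun y hy => ?_, D.cons hd e⟩
    rcases List.mem_cons.1 hy with rfl | hy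
    exacts [⟨n1, fun u => n2 (congrArg Sum.inl u.symm)⟩, hU y hy]

theorem Prov.ofDs {v h d} (hv : v ∈ Subgroup.closure (r '' Λ)) (hd : d ∈ Λ) (c : A.cr h d)
    (e : Ds r Λ t₀ v d) : A.Prov v h (Sum.inl d) :=
  Or.inr ⟨d, [], rfl, c, by simp, Dec.ofDs hv hd e⟩

/-- A syllable that commutes with `h` changes nothing. -/
theorem comm {v h d} {j : ℤ} (hv : v ∈ Subgroup.closure (r '' Λ)) (hh : h ∈ Λ)
    (hd : d ∈ Λ) (n1 : d ≠ h) (c : ¬ A.cr d h) (e : ln r Λ t₀ (r d ^ j * v) = ln r Λ t₀ v + 1) :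
    (Ds r Λ t₀ v h → Ds r Λ t₀ (r d ^ j * v) h) ∧ (Ad r Λ t₀ (r d ^ j * v) h → Ad r Λ t₀ v h) ∧
    (∀ x, A.SS v h x → A.SS (r d ^ j * v) h x) ∧ (∀ x, A.Prov v h x → A.Prov (r d ^ j * v) h x) ∧
      ¬ A.fr h ∧ ¬ A.fr d := by
  have sw : ∀ p : ℤ, r h ^ p * (r d ^ j * v) = r d ^ j * (r h ^ p * v) := fun p => by
    rw [← mul_assoc, ← mul_assoc, ((A.cm d hd h hh c).zpow_zpow j p).eq]
  have le : ∀ p : ℤ, ln r Λ t₀ (r h ^ p * (r d ^ j * v)) ≤ ln r Λ t₀ (r h ^ p * v) + 1 := fun p => by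
    rw [sw]; exact lpow (mm hh p hv) hd j
  have ad : ∀ p : ℤ, ln r Λ t₀ (r h ^ p * (r d ^ j * v)) = ln r Λ t₀ (r d ^ j * v) + 1 →
      ln r Λ t₀ (r h ^ p * v) = ln r Λ t₀ v + 1 := fun p u => by
    have := le p
    have := lpow (t₀ := t₀) hv hh p
    omega
  refine ⟨fun ⟨p, hp⟩ => ⟨p, ?_⟩, fun ⟨p, hp⟩ => ⟨p, ad p hp⟩, fun x s => ⟨?_, fun p u ρ k1 k2 => ?_⟩,
    fun x p => ?_, fun f => c (A.sy _ _ (A.fc h f d hd n1)), fun f => c (A.fc d f h hh n1.symm)⟩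
  · have := le p
    omega
  · exact s.1.imp (fun ⟨k, u⟩ => ⟨k, A.cx2 _ _ hh _ _ hd _ _ n1 c u⟩) (A.hh2 _ _ hh _ _ hd _ n1 c)
  · rw [sw]
    exact A.ps1 _ _ _ _ _ n1 (fun f => c (A.sy _ _ (k1 d f).2)) (s.2 p (ad p u) ρ k1 k2)
  · refine p.cons hd n1 ?_ e
    rcases p with rfl | ⟨a, U, rfl, u, -⟩
    · exact Sum.inr_ne_inl
    · exact fun f => c (A.sy _ _ (Sum.inl.inj f ▸ u))

/-- Length zero. -/
theorem zero (A : Ax3 r Λ t₀) {v h} (hv : v ∈ Subgroup.closure (r '' Λ)) (e : ln r Λ t₀ v = 0)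
    (hh : h ∈ Λ) (a : Ad r Λ t₀ v h) : A.Cx v h (Sum.inr false) 0 := by
  have h0 := (lnn V G r Λ t₀ v hv).2.1.1 e
  obtain ⟨p, hp⟩ := a
  obtain rfl : h = t₀ := by
    by_contra ne
    have := (lnn V G r Λ t₀ _ (mm hh p hv)).2.1.2
      (mul_mem (gen_mem (X := Λ \ {t₀}) ⟨hh, ne⟩ p) h0)
    omega
  clear hp e hv
  induction h0 using Subgroup.closure_induction_left with
  | one => exact A.base
  | mul_left x hx y hy ih =>
    obtain ⟨a, ha, rfl⟩ := hx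
    simpa using A.cx1 y h _ a 1 ha.2 Sum.inr_ne_inl ih
  | inv_mul_cancel x hx y hy ih =>
    obtain ⟨a, ha, rfl⟩ := hx
    simpa using A.cx1 y h _ a (-1) ha.2 Sum.inr_ne_inl ih

/-- One syllable after a seed on the other letter. -/
theorem tt1 (tt : S_TT) {w h d x} {j : ℤ} (hw : w ∈ Subgroup.closure (r '' Λ)) (hh : h ∈ Λ) (hd : d ∈ Λ)
    (c : A.cr h d) (nf : ¬ (A.fr h ∧ A.fr d)) (e : ln r Λ t₀ (r d ^ j * w) = ln r Λ t₀ w + 1)
    (nd : ¬ Ds r Λ t₀ (r d ^ j * w) h) (n1 : x ≠ Sum.inl d) (n2 : x ≠ Sum.inl h) (s : A.SS w h x) :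
    A.SS (r d ^ j * w) h (Sum.inl d) ∨ A.SS (r d ^ j * w) h x := by
  have := tt V G r Λ t₀ A d hd h hh w hw [(d, j)] h x c nf (by simp) (by simp)
    (by rw [ev_one, List.length_singleton]; omega) (by rwa [ev_one]) (Or.inr rfl) n1 n2 s
  rw [ev_one] at this
  exact this.imp_right fun u => u.2.2

end Ax3

end Pool.Agent.MP_6eaae3_al.IS
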