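import Pool.Agent.MP_6eaae3_al.IS.Basic

/-! The induction on the number of syllables is closed. -/

namespace Pool.Agent.MP_6eaae3_al.IS

open Set Pool.Agent.MP_6eaae3_al.LT Pool.Agent.MP_6eaae3_al.EV Pool.Agent.MP_6eaae3_al.EV.Uu

variable {V G : Type} [Group G] {r : V → G} {Λ : Set V} {t₀ : V}

namespace Gl

theorem all (h1 : S_SU) (h2 : S_SF) (h3 : S_SI) (h4 : S_SJ) (h5 : S_SQ) (A : Ax3 r Λ t₀) {v}
    (hv : v ∈ Subgroup.closure (r '' Λ)) : A.PU v ∧ A.PF v ∧ A.PI v ∧ A.PJ v ∧ A.PQ v := by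
  induction hn : ln r Λ t₀ v using Nat.strong_induction_on generalizing v with
  | _ n ih =>
  have IH : A.IH v := fun w hw l => ih _ (hn ▸ l) hw rfl
  have pj := h4 V G r Λ t₀ A v hv IH
  have pi := h3 V G r Λ t₀ A v hv IH pj
  exact ⟨h1 V G r Λ t₀ A v hv IH pi, h2 V G r Λ t₀ A v hv IH, pi, pj, h5 V G r Λ t₀ A v hv IH⟩

theorem along (A : Ax3 r Λ t₀) {s₀ : V} {g u : G} (hu : u ∈ Subgroup.closure (r '' (Λ \ {s₀})))
    (h : A.Ps g s₀ (Sum.inr true)) : A.Ps (u * g) s₀ (Sum.inr true) := by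
  induction hu using Subgroup.closure_induction_left with
  | one => rwa [one_mul]
  | mul_left x hx y hy ih =>
    obtain ⟨a, ha, rfl⟩ := hx
    simpa [mul_assoc] using A.ps1 _ s₀ _ a 1 ha.2 Sum.inr_ne_inl ih
  | inv_mul_cancel x hx y hy ih =>
    obtain ⟨a, ha, rfl⟩ := hx
    simpa [mul_assoc] using A.ps1 _ s₀ _ a (-1) ha.2 Sum.inr_ne_inl ih

end Gl

theorem gl (h1 : S_SU) (h2 : S_SF) (h3 : S_SI) (h4 : S_SJ) (h5 : S_SQ) : S_GL := by
  intro V G _ r Λ t₀ A s₀ hs g hg ng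
  induction hn : ln r Λ t₀ g using Nat.strong_induction_on generalizing g with
  | _ n ih =>
  rcases n with _ | k
  · exact (ng ⟨1, one_mem _, g, (lnn V G r Λ t₀ g hg).2.1.1 hn, (one_mul g).symm⟩).elim
  obtain ⟨a, ha, p, w, hw, rfl, e⟩ := (lnn V G r Λ t₀ g hg).2.2 k hn
  by_cases c : a = s₀
  · subst c
    have ad : ln r Λ t₀ (r a ^ p * w) = ln r Λ t₀ w + 1 := by omega
    obtain ⟨x, s, pr⟩ := (Gl.all h1 h2 h3 h4 h5 A hw).1 a ha (not_ds lnn hw ha ad) ⟨p, ad⟩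
    exact s.pp p ad _ (fun _ f => (Sum.inr_ne_inl f).elim) pr.ne_true.symm
  · have hm := gen_mem (r := r) (X := Λ \ {s₀}) ⟨ha, c⟩ p
    refine Gl.along A hm (ih k (by omega) w hw ?_ e)
    rintro ⟨u, hu, q, hq, rfl⟩
    exact ng ⟨_, mul_mem hm hu, q, hq, (mul_assoc _ _ _).symm⟩

end Pool.Agent.MP_6eaae3_al.IS
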