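import Pool.Agent.MP_6eaae3_al.IS.Basic

/-! The dihedral step for any target. -/

namespace Pool.Agent.MP_6eaae3_al.IS

open FreeGroup (of mk invRev IsReduced)
open Set Pool.Agent.MP_6eaae3_al.LT Pool.Agent.MP_6eaae3_al.LT.Path Pool.Agent.MP_6eaae3_al.EV

open Al in
theorem lc (h : S_AC) : S_LC := by
  intro V M m n Y S s t x g ne' h3 cs xs xt sd hg r rs rt
  have lr := lr (li (f2 f3) ptt) (wp ptt) ta ch
  have m1 := m1 (f2 f3) V M m n Y 0
  have ne := ne'.symm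
  obtain ⟨Δ, rel⟩ : ∃ Δ, ∀ i, aa (PresentedGroup.of s : Art m) (PresentedGroup.of t) i (m s t - 1 + 1) = Δ :=
    ⟨_, fun i => by
      rw [Nat.sub_add_cancel (by omega)]
      have := artin_rel m ne'
      rw [lift_alG, lift_alG] at this
      exact aa_eq this i⟩
  obtain ⟨⟨_, i₀⟩, B, y, y', rfl, b0, b1, b2, b3, b4⟩ := sd
  obtain ⟨c, p, i, cn, col, i1, iN, ci⟩ := cs i₀ b0
  have par : (i + p) % 2 = 1 := by
    have := col i
    rw [ci, yy] at this
    split_ifs at this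
    exacts [(ne' this.symm).elim, by omega]
  have D : Sdd Y S s _ _ p c i x B y y' false true 0 :=
    ⟨ne', cn, col, i1, iN, par, xs, xt, ci ▸ b1, b2, b3, ci ▸ b4⟩
  have back : ∀ (a : Art m) (j : ℤ) (g : Art m), Y.im (a ^ (-j)) (Y.im (a ^ j * g) S) = Y.im g S :=
    fun a j g => by rw [← Y.im_mul, zpow_neg, inv_mul_cancel_left]
  rw [par_pair] at hg
  refine ⟨fun b => or_iff_not_imp_left.2 fun u => ?_, fun b => or_iff_not_imp_left.2 fun u => ?_⟩
  · obtain ⟨P, H⟩ := lr V M m n Y S s _ _ p c i x B y y' false true 0 s r D rs rt b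
    refine (h _ _ _ Δ _ p P i (fun g => ¬ Y.Ps (Y.im g S) s r) g (by omega) rel i1 iN par hg u).1
      (fun g j v w => v (back _ j g ▸ (m1 _ s _ r _ ne).1 rt w)) fun g v w => ?_
    simpa [Cw] using (H g (par_pair s _ ▸ v) w).1 rfl
  · obtain ⟨P, H⟩ := lr V M m n Y S s _ _ p c i x B y y' false true 0 _ r D rs rt b
    refine (h _ _ _ Δ _ p P i (fun g => ¬ Y.Ps (Y.im g S) _ r) g (by omega) rel i1 iN par hg u).2
      (fun g j v w => v (back _ j g ▸ (m1 _ _ s r _ ne').1 rs w)) fun g v w => ?_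
    simpa [Cw] using (H g (par_pair s _ ▸ v) w).2 rfl

open MX MX.Ll Al in
theorem l2 : S_L2 := by
  intro V M m n Y a S s t x g ne' h4 cs xs xt sd hg r rs rt
  have c3 := MX.c3 MX.h4
  have p1 := MX.p1 MX.df MX.tl MX.ld (MX.pl MX.po MX.pq) MX.en MX.t1 MX.t7
  have lr := lr (li (f2 f3) ptt) (wp ptt) ta ch
  have al := al (c1 hf h3) (c2 hf h3) (pd df z1 z2 z3 z4 mn (EV.cj mn))
  have m1 := m1 (f2 f3) V M m n Y 0
  have hs : s ∈ ({s, t} : Set V) := Or.inl rfl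
  have ht : t ∈ ({s, t} : Set V) := Or.inr rfl
  have ne := ne'.symm
  have m2' : m s t ≠ 2 := by omega
  have o : 3 ≤ m s t - 1 := by omega
  obtain ⟨Δ, rel⟩ : ∃ Δ, ∀ i, aa (PresentedGroup.of s : Art m) (PresentedGroup.of t) i (m s t - 1 + 1) = Δ :=
    ⟨_, fun i => by
      rw [Nat.sub_add_cancel (by omega)]
      have := artin_rel m ne'
      rw [lift_alG, lift_alG] at this
      exact aa_eq this i⟩
  have CH := fun i₀ => chain (S := S) (i₀ := i₀) cs hs ht ne' m2' xs xt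
  have PK := pick (S := S) cs hs ht ne' m2' xs xt o
  generalize m s t - 1 = N at o rel CH PK
  rw [par_pair] at hg
  have hΔ : ∀ j : ℤ, Δ ^ j ∈ Subgroup.closure {PresentedGroup.of s, PresentedGroup.of t} :=
    fun j => zpow_mem (rel 0 ▸ alG_mem _ (yy_mem ms mt _) (yy_mem ms mt _)) j
  have back : ∀ (a : Art m) (j : ℤ) (g : Art m), Y.im (a ^ (-j)) (Y.im (a ^ j * g) S) = Y.im g S :=
    fun a j g => by rw [← Y.im_mul, zpow_neg, inv_mul_cancel_left]
  obtain ⟨c, p, i, B, y, y', e, e', k, par, pt, ct, cs', D, ty⟩ : ∃ (c : ℕ → V × ℕ) (p : ℤ) (i : ℕ) (B : _)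
      (y y' : _) (e e' : Bool) (k : ℤ), (i + p) % 2 = 1 ∧ (Pat a N fun k => (c k).2) ∧ (∀ k, k % 2 = i % 2 → (c k).1 = t) ∧
      (∀ k, k % 2 = (i + 1) % 2 → (c k).1 = s) ∧ Sdd Y S s t N p c i x B y y' e e' k ∧
      ((e = false ∧ e' = true) ∨ (e = e' ∧ k ≠ 0 ∧ (e = true ∨ Kk a (c i).2) ∧ Hh Y a S t x)) := by
    rcases sd with ⟨k, ⟨_, i₀⟩, B, y, y', rfl, b, c, d, e, f⟩ | w
    · obtain ⟨c', p, i, -, -, -, u1, u2, u3, u4, D⟩ := CH i₀ b
      exact ⟨c', p, i, B, y, y', _, _, k, u1, u2, u3, u4, D _ _ _ _ _ _ c d e f, Or.inl ⟨rfl, rfl⟩⟩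
    · obtain ⟨i₀, e, v, b, B, y, y', k, c, d, d', k0, f⟩ := w.base
      obtain ⟨c', p, i, rfl, -, -, u1, u2, u3, u4, D⟩ := CH i₀ b
      exact ⟨c', p, i, B, y, y', _, _, k, u1, u2, u3, u4, D _ _ _ _ _ _ c d d' f, Or.inr ⟨rfl, k0, v, w⟩⟩
  have i1 := D.i1
  have iN := D.iN
  have hk := mul_mem hg (zpow_mem mt k)
  have cr : ∀ (P : Pu _ _ N p) (z w : Art m) (b : ℤ), z ∈ Subgroup.closure {_, _} →
      g * PresentedGroup.of t ^ k = z ^ b * w → Cw P (z ^ (-b) * g) i false k true = P.W w i :=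
    fun P z w b hz u => by
      rw [cw_cross P i1 iN par (mul_mem (zpow_mem hz _) hg), mul_assoc, u]; congr 1; group
  have AL := fun od P Q => al _ _ _ _ _ p P i e e' k Q g o od rel i1 iN par
    (ty.imp_right fun u => ⟨u.1, u.2.1, u.2.2.1.imp_right ((pt.2 od).2 i i1 iN).1⟩) hg
  refine ⟨fun b => or_iff_not_imp_left.2 fun u => ?_, fun b => or_iff_not_imp_left.2 fun u => ?_⟩
  · obtain ⟨P, H⟩ := lr V M m n Y S s t _ p c i x B y y' e e' k s r D rs rt b
    have ps : ∀ g (j : ℤ), ¬ Y.Ps (Y.im g S) s r → ¬ Y.Ps (Y.im (PresentedGroup.of t ^ j * g) S) s r :=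
      fun g j v w => v (back _ j g ▸ (m1 _ s t r _ ne).1 rt w)
    have H' := fun g v w => (H g (par_pair s t ▸ v) w).1 rfl
    rcases Nat.mod_two_eq_zero_or_one N with od | od
    swap
    · exact (AL od P _ u).1 ps (Or.inl H')
    have P1 := fun j => p1 _ _ _ Δ N p P i j (by omega) od rel i1 iN par
    rcases ty with ⟨rfl, rfl⟩ | ⟨rfl, k0, -⟩
    · obtain ⟨b1, j, b2, v, w⟩ := (c3 _ _ _ Δ N p P i _ (by omega) od rel i1 iN par hk).1
        (cw_cross P i1 iN par hg k ▸ H' g hg u)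
      have z := cr P _ _ b1 mt (w.trans (mul_assoc _ _ _))
      rw [W_s P i1 iN par (hΔ j)] at z
      obtain rfl : j = 0 := by_contra fun j0 =>
        ((P1 j j0).1 v).1 (z ▸ H' _ (mul_mem (zpow_mem mt _) hg) (ps g _ u))
      exact ⟨b1, b2, -k, by rw [eq_mul_inv_of_mul_eq w]; group⟩
    · obtain ⟨b1, j, v, w⟩ := ((c3 _ _ _ Δ N p P i _ (by omega) od rel i1 iN par hg).2.2 e k k0).1
        (H' g hg u)
      obtain rfl : j = 0 := by_contra fun j0 => ((P1 j j0).1 v).2.2 e k k0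
        (H' _ (hΔ j) (by simpa [w] using ps g (-b1) u))
      exact ⟨b1, 0, 0, by simpa using w⟩
  · have LR := fun p c i B y y' e e' k D => lr V M m n Y S s t N p c i x B y y' e e' k t r D rs rt b
    obtain ⟨P, H⟩ := LR p c i B y y' e e' k D
    have ps : ∀ g (j : ℤ), ¬ Y.Ps (Y.im g S) t r → ¬ Y.Ps (Y.im (PresentedGroup.of s ^ j * g) S) t r :=
      fun g j v w => v (back _ j g ▸ (m1 _ t s r _ ne').1 rs w)
    have H' := fun g v w => (H g (par_pair s t ▸ v) w).2 rfl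
    rcases Nat.mod_two_eq_zero_or_one N with od | od
    swap
    · exact ((AL od P _ u).2 ps).1 H'
    rcases ty with ⟨rfl, rfl⟩ | ⟨rfl, k0, -, hh⟩
    · obtain ⟨b1, j, h, b2, v, -, w⟩ := (c3 _ _ _ Δ N p P i _ (by omega) od rel i1 iN par hk).2.1
        (cw_cross P i1 iN par hg k ▸ H' g hg u)
      have z := cr P _ (Δ ^ j * PresentedGroup.of t ^ h * PresentedGroup.of s ^ b2) b1 ms (by rw [w]; group)
      rw [W_s P i1 iN par (mul_mem (hΔ j) (zpow_mem mt h))] at z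
      obtain rfl : j = 0 := by_contra fun j0 =>
        ((p1 _ _ _ Δ N p P i j (by omega) od rel i1 iN par j0).1 v).2.1 h
          (z ▸ H' _ (mul_mem (zpow_mem ms _) hg) (ps g _ u))
      exact ⟨b1, h, b2, -k, by rw [eq_mul_inv_of_mul_eq w]; group⟩
    · obtain ⟨b1, j, b2, w⟩ := ((c3 _ _ _ Δ N p P i _ (by omega) od rel i1 iN par hg).2.2 e k k0).2
        (H' g hg u)
      obtain rfl : j = 0 := by_contra fun j0 => by
        obtain ⟨c, p, i, e, k, -, -, k0, ⟨B, y, y', D⟩, nb, -⟩ := PK od hh j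
        obtain ⟨P, H⟩ := LR p c i B y y' e e k D
        exact nb ((p1 _ _ _ Δ N p P i j (by omega) od rel D.i1 D.iN D.par j0).2 e k k0
          (cw_t P D.i1 D.iN D.par (hΔ j) b2 k e ▸ (H _ (par_pair s t ▸ mul_mem (hΔ j) (zpow_mem mt b2))
            (by simpa [w, mul_assoc] using ps g (-b1) u)).2 rfl))
      exact ⟨b1, b2, 0, 0, by simpa using w⟩

end Pool.Agent.MP_6eaae3_al.IS
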