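import Pool.Agent.MP_6eaae3_al.IS.Basic

/-! The dihedral step for chains of length two. -/

namespace Pool.Agent.MP_6eaae3_al.IS

open FreeGroup (of mk invRev IsReduced)
open Set Pool.Agent.MP_6eaae3_al.LT Pool.Agent.MP_6eaae3_al.EV

namespace N2

/-- Unipotent triangular matrices of size four, extended by an alternating sign. -/
@[ext] structure Hs where
  s : Bool
  a : ℤ
  b : ℤ
  c : ℤ
  d : ℤ
  e : ℤ
  f : ℤ

def sg (s : Bool) : ℤ := if s then -1 else 1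

instance : Mul Hs := ⟨fun x y => ⟨xor x.s y.s, x.a + sg x.s * y.a, x.b + sg x.s * y.b,
  x.c + sg x.s * y.c, x.d + y.d + sg x.s * x.a * y.b, x.e + y.e + sg x.s * x.b * y.c,
  x.f + sg x.s * y.f + x.a * y.e + sg x.s * x.d * y.c⟩⟩

instance : One Hs := ⟨⟨false, 0, 0, 0, 0, 0, 0⟩⟩

instance : _root_.Inv Hs := ⟨fun x => ⟨x.s, -(sg x.s * x.a), -(sg x.s * x.b), -(sg x.s * x.c),
  x.a * x.b - x.d, x.b * x.c - x.e, sg x.s * (x.a * x.e + x.d * x.c - x.f - x.a * x.b * x.c)⟩⟩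

theorem mul_def (x y : Hs) : x * y = ⟨xor x.s y.s, x.a + sg x.s * y.a, x.b + sg x.s * y.b,
  x.c + sg x.s * y.c, x.d + y.d + sg x.s * x.a * y.b, x.e + y.e + sg x.s * x.b * y.c,
  x.f + sg x.s * y.f + x.a * y.e + sg x.s * x.d * y.c⟩ := rfl

theorem one_def : (1 : Hs) = ⟨false, 0, 0, 0, 0, 0, 0⟩ := rfl

theorem inv_def (x : Hs) : x⁻¹ = ⟨x.s, -(sg x.s * x.a), -(sg x.s * x.b), -(sg x.s * x.c),
  x.a * x.b - x.d, x.b * x.c - x.e, sg x.s * (x.a * x.e + x.d * x.c - x.f - x.a * x.b * x.c)⟩ := rfl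

instance : Group Hs := Group.ofLeftAxioms
  (fun ⟨s, _, _, _, _, _, _⟩ ⟨s', _, _, _, _, _, _⟩ ⟨s'', _, _, _, _, _, _⟩ => by
    cases s <;> cases s' <;> ext <;> simp [mul_def, sg] <;> ring)
  (fun x => by ext <;> simp [mul_def, one_def, sg])
  (fun ⟨s, _, _, _, _, _, _⟩ => by
    cases s <;> ext <;> simp [mul_def, inv_def, one_def, sg] <;> ring)

theorem zp (d e f q : ℤ) :
    (⟨false, 0, 0, 0, d, e, f⟩ : Hs) ^ q = ⟨false, 0, 0, 0, q * d, q * e, q * f⟩ := by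
  induction q using Int.induction_on with
  | zero => simp [one_def]
  | succ n ih => rw [zpow_add_one, ih]; ext <;> simp [mul_def, sg] <;> ring
  | pred n ih => rw [zpow_sub_one, ih]; ext <;> simp [mul_def, inv_def, sg] <;> ring

def KK : Subgroup Hs where
  carrier := {x | x.s = false ∧ x.b = 0 ∧ x.d = 0 ∧ x.e = 0 ∧ x.f = 0}
  one_mem' := by simp [one_def]
  mul_mem' := by
    rintro x y ⟨a1, a2, a3, a4, a5⟩ ⟨b1, b2, b3, b4, b5⟩
    simp [mul_def, *]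
  inv_mem' := by
    rintro x ⟨a1, a2, a3, a4, a5⟩
    simp [inv_def, *]

def OO : Subgroup Hs where
  carrier := {x | x.s = false ∧ x.a = 0 ∧ x.c = 0 ∧ x.d = 0 ∧ x.e = 0 ∧ x.f = 0}
  one_mem' := by simp [one_def]
  mul_mem' := by
    rintro x y ⟨a1, a2, a3, a4, a5, a6⟩ ⟨b1, b2, b3, b4, b5, b6⟩
    simp [mul_def, *]
  inv_mem' := by
    rintro x ⟨a1, a2, a3, a4, a5, a6⟩
    simp [inv_def, *]

theorem fl {u : Hs} (h : u ∈ OO) (y : Hs) : (u * y).f = y.f := by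
  obtain ⟨a1, a2, a3, a4, a5, a6⟩ := h
  simp [mul_def, sg, *]

theorem fr {u : Hs} (h : u ∈ OO) (y : Hs) : (y * u).f = y.f := by
  obtain ⟨a1, a2, a3, a4, a5, a6⟩ := h
  simp [mul_def, *]

theorem bd {χ : FreeGroup ℕ →* Hs} {o w : FreeGroup ℕ} {S : Set ℕ} (ho : χ o ∈ OO)
    (hS : ∀ a ∈ S, χ (of a) ∈ KK) (h : Bd o (Fre S) w) : (χ w).f = 0 := by
  obtain ⟨a, κ, hκ, h⟩ := h
  have k0 : (χ κ).f = 0 := (Fre.map_mem χ hS hκ).2.2.2.2
  have e : (χ (o ^ (-a) * w * o ^ a)).f = (χ w).f := by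
    rw [map_mul, map_mul, map_zpow, map_zpow, fr (zpow_mem ho _), fl (zpow_mem ho _)]
  rw [← e]
  rcases h with h | h | h | h <;> rw [h] <;>
    simp only [map_mul, map_inv, fl ho, fr (inv_mem ho), k0]

/-- The involutions; `u` is one if the first letter is the distinguished one, else zero. -/
def XX (u : ℤ) (a : ℕ) : Hs :=
  if a ≤ 1 then ⟨true, u - 1, -u, u - 1, 0, 0, 0⟩ else if a = 2 then ⟨true, 0, 0, 0, 0, 0, 0⟩
  else ⟨true, u, 1 - u, u, 0, 0, 0⟩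

theorem val (i : ℕ) (u k h : ℤ) (hi : i = 1 ∧ u = 1 ∨ i = 2 ∧ u = 0) (hk : k % 2 = 0) (th : Tri h)
    (e : (WW (XX u) 3 k h i).f = 0) : k = 0 ∨ k = 2 ∧ h = -1 ∨ k = -2 ∧ h = 1 := by
  have d2 : ∀ q : ℤ, dd (XX u) 3 ^ (2 * q) =
      ⟨false, 0, 0, 0, q * (2 * u - 1), q * (1 - 2 * u), q * (-1)⟩ := fun q => by
    rw [zpow_mul, ← zp, zpow_two]
    congr 1
    rcases hi with ⟨-, rfl⟩ | ⟨-, rfl⟩ <;> simp [dd, pr, XX, mul_def, sg]
  simp only [WW, DE, DD, if_pos hk, zpow_neg] at e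
  obtain ⟨q, hq | hq⟩ := Int.even_or_odd' (k / 2)
  · rw [hq, d2] at e
    rcases hi with ⟨rfl, rfl⟩ | ⟨rfl, rfl⟩ <;> rcases th with rfl | rfl | rfl <;>
      simp [dd, pr, XX, mul_def, inv_def, one_def, sg] at e <;> omega
  · rw [hq, zpow_add_one, d2] at e
    rcases hi with ⟨rfl, rfl⟩ | ⟨rfl, rfl⟩ <;> rcases th with rfl | rfl | rfl <;>
      simp [dd, pr, XX, mul_def, inv_def, one_def, sg] at e <;> omega

end N2

theorem n2 : S_N2 := by
  intro G _ s t Δ p P i k h rel i1 i2 ip hk th hb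
  obtain ⟨u, hu⟩ : ∃ u : ℤ, i = 1 ∧ u = 1 ∨ i = 2 ∧ u = 0 := by
    by_cases e : i = 1
    exacts [⟨1, Or.inl ⟨e, rfl⟩⟩, ⟨0, Or.inr ⟨by omega, rfl⟩⟩]
  have sq : ∀ a, N2.XX u a * N2.XX u a = 1 := fun a => by
    unfold N2.XX
    rcases hu with ⟨-, rfl⟩ | ⟨-, rfl⟩ <;> split_ifs <;> simp [N2.mul_def, N2.one_def, N2.sg]
  have e := N2.bd (χ := FreeGroup.lift fun a => N2.XX u (a + 1) * N2.XX u a) ?_ ?_ hb
  rotate_left
  · rcases hu with ⟨rfl, rfl⟩ | ⟨rfl, rfl⟩ <;>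
      simp [N2.XX, N2.mul_def, N2.sg, N2.OO, ← SetLike.mem_coe]
  · intro a ha
    have ha : a % 2 ≠ i % 2 := ha
    rw [FreeGroup.lift_apply_of]
    by_cases a0 : a = 0 ∨ 3 ≤ a
    · have : N2.XX u (a + 1) = N2.XX u a := by
        unfold N2.XX
        split_ifs <;> first | rfl | omega
      rw [this, sq]
      exact one_mem _
    · rcases hu with ⟨rfl, rfl⟩ | ⟨rfl, rfl⟩
      · obtain rfl : a = 2 := by omega
        simp [N2.XX, N2.mul_def, N2.sg, N2.KK, ← SetLike.mem_coe]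
      · obtain rfl : a = 1 := by omega
        simp [N2.XX, N2.mul_def, N2.sg, N2.KK, ← SetLike.mem_coe]
  rw [lk G s t Δ 2 p P rel _ _ sq k h i i1 i2 ip th] at e
  have r0 := rel 0
  have r1 := rel 1
  simp only [aa, alG, yy, mul_one] at r0 r1
  norm_num at r0 r1
  have x0 : s * Δ * s = s ^ (2 : ℤ) * t * s ^ (2 : ℤ) := by rw [← r0]; simp only [zpow_two, mul_assoc]
  have a : t⁻¹ * Δ = s * t := by rw [← r1]; group
  have b : Δ * t⁻¹ = t * s := by rw [← r1]; group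
  rcases N2.val i u k h hu hk th e with rfl | ⟨rfl, rfl⟩ | ⟨rfl, rfl⟩
  · exact ⟨0, h, 0, by simp⟩
  · refine ⟨2, 1, 2, ?_⟩
    rw [zpow_one, ← x0, zpow_two, zpow_neg_one, mul_assoc, b]
    calc Δ * (t * s) = s * (t * s) * (t * s) := by rw [r0]
      _ = s * (t * (s * t)) * s := by group
      _ = _ := by rw [r1]
  · refine ⟨-2, -1, -2, ?_⟩
    have y : t⁻¹ * Δ ^ (2 : ℤ) = s ^ (2 : ℤ) * t * s ^ (2 : ℤ) := by
      rw [← x0, zpow_two, ← mul_assoc, a]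
      calc s * t * Δ = s * t * (s * (t * s)) := by rw [r0]
        _ = s * (t * (s * t)) * s := by group
        _ = _ := by rw [r1]
    rw [← inv_inj, mul_inv_rev, ← zpow_neg Δ, neg_neg, zpow_one, y]
    group

end Pool.Agent.MP_6eaae3_al.IS
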