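import Pool.Agent.MP_6eaae3_al.IS.Basic

/-! The parts of the proof for cliques whose small odd labels are far from the label two. -/

namespace Pool.Agent.MP_6eaae3_al.IS

section PartAc

open FreeGroup (of mk invRev IsReduced)
open Set Pool.Agent.MP_6eaae3_al.LT Pool.Agent.MP_6eaae3_al.LT.Path Pool.Agent.MP_6eaae3_al.EV

namespace Rf

abbrev PZ := Equiv.Perm (ℤ × ℤ × ℤ)

/-- Three reflections, acting on the monomials of degree two in two variables. -/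
def x1 : PZ := Function.Involutive.toPerm (fun v => (v.1, -v.2.1, v.2.2)) fun v => by simp

def x2 : PZ := Function.Involutive.toPerm (fun v => (v.1 - 2 * v.2.1 + v.2.2, v.2.2 - v.2.1, v.2.2))
  fun v => by ext <;> simp only <;> ring

def x3 : PZ := Function.Involutive.toPerm
  (fun v => (v.1 - 2 * v.2.1 + v.2.2, 2 * v.1 - 3 * v.2.1 + v.2.2, 4 * v.1 - 4 * v.2.1 + v.2.2))
  fun v => by ext <;> simp only <;> ring

theorem a1 (v) : x1 v = (v.1, -v.2.1, v.2.2) := rfl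
theorem a2 (v) : x2 v = (v.1 - 2 * v.2.1 + v.2.2, v.2.2 - v.2.1, v.2.2) := rfl
theorem a3 (v) : x3 v =
    (v.1 - 2 * v.2.1 + v.2.2, 2 * v.1 - 3 * v.2.1 + v.2.2, 4 * v.1 - 4 * v.2.1 + v.2.2) := rfl
theorem i1 : x1⁻¹ = x1 := rfl
theorem i2 : x2⁻¹ = x2 := rfl
theorem i3 : x3⁻¹ = x3 := rfl

theorem pD (n : ℤ) (v) : ((x1 * x2 * x3) ^ n) v =
    (v.1, v.2.1 - 2 * n * v.1, 4 * n * n * v.1 - 4 * n * v.2.1 + v.2.2) := by
  induction n using Int.induction_on with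
  | zero => simp
  | succ n ih =>
    rw [add_comm, zpow_one_add]
    simp only [Equiv.Perm.mul_apply, ih, a1, a2, a3]
    ext <;> simp only <;> ring
  | pred n ih =>
    rw [sub_eq_neg_add, zpow_add, zpow_neg_one]
    simp only [mul_inv_rev, i1, i2, i3, Equiv.Perm.mul_apply, ih, a1, a2, a3]
    ext <;> simp only <;> ring

/-- The upper triangular elements. -/
def UU : Subgroup PZ where
  carrier := {g | g (1, 0, 0) = (1, 0, 0) ∧ ∀ v, (g v).2.2 = v.2.2}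
  one_mem' := ⟨rfl, fun _ => rfl⟩
  mul_mem' := fun {a b} u w => ⟨by rw [Equiv.Perm.mul_apply, w.1, u.1], fun v => by
    rw [Equiv.Perm.mul_apply, u.2, w.2]⟩
  inv_mem' := fun {a} u => ⟨by rw [Equiv.Perm.inv_eq_iff_eq, u.1], fun v => by
    rw [← u.2]; simp⟩

theorem u1 : x1 ∈ UU := ⟨rfl, fun _ => rfl⟩
theorem u2 : x2 ∈ UU := ⟨rfl, fun _ => rfl⟩

theorem cm : x2 * x3 = x3 * x2 := by
  ext v <;> simp only [Equiv.Perm.mul_apply, a2, a3] <;> ring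

def KK : Subgroup PZ where
  carrier := {g | g = 1 ∨ g = x3 * x2}
  one_mem' := Or.inl rfl
  mul_mem' := by
    rintro a b (rfl | rfl) (rfl | rfl)
    exacts [Or.inl rfl, Or.inr rfl, Or.inr rfl, Or.inl (by rw [mul_eq_one_iff_eq_inv]; exact cm.symm)]
  inv_mem' := by
    rintro a (rfl | rfl)
    exacts [Or.inl rfl, Or.inr cm]

theorem val {θ : FreeGroup ℕ →* PZ} {i : ℕ} {D : Set ℕ} {w} (ho : θ (of i) ∈ UU)
    (hD : ∀ k ∈ D, θ (of k) ∈ KK) (h : Bd (of i) (Fre D) w) :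
    (θ w (1, 0, 0)).2.2 = 0 ∨ (θ w (1, 0, 0)).2.2 = 4 := by
  obtain ⟨a, b, κ, δ, δ', u, v, v', rfl⟩ := h.en (η := 1)
  obtain rfl : δ = 1 := v.elim id id
  obtain rfl : δ' = 1 := v'.elim id id
  simp only [inv_one, mul_one, map_mul, map_zpow, Equiv.Perm.mul_apply]
  rw [(zpow_mem ho a).2, (zpow_mem ho b).1]
  rcases Fre.map_mem θ hD u with e | e <;> rw [e]
  exacts [Or.inl rfl, Or.inr rfl]

theorem fin {n h : ℤ} (t : Tri h) (e : 16 * (n * (1 + n * h)) ^ 2 = 0 ∨ 16 * (n * (1 + n * h)) ^ 2 = 4) :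
    n = 0 ∨ (n = 1 ∧ h = -1) ∨ (n = -1 ∧ h = 1) := by
  have : n * (1 + n * h) = 0 := by
    rcases e with e | e
    · simpa using e
    · omega
  rcases mul_eq_zero.1 this with e | e
  · exact Or.inl e
  · rcases t with rfl | rfl | rfl <;> omega

end Rf

open Rf in
/-- Chains of length two: the arc of an even power of the Garside element. -/
theorem p2 {G : Type} [Group G] {s t Δ : G} {p : ℤ} (P : Pu s t 2 p) {i : ℕ} {n h : ℤ}
    (rel : ∀ i, aa s t i (2 + 1) = Δ) (i1 : 1 ≤ i) (iN : i ≤ 2) (par : (i + p) % 2 = 1) (tr : Tri h)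
    (w : Bd (of i) (Fre (Tp i)ᶜ) (P.W (Δ ^ (2 * n) * t ^ h) i)) :
    n = 0 ∨ (n = 1 ∧ h = -1) ∨ (n = -1 ∧ h = 1) := by
  have d : 2 * n / 2 = n := by omega
  have d' : 2 * n % 2 = 0 := by omega
  refine fin tr ?_
  obtain rfl | rfl : i = 1 ∨ i = 2 := by omega
  · let X : ℕ → PZ := fun a => if a ≤ 1 then x1 else if a = 2 then x2 else if a = 3 then x3 else 1
    have sq : ∀ a, X a * X a = 1 := fun a => by
      simp only [X]; split_ifs <;> exact mul_inv_cancel _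
    have := val (θ := FreeGroup.lift fun a => X (a + 1) * X a) (by simpa [X] using mul_mem u2 u1)
      (fun k hk => by
        have : k % 2 = 0 := by simpa [Tp] using hk
        rw [FreeGroup.lift_apply_of]
        simp only [X]
        split_ifs <;> first | omega | exact Or.inr rfl | exact Or.inl (mul_inv_cancel _)) w
    rw [lk G s t Δ 2 p P rel PZ X sq _ h 1 i1 iN par tr] at this
    have e0 : dd X 0 = 1 := rfl
    have e1 : dd X 1 = x1 := rfl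
    have e2 : dd X 2 = x1 * x2 := rfl
    have e3 : dd X 3 = x1 * x2 * x3 := rfl
    have e4 : X 2 = x2 := rfl
    refine (congrArg (fun z : ℤ => z = 0 ∨ z = 4) ?_).mp this
    rcases tr with rfl | rfl | rfl <;>
      simp only [WW, DE, DD, d, d', Nat.reduceAdd, Nat.reduceSub, e0, e1, e2, e3, e4, Int.reduceEq,
        Int.reduceNeg, if_true, if_false, mul_inv_rev, ← zpow_neg, neg_neg, Rf.i1, i2,
        Equiv.Perm.mul_apply, Equiv.Perm.one_apply, pD, a1, a2] <;> ring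
  · let X : ℕ → PZ := fun a => if a ≤ 1 then x3 else if a = 2 then x2 else if a ≤ 4 then x1 else 1
    have sq : ∀ a, X a * X a = 1 := fun a => by
      simp only [X]; split_ifs <;> exact mul_inv_cancel _
    have := val (θ := FreeGroup.lift fun a => X (a + 1) * X a) (by simpa [X] using mul_mem u1 u2)
      (fun k hk => by
        have : k % 2 = 1 := by simpa [Tp] using hk
        rw [FreeGroup.lift_apply_of]
        simp only [X]
        split_ifs <;> first | omega | exact Or.inr cm | exact Or.inl (mul_inv_cancel _)) w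
    rw [lk G s t Δ 2 p P rel PZ X sq _ h 2 i1 iN par tr] at this
    have e1 : dd X 1 = x3 := rfl
    have e2 : dd X 2 = x3 * x2 := rfl
    have e3 : dd X 3 = (x1 * x2 * x3) ^ (-1 : ℤ) := rfl
    have e4 : X 3 = x1 := rfl
    refine (congrArg (fun z : ℤ => z = 0 ∨ z = 4) ?_).mp this
    rcases tr with rfl | rfl | rfl <;>
      simp only [WW, DE, DD, d, d', Nat.reduceAdd, Nat.reduceSub, e1, e2, e3, e4, Int.reduceEq,
        Int.reduceNeg, if_true, if_false, mul_inv_rev, ← zpow_neg, ← zpow_mul, neg_neg, i3, i2,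
        Equiv.Perm.mul_apply, pD, a1, a2, a3] <;> ring

section Any

open Al C1

variable {G : Type} [Group G] {s t Δ : G} {N : ℕ} {p : ℤ} (P : Pu s t N p) {i : ℕ} {g : G}

/-- An arc that misses the curves of the other colour. -/
theorem ca (hN : 2 ≤ N) (rel : ∀ i, aa s t i (N + 1) = Δ) (i1 : 1 ≤ i) (iN : i ≤ N)
    (par : (i + p) % 2 = 1) (hg : g ∈ Subgroup.closure {s, t}) (w : P.W g i ∈ Fre (Tp i)) :
    ∃ a k b : ℤ, g = t ^ a * Δ ^ k * s ^ b ∧ (P.W (Δ ^ k) i ∈ Fre (Tp i) → k = 0) := by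
  rcases (show N = 2 ∨ (3 ≤ N ∧ N % 2 = 1) ∨ (4 ≤ N ∧ N % 2 = 0) by omega) with rfl | ⟨u, v⟩ | ⟨u, v⟩
  · have hy : ∀ g, P.W g i ∈ Fre (Tp i) → P.Hyp (3 - i) g := fun g w j j1 j2 j3 => by
      obtain rfl : j = i := by omega
      have : P.W g j ∈ Fre {3 - j}ᶜ := Fre.mono (S := Tp j) (S' := {3 - j}ᶜ) (fun k hk e => by
        have : k % 2 = j % 2 := hk
        have : k = 3 - j := e
        omega) w
      exact ⟨fun _ => this, _, this, Or.inl rfl⟩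
    have q : ((3 - i : ℕ) + p) % 2 = 0 := by omega
    obtain ⟨a, k, b, e⟩ := (LT.pc hk G s t Δ 2 p P (3 - i) g hN rel (by omega) (by omega) hg (hy g w)).1 q
    exact ⟨a, k, b, e, fun z =>
      (LT.pd we w1 w3 mi lk G s t Δ 2 p P (3 - i) k hN rel (by omega) (by omega)).1 q (hy _ z)⟩
  · obtain ⟨a, k, b, e⟩ := (c1 hf h3 G s t Δ N p P i g u v rel i1 iN par hg).1 w
    exact ⟨a, k, b, e, fun z =>
      (EV.pd EV.df z1 z2 z3 z4 mn (EV.cj mn) G s t Δ N p P i k u v rel i1 iN par).1 (Or.inl z)⟩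
  · obtain ⟨a, k, b, f, e⟩ := (MX.c3 MX.h4 G s t Δ N p P i g u v rel i1 iN par hg).1 w
    exact ⟨a, k, b, e, fun z => by_contra fun k0 => ((MX.p1 MX.df MX.tl MX.ld (MX.pl MX.po MX.pq) MX.en
      MX.t1 MX.t7 G s t Δ N p P i k u v rel i1 iN par k0).1 f).1 z⟩

/-- An arc that meets the curves of its colour only at its ends. -/
theorem cb (hN : 2 ≤ N) (rel : ∀ i, aa s t i (N + 1) = Δ) (i1 : 1 ≤ i) (iN : i ≤ N)
    (par : (i + p) % 2 = 1) (hg : g ∈ Subgroup.closure {s, t})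
    (w : Bd (of i) (Fre (Tp i)ᶜ) (P.W g i)) : ∃ a k h b : ℤ, g = s ^ a * (Δ ^ k * t ^ h) * s ^ b ∧
      (Bd (of i) (Fre (Tp i)ᶜ) (P.W (Δ ^ k * t ^ h) i) →
        ∃ a b c : ℤ, Δ ^ k * t ^ h = s ^ a * t ^ b * s ^ c) := by
  rcases (show N = 2 ∨ (3 ≤ N ∧ N % 2 = 1) ∨ (4 ≤ N ∧ N % 2 = 0) by omega) with rfl | ⟨u, v⟩ | ⟨u, v⟩
  · obtain ⟨U, hU⟩ := exists_cheb hN
    obtain ⟨ω, τ, f0, f1, f0', f1', -, k2, -, z2, nz, -, -, -, -, key⟩ := hf G s t 2 p P U i hU hN i1 iN par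
    obtain ⟨-, -, -, e4⟩ := key g hg
    obtain ⟨a, k, h, b, c, tr, e⟩ := LT.hk G t s Δ 2 U hU hN (rel_sw rel) f0' f1' _
      (Subgroup.subset_closure (Or.inl rfl)) (Subgroup.subset_closure (Or.inr rfl))
      k2.1 k2.2.1 k2.2.2.1 k2.2.2.2 g (pair_comm s t ▸ hg) (by
        rcases ws_bd z2 w with h | h | h <;> rw [h] at e4
        · exact Or.inl (mul_left_cancel₀ nz (by linarith))
        · exact Or.inr (Or.inl (mul_left_cancel₀ nz (by linarith)))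
        · exact Or.inr (Or.inr (mul_left_cancel₀ nz (by linarith))))
    refine ⟨a, k, h, b, by rw [e, mul_assoc _ (Δ ^ k)], fun z => ?_⟩
    obtain ⟨n, rfl⟩ : ∃ n, k = 2 * n := ⟨k / 2, by push_cast at c; omega⟩
    have r0 := rel 0
    have r1 := rel 1
    simp only [aa, alG, yy, mul_one] at r0 r1
    norm_num at r0 r1
    have x : t⁻¹ * Δ ^ (2 : ℤ) = s ^ (2 : ℤ) * t * s ^ (2 : ℤ) ∧
        Δ ^ (2 : ℤ) * t⁻¹ = s ^ (2 : ℤ) * t * s ^ (2 : ℤ) := by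
      rw [show s ^ (2 : ℤ) * t * s ^ (2 : ℤ) = s * Δ * s by rw [← r0]; simp only [zpow_two, mul_assoc],
        zpow_two]
      constructor
      · calc t⁻¹ * (Δ * Δ) = t⁻¹ * ((t * (s * t)) * (s * (t * s))) := by rw [r0, r1]
          _ = s * (t * (s * t)) * s := by group
          _ = _ := by rw [r1]
      · calc Δ * Δ * t⁻¹ = (s * (t * s)) * (t * (s * t)) * t⁻¹ := by rw [r0, r1]
          _ = s * (t * (s * t)) * s := by group
          _ = _ := by rw [r1]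
    rcases p2 P rel i1 iN par tr z with rfl | ⟨rfl, rfl⟩ | ⟨rfl, rfl⟩
    · exact ⟨0, h, 0, by simp⟩
    · exact ⟨2, 1, 2, by simpa using x.2⟩
    · refine ⟨-2, -1, -2, ?_⟩
      rw [← inv_inj, mul_inv_rev, ← zpow_neg Δ, zpow_one, show -(2 * -1 : ℤ) = 2 from rfl, x.1]; group
  · obtain ⟨a, k, h, b, tr, e⟩ := (c1 hf h3 G s t Δ N p P i g u v rel i1 iN par hg).2.1 w
    exact ⟨a, k, h, b, by rw [e, mul_assoc _ (Δ ^ k)],
      (EV.pd EV.df z1 z2 z3 z4 mn (EV.cj mn) G s t Δ N p P i k u v rel i1 iN par).2.1 h tr⟩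
  · obtain ⟨a, k, h, b, f, -, e⟩ := (MX.c3 MX.h4 G s t Δ N p P i g u v rel i1 iN par hg).2.1 w
    refine ⟨a, k, h, b, by rw [e, mul_assoc _ (Δ ^ k)], fun z => ?_⟩
    obtain rfl : k = 0 := by_contra fun k0 => ((MX.p1 MX.df MX.tl MX.ld (MX.pl MX.po MX.pq) MX.en
      MX.t1 MX.t7 G s t Δ N p P i k u v rel i1 iN par k0).1 f).2.1 h z
    exact ⟨0, h, 0, by simp⟩

end Any

open Al in
theorem ac : S_AC := by
  intro G _ s t Δ N p P i Q g o rel i1 iN par hg q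
  have hΔ : ∀ j : ℤ, Δ ^ j ∈ Subgroup.closure {s, t} :=
    fun j => zpow_mem (rel 0 ▸ alG_mem _ (yy_mem ms mt _) (yy_mem ms mt _)) j
  refine ⟨fun ps H => ?_, fun ps H => ?_⟩
  · obtain ⟨a, j, b, w, z⟩ := ca P o rel i1 iN par hg (H g hg q)
    have u := H _ (mul_mem (zpow_mem mt (-a)) hg) (ps g _ q)
    rw [show t ^ (-a) * g = Δ ^ j * s ^ b by rw [w]; group, W_s P i1 iN par (hΔ j)] at u
    exact ⟨a, b, by rw [w, z u, zpow_zero, mul_one]⟩
  · obtain ⟨a, j, h, b, w, z⟩ := cb P o rel i1 iN par hg (H g hg q)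
    have u := H _ (mul_mem (zpow_mem ms (-a)) hg) (ps g _ q)
    rw [show s ^ (-a) * g = Δ ^ j * t ^ h * s ^ b by rw [w]; group,
      W_s P i1 iN par (mul_mem (hΔ j) (zpow_mem mt h))] at u
    obtain ⟨a', b', c', e⟩ := z u
    exact ⟨a + a', b', c' + b, by rw [w, e]; group⟩

end PartAc

section PartLc

open FreeGroup (of mk invRev IsReduced)
open Set Pool.Agent.MP_6eaae3_al.LT Pool.Agent.MP_6eaae3_al.LT.Path Pool.Agent.MP_6eaae3_al.EV

open Al in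
theorem lc (h : S_AC) : S_LC := by
  intro V M m n Y S s t x g ne' h3 cs xs xt sd hg r rs rt
  have lr := lr (li (f2 f3) ptt) (wp ptt) ta ch
  have m1 := m1 (f2 f3) V M m n Y 0
  have ne := ne'.symm
  obtain ⟨Δ, rel⟩ : ∃ Δ, ∀ i, aa (PresentedGroup.of s : Art m) (PresentedGroup.of t) i (m s t - 1 + 1) = Δ :=
    ⟨_, fun i => by
      rw [Nat.sub_add_cancel (by omega)]
      have := artin_rel m ne'
      rw [lift_alG, lift_alG] at this
      exact aa_eq this i⟩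
  obtain ⟨⟨_, i₀⟩, B, y, y', rfl, b0, b1, b2, b3, b4⟩ := sd
  obtain ⟨c, p, i, cn, col, i1, iN, ci⟩ := cs i₀ b0
  have par : (i + p) % 2 = 1 := by
    have := col i
    rw [ci, yy] at this
    split_ifs at this
    exacts [(ne' this.symm).elim, by omega]
  have D : Sdd Y S s _ _ p c i x B y y' false true 0 :=
    ⟨ne', cn, col, i1, iN, par, xs, xt, ci ▸ b1, b2, b3, ci ▸ b4⟩
  have back : ∀ (a : Art m) (j : ℤ) (g : Art m), Y.im (a ^ (-j)) (Y.im (a ^ j * g) S) = Y.im g S :=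
    fun a j g => by rw [← Y.im_mul, zpow_neg, inv_mul_cancel_left]
  rw [par_pair] at hg
  refine ⟨fun b => or_iff_not_imp_left.2 fun u => ?_, fun b => or_iff_not_imp_left.2 fun u => ?_⟩
  · obtain ⟨P, H⟩ := lr V M m n Y S s _ _ p c i x B y y' false true 0 s r D rs rt b
    refine (h _ _ _ Δ _ p P i (fun g => ¬ Y.Ps (Y.im g S) s r) g (by omega) rel i1 iN par hg u).1
      (fun g j v w => v (back _ j g ▸ (m1 _ s _ r _ ne).1 rt w)) fun g v w => ?_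
    simpa [Cw] using (H g (par_pair s _ ▸ v) w).1 rfl
  · obtain ⟨P, H⟩ := lr V M m n Y S s _ _ p c i x B y y' false true 0 _ r D rs rt b
    refine (h _ _ _ Δ _ p P i (fun g => ¬ Y.Ps (Y.im g S) _ r) g (by omega) rel i1 iN par hg u).2
      (fun g j v w => v (back _ j g ▸ (m1 _ _ s r _ ne').1 rs w)) fun g v w => ?_
    simpa [Cw] using (H g (par_pair s _ ▸ v) w).2 rfl

open MX MX.Ll Al in
theorem l2 : S_L2 := by
  intro V M m n Y a S s t x g ne' h4 cs xs xt sd hg r rs rt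
  have c3 := MX.c3 MX.h4
  have p1 := MX.p1 MX.df MX.tl MX.ld (MX.pl MX.po MX.pq) MX.en MX.t1 MX.t7
  have lr := lr (li (f2 f3) ptt) (wp ptt) ta ch
  have al := al (c1 hf h3) (c2 hf h3) (pd df z1 z2 z3 z4 mn (EV.cj mn))
  have m1 := m1 (f2 f3) V M m n Y 0
  have hs : s ∈ ({s, t} : Set V) := Or.inl rfl
  have ht : t ∈ ({s, t} : Set V) := Or.inr rfl
  have ne := ne'.symm
  have m2' : m s t ≠ 2 := by omega
  have o : 3 ≤ m s t - 1 := by omega
  obtain ⟨Δ, rel⟩ : ∃ Δ, ∀ i, aa (PresentedGroup.of s : Art m) (PresentedGroup.of t) i (m s t - 1 + 1) = Δ :=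
    ⟨_, fun i => by
      rw [Nat.sub_add_cancel (by omega)]
      have := artin_rel m ne'
      rw [lift_alG, lift_alG] at this
      exact aa_eq this i⟩
  have CH := fun i₀ => chain (S := S) (i₀ := i₀) cs hs ht ne' m2' xs xt
  have PK := pick (S := S) cs hs ht ne' m2' xs xt o
  generalize m s t - 1 = N at o rel CH PK
  rw [par_pair] at hg
  have hΔ : ∀ j : ℤ, Δ ^ j ∈ Subgroup.closure {PresentedGroup.of s, PresentedGroup.of t} :=
    fun j => zpow_mem (rel 0 ▸ alG_mem _ (yy_mem ms mt _) (yy_mem ms mt _)) j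
  have back : ∀ (a : Art m) (j : ℤ) (g : Art m), Y.im (a ^ (-j)) (Y.im (a ^ j * g) S) = Y.im g S :=
    fun a j g => by rw [← Y.im_mul, zpow_neg, inv_mul_cancel_left]
  obtain ⟨c, p, i, B, y, y', e, e', k, par, pt, ct, cs', D, ty⟩ : ∃ (c : ℕ → V × ℕ) (p : ℤ) (i : ℕ) (B : _)
      (y y' : _) (e e' : Bool) (k : ℤ), (i + p) % 2 = 1 ∧ (Pat a N fun k => (c k).2) ∧ (∀ k, k % 2 = i % 2 → (c k).1 = t) ∧
      (∀ k, k % 2 = (i + 1) % 2 → (c k).1 = s) ∧ Sdd Y S s t N p c i x B y y' e e' k ∧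
      ((e = false ∧ e' = true) ∨ (e = e' ∧ k ≠ 0 ∧ (e = true ∨ Kk a (c i).2) ∧ Hh Y a S t x)) := by
    rcases sd with ⟨k, ⟨_, i₀⟩, B, y, y', rfl, b, c, d, e, f⟩ | w
    · obtain ⟨c', p, i, -, -, -, u1, u2, u3, u4, D⟩ := CH i₀ b
      exact ⟨c', p, i, B, y, y', _, _, k, u1, u2, u3, u4, D _ _ _ _ _ _ c d e f, Or.inl ⟨rfl, rfl⟩⟩
    · obtain ⟨i₀, e, v, b, B, y, y', k, c, d, d', k0, f⟩ := w.base
      obtain ⟨c', p, i, rfl, -, -, u1, u2, u3, u4, D⟩ := CH i₀ b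
      exact ⟨c', p, i, B, y, y', _, _, k, u1, u2, u3, u4, D _ _ _ _ _ _ c d d' f, Or.inr ⟨rfl, k0, v, w⟩⟩
  have i1 := D.i1
  have iN := D.iN
  have hk := mul_mem hg (zpow_mem mt k)
  have cr : ∀ (P : Pu _ _ N p) (z w : Art m) (b : ℤ), z ∈ Subgroup.closure {_, _} →
      g * PresentedGroup.of t ^ k = z ^ b * w → Cw P (z ^ (-b) * g) i false k true = P.W w i :=
    fun P z w b hz u => by
      rw [cw_cross P i1 iN par (mul_mem (zpow_mem hz _) hg), mul_assoc, u]; congr 1; group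
  have AL := fun od P Q => al _ _ _ _ _ p P i e e' k Q g o od rel i1 iN par
    (ty.imp_right fun u => ⟨u.1, u.2.1, u.2.2.1.imp_right ((pt.2 od).2 i i1 iN).1⟩) hg
  refine ⟨fun b => or_iff_not_imp_left.2 fun u => ?_, fun b => or_iff_not_imp_left.2 fun u => ?_⟩
  · obtain ⟨P, H⟩ := lr V M m n Y S s t _ p c i x B y y' e e' k s r D rs rt b
    have ps : ∀ g (j : ℤ), ¬ Y.Ps (Y.im g S) s r → ¬ Y.Ps (Y.im (PresentedGroup.of t ^ j * g) S) s r :=
      fun g j v w => v (back _ j g ▸ (m1 _ s t r _ ne).1 rt w)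
    have H' := fun g v w => (H g (par_pair s t ▸ v) w).1 rfl
    rcases Nat.mod_two_eq_zero_or_one N with od | od
    swap
    · exact (AL od P _ u).1 ps (Or.inl H')
    have P1 := fun j => p1 _ _ _ Δ N p P i j (by omega) od rel i1 iN par
    rcases ty with ⟨rfl, rfl⟩ | ⟨rfl, k0, -⟩
    · obtain ⟨b1, j, b2, v, w⟩ := (c3 _ _ _ Δ N p P i _ (by omega) od rel i1 iN par hk).1
        (cw_cross P i1 iN par hg k ▸ H' g hg u)
      have z := cr P _ _ b1 mt (w.trans (mul_assoc _ _ _))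
      rw [W_s P i1 iN par (hΔ j)] at z
      obtain rfl : j = 0 := by_contra fun j0 =>
        ((P1 j j0).1 v).1 (z ▸ H' _ (mul_mem (zpow_mem mt _) hg) (ps g _ u))
      exact ⟨b1, b2, -k, by rw [eq_mul_inv_of_mul_eq w]; group⟩
    · obtain ⟨b1, j, v, w⟩ := ((c3 _ _ _ Δ N p P i _ (by omega) od rel i1 iN par hg).2.2 e k k0).1
        (H' g hg u)
      obtain rfl : j = 0 := by_contra fun j0 => ((P1 j j0).1 v).2.2 e k k0
        (H' _ (hΔ j) (by simpa [w] using ps g (-b1) u))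
      exact ⟨b1, 0, 0, by simpa using w⟩
  · have LR := fun p c i B y y' e e' k D => lr V M m n Y S s t N p c i x B y y' e e' k t r D rs rt b
    obtain ⟨P, H⟩ := LR p c i B y y' e e' k D
    have ps : ∀ g (j : ℤ), ¬ Y.Ps (Y.im g S) t r → ¬ Y.Ps (Y.im (PresentedGroup.of s ^ j * g) S) t r :=
      fun g j v w => v (back _ j g ▸ (m1 _ t s r _ ne').1 rs w)
    have H' := fun g v w => (H g (par_pair s t ▸ v) w).2 rfl
    rcases Nat.mod_two_eq_zero_or_one N with od | od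
    swap
    · exact ((AL od P _ u).2 ps).1 H'
    rcases ty with ⟨rfl, rfl⟩ | ⟨rfl, k0, -, hh⟩
    · obtain ⟨b1, j, h, b2, v, -, w⟩ := (c3 _ _ _ Δ N p P i _ (by omega) od rel i1 iN par hk).2.1
        (cw_cross P i1 iN par hg k ▸ H' g hg u)
      have z := cr P _ (Δ ^ j * PresentedGroup.of t ^ h * PresentedGroup.of s ^ b2) b1 ms (by rw [w]; group)
      rw [W_s P i1 iN par (mul_mem (hΔ j) (zpow_mem mt h))] at z
      obtain rfl : j = 0 := by_contra fun j0 =>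
        ((p1 _ _ _ Δ N p P i j (by omega) od rel i1 iN par j0).1 v).2.1 h
          (z ▸ H' _ (mul_mem (zpow_mem ms _) hg) (ps g _ u))
      exact ⟨b1, h, b2, -k, by rw [eq_mul_inv_of_mul_eq w]; group⟩
    · obtain ⟨b1, j, b2, w⟩ := ((c3 _ _ _ Δ N p P i _ (by omega) od rel i1 iN par hg).2.2 e k k0).2
        (H' g hg u)
      obtain rfl : j = 0 := by_contra fun j0 => by
        obtain ⟨c, p, i, e, k, -, -, k0, ⟨B, y, y', D⟩, nb, -⟩ := PK od hh j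
        obtain ⟨P, H⟩ := LR p c i B y y' e e k D
        exact nb ((p1 _ _ _ Δ N p P i j (by omega) od rel D.i1 D.iN D.par j0).2 e k k0
          (cw_t P D.i1 D.iN D.par (hΔ j) b2 k e ▸ (H _ (par_pair s t ▸ mul_mem (hΔ j) (zpow_mem mt b2))
            (by simpa [w, mul_assoc] using ps g (-b1) u)).2 rfl))
      exact ⟨b1, b2, 0, 0, by simpa using w⟩

end PartLc

section PartTt

open FreeGroup (of mk invRev IsReduced)
open Set Pool.Agent.MP_6eaae3_al.LT Pool.Agent.MP_6eaae3_al.LT.Path Pool.Agent.MP_6eaae3_al.EV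

theorem tt : S_TT := by
  intro V G _ r Λ t₀ A d hd h hh v hv E h' x cr nf hE col add nds hh' xd xh ss
  have cr' := A.sy _ _ cr
  have nf' : ¬ (A.fr d ∧ A.fr h) := fun u => nf u.symm
  have ne := A.ne _ _ cr
  have okd : ∀ a, (Sum.inl d : V ⊕ Bool) = Sum.inl a → a ∈ Λ ∧ A.cr h a := fun a e => by
    cases e; exact ⟨hd, cr⟩
  have okh : ∀ a, (Sum.inl h : V ⊕ Bool) = Sum.inl a → a ∈ Λ ∧ A.cr d a := fun a e => by
    cases e; exact ⟨hh, cr'⟩
  have uc : ev r E ∈ Subgroup.closure {r d, r h} := Tt.ev_two r col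
  have uc' : ev r E ∈ Subgroup.closure {r h, r d} := by rwa [pair_comm]
  have hc : ∀ p : ℤ, r h ^ p * ev r E ∈ Subgroup.closure {r d, r h} := fun p =>
    mul_mem (zpow_mem (Subgroup.subset_closure (by simp)) p) uc
  have hc' : ∀ p : ℤ, r h ^ p * ev r E ∈ Subgroup.closure {r h, r d} := fun p => by
    rw [pair_comm]; exact hc p
  have nd : ∀ (a : ℤ) (w : G), ev r E = r h ^ a * w →
      E.length + ln r Λ t₀ v ≤ ln r Λ t₀ (w * v) := fun a w e => by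
    by_contra lt
    refine nds ⟨-a, ?_⟩
    rw [add]
    rw [e, ← mul_assoc, ← mul_assoc, ← zpow_add, neg_add_cancel, zpow_zero, one_mul]
    omega
  obtain ⟨⟨c, j⟩, E', rfl⟩ := List.exists_cons_of_ne_nil hE
  have colΛ : ∀ y ∈ E', y.1 ∈ Λ := fun y hy => by
    rcases col y (by simp [hy]) with e | e <;> rw [e] <;> assumption
  obtain rfl : d = c := by
    rcases col (c, j) (by simp) with e | e
    · exact e.symm
    · cases e
      have a := nd j _ (In.ev_cons _ _)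
      have b := (lnn V G r Λ t₀ v hv).1 E' colΛ
      rw [List.length_cons] at a
      omega
  rcases E' with _ | ⟨y, E'⟩
  · have e0 : ev r [(d, j)] = r d ^ j := by simp [ev]
    rw [e0] at add ⊢
    have j0 : j ≠ 0 := fun z => by
      rw [z, zpow_zero, one_mul] at add
      simp at add
    rcases hh' with e | e <;> subst h'
    · exact Or.inl (Ax3.g2 hh (A.pi _ h hh d hd cr
        (ss.2 j (by simpa [add_comm] using add) _ okh xh.symm)))
    · by_cases c0 : A.Cx v h x 0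
      · exact Or.inr ⟨rfl, rfl, Ax3.g2 hh (A.cx1 _ _ _ d j ne.symm xd c0)⟩
      · refine Or.inl (Ax3.g2 hh (A.sh _ h hh d hd j cr nf j0 (A.hp _ h hh x _ okd xd.symm ?_)))
        exact ss.1.imp_left fun ⟨k, ck⟩ => ⟨k, fun z => c0 (z ▸ ck), ck⟩
  left
  have y1 := col y (by simp)
  rcases hh' with e | e <;> subst h'
  · refine ⟨?_, fun p hp ρ ok nρ => ?_⟩
    · refine (A.loc v h hh d hd x _ uc' cr nf xh xd ss.1).2.2.2.resolve_right fun ⟨a, c, e⟩ => ?_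
      have a1 := nd a _ e
      have a2 := Tt.l1 lnn t₀ hd c hv
      simp only [List.length_cons] at a1
      omega
    · rw [← mul_assoc]
      refine ((A.loc v h hh d hd x _ (hc' p) cr nf xh xd ss.1).1 ρ ok nρ).resolve_right
        fun ⟨a, b, c, e⟩ => ?_
      have p0 : p ≠ 0 := fun z => by
        rw [z, zpow_zero, one_mul] at hp
        omega
      rw [add, ← mul_assoc, e] at hp
      have a1 := Tt.l1 lnn t₀ hd c hv
      have a2 := Tt.l1 lnn t₀ hh b (mm hd c hv)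
      have a3 := Tt.l1 lnn t₀ hd a (mm hh b (mm hd c hv))
      simp only [List.length_cons, mul_assoc] at hp
      obtain rfl : E' = [] := List.eq_nil_of_length_eq_zero (by omega)
      obtain ⟨j0, e1, -⟩ := Tt.two lnn hd hh hv y1 add
      refine A.df6 h hh d hd cr nf p j y.2 a b c p0 j0 (fun z => ?_) (fun z => ?_)
        (by rw [← e, e1, mul_assoc])
      · rw [z, zpow_zero, one_mul] at hp
        simp only [List.length_nil] at hp
        omega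
      · have := Tt.l1 lnn t₀ hd (a + c) hv
        rw [z, zpow_zero, one_mul] at hp
        rw [zpow_add, mul_assoc] at this
        simp only [List.length_nil] at hp
        omega
  rcases E' with _ | ⟨y', E'⟩
  · obtain ⟨j0, e1, e2⟩ := Tt.two lnn hd hh hv y1 add
    rw [e1, mul_assoc]
    exact Ax3.g2 hh (A.sh _ h hh d hd j cr nf j0 (ss.2 _ e2 _ okd xd.symm))
  refine ⟨?_, fun p hp ρ ok nρ => ?_⟩
  · refine (A.loc v d hd h hh x _ uc cr' nf' xd xh ss.1).2.2.1.resolve_right fun ⟨a, b, c, e⟩ => ?_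
    have a1 := nd a _ (e.trans (mul_assoc _ _ _))
    have a2 := Tt.l1 lnn t₀ hh c hv
    have a3 := Tt.l1 lnn t₀ hd b (mm hh c hv)
    simp only [List.length_cons, mul_assoc] at a1
    omega
  · rw [← mul_assoc]
    refine ((A.loc v d hd h hh x _ (hc p) cr' nf' xd xh ss.1).2.1 ρ ok nρ).elim id
      fun ⟨a, b, c, f, e⟩ => ?_
    rw [add, ← mul_assoc, e] at hp
    have a1 := Tt.l1 lnn t₀ hh f hv
    have a2 := Tt.l1 lnn t₀ hd c (mm hh f hv)
    have a3 := Tt.l1 lnn t₀ hh b (mm hd c (mm hh f hv))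
    have a4 := Tt.l1 lnn t₀ hd a (mm hh b (mm hd c (mm hh f hv)))
    simp only [List.length_cons, mul_assoc] at hp
    have c0 : c ≠ 0 := fun z => by
      rw [z, zpow_zero, one_mul] at a2 a3 a4 hp
      have := Tt.l1 lnn t₀ hh b (mm hh f hv)
      have := Tt.l1 lnn t₀ hd a (mm hh b (mm hh f hv))
      omega
    have b0 : b ≠ 0 := fun z => by
      rw [z, zpow_zero, one_mul] at a3 a4 hp
      omega
    rw [e]
    simp only [mul_assoc]
    exact A.ps1 _ _ _ d a ne.symm nρ (A.hp _ h hh (Sum.inl d) ρ ok nρ (Or.inl ⟨0 + b, by simpa using b0,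
      A.cx0 _ _ _ b 0 (A.sh _ h hh d hd c cr nf c0 (ss.2 f (by omega) _ okd xd.symm))⟩))

end PartTt

section PartT3

open Set Pool.Agent.MP_6eaae3_al.LT Pool.Agent.MP_6eaae3_al.EV Pool.Agent.MP_6eaae3_al.EV.Uu

namespace T3

variable {V G : Type} [Group G] {r : V → G} {Λ : Set V} {t₀ : V}

/-- A crossing without winding followed by a nontrivial power. -/
theorem pw (A : Ax3 r Λ t₀) {g : G} {h d : V} (hh : h ∈ Λ) (hd : d ∈ Λ) (cr : A.cr h d) {b : ℤ}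
    (b0 : b ≠ 0) (s : A.Ps g d (Sum.inl h)) (ρ : V ⊕ Bool)
    (ok : ∀ a, ρ = Sum.inl a → a ∈ Λ ∧ A.cr h a) (n : ρ ≠ Sum.inl d) : A.Ps (r h ^ b * g) h ρ :=
  A.hp _ h hh (Sum.inl d) ρ ok n
    (Or.inl ⟨0 + b, by rwa [zero_add], A.cx0 _ _ _ b 0 (A.pi _ h hh d hd cr s)⟩)

/-- An element of the pair that adds at least three syllables. -/
theorem long (A : Ax3 r Λ t₀) {d h c : V} (hd : d ∈ Λ) (hh : h ∈ Λ) {v e : G}
    (hv : v ∈ Subgroup.closure (r '' Λ)) {x : V ⊕ Bool} (cr : A.cr h d)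
    (he : e ∈ Subgroup.closure {r d, r h}) (l : 3 + ln r Λ t₀ v ≤ ln r Λ t₀ (e * v))
    (hc : c = d ∨ c = h) (xd : x ≠ Sum.inl d) (xh : x ≠ Sum.inl h) (s : A.Cx v c x 0)
    (Hd : ∀ p : ℤ, ln r Λ t₀ (r d ^ p * v) = ln r Λ t₀ v + 1 → A.Ps (r d ^ p * v) d (Sum.inl h))
    (ρ : V ⊕ Bool) (ok : ∀ a, ρ = Sum.inl a → a ∈ Λ ∧ A.cr h a) (n : ρ ≠ Sum.inl d) :
    A.Ps (e * v) h ρ := by
  rcases hc with rfl | rfl
  · refine ((A.lc v h hh c hd x e (by rwa [pair_comm]) cr xh xd s).1 ρ ok n).resolve_right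
      fun ⟨a, b, u⟩ => ?_
    have a1 := lpow (t₀ := t₀) hv hh b
    have a2 := lpow (t₀ := t₀) (mm hh b hv) hd a
    rw [u, mul_assoc] at l
    omega
  · refine ((A.lc v d hd c hh x e he (A.sy _ _ cr) xd xh s).2 ρ ok n).elim id
      fun ⟨a, b, f, u⟩ => ?_
    have a1 := lpow (t₀ := t₀) hv hd f
    have a2 := lpow (t₀ := t₀) (mm hd f hv) hh b
    have a3 := lpow (t₀ := t₀) (mm hh b (mm hd f hv)) hd a
    rw [u, mul_assoc, mul_assoc] at l ⊢
    have b0 : b ≠ 0 := fun z => by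
      rw [z, zpow_zero, one_mul] at a3 l
      omega
    exact A.ps1 _ _ _ d a (A.ne _ _ cr).symm n (pw A hh hd cr b0 (Hd f (by omega)) ρ ok n)

end T3

open T3 in
theorem t3 : S_T3 := by
  intro V G _ r Λ t₀ A d hd h hh v hv E c x cr fh fd hE col add nds hc xd xh s Hd Hh
  have cr' := A.sy _ _ cr
  have uc : ev r E ∈ Subgroup.closure {r d, r h} := Tt.ev_two r col
  obtain ⟨⟨c0, j⟩, E', rfl⟩ := List.exists_cons_of_ne_nil hE
  have colΛ : ∀ y ∈ E', y.1 ∈ Λ := fun y hy => by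
    rcases col y (by simp [hy]) with e | e <;> rw [e] <;> assumption
  have l1 := ln_le (t₀ := t₀) lnn hv colΛ
  have ds : Ds r Λ t₀ (ev r ((c0, j) :: E') * v) c0 := by
    rw [List.length_cons] at add
    rw [ev_cons, mul_assoc] at add ⊢
    exact ds_of (by omega)
  obtain rfl : d = c0 := by
    rcases col (c0, j) (by simp) with e | e
    · exact e.symm
    · cases e
      exact (nds ds).elim
  rcases E' with _ | ⟨y, E'⟩
  · rw [ev_one] at add ⊢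
    rw [List.length_singleton] at add
    exact Or.inl (Ax3.g2 hh (A.pi _ h hh d hd cr (Hd j (by omega))))
  refine Or.inr ⟨⟨d, hd, rfl, fh, fd, ds, fun ρ ok n => ?_⟩, fun p hp ρ ok n => ?_⟩
  · rcases E' with _ | ⟨y', E'⟩
    · obtain ⟨j0, e1, e2⟩ := Tt.two lnn hd hh hv (col y (by simp)) add
      rw [e1, mul_assoc]
      exact pw A hd hh cr' j0 (Hh _ e2) ρ ok n
    · refine long A hh hd hv cr' (by rwa [pair_comm]) ?_ hc.symm xh xd s Hh ρ ok n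
      rw [add]
      simp only [List.length_cons]
      omega
  · rw [← mul_assoc] at hp ⊢
    refine long A hd hh hv cr (mul_mem (zpow_mem (Subgroup.subset_closure (by simp)) p) uc) ?_
      hc xd xh s Hd ρ ok n
    rw [hp, add]
    simp only [List.length_cons]
    omega

end PartT3

section PartRn

open Set Pool.Agent.MP_6eaae3_al.LT Pool.Agent.MP_6eaae3_al.EV Pool.Agent.MP_6eaae3_al.EV.Uu

namespace Rn

variable {V G : Type} [Group G] {r : V → G} {Λ : Set V} {t₀ : V} {A : Ax3 r Λ t₀}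

theorem conv {v c o x} (hv : v ∈ Subgroup.closure (r '' Λ)) (ho : o ∈ Λ) (n : c ≠ o)
    (s : A.SW v c x) (p : A.Prov v c x) (e : x ≠ Sum.inl o) :
    ∃ h', (h' = c ∨ h' = o) ∧ A.SS v h' x ∧ A.Prov v h' x := by
  rcases s with s | ⟨s, -⟩
  · exact ⟨c, Or.inl rfl, s, p⟩
  · refine ⟨o, Or.inr rfl, s.ss ho n.symm e, ?_⟩
    obtain ⟨a, ha, rfl, -, f, D, -⟩ := s
    exact Ax3.Prov.ofDs hv ha (A.sy _ _ (A.fc a f o ho fun u => e (by rw [u]))) D

theorem key {v c o} (hv : v ∈ Subgroup.closure (r '' Λ)) (hc : c ∈ Λ) (ho : o ∈ Λ) (u : A.PU v)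
    (f : A.PF v) (n : c ≠ o) (n1 : ¬ Ds r Λ t₀ v c) (n2 : ¬ Ds r Λ t₀ v o) (a : Ad r Λ t₀ v c) :
    ∃ h' x, (h' = c ∨ h' = o) ∧ x ≠ Sum.inl c ∧ x ≠ Sum.inl o ∧ A.SS v h' x ∧ A.Prov v h' x := by
  obtain ⟨x, s, p⟩ := u c hc n1 a
  by_cases e : x = Sum.inl o
  · subst e
    obtain ⟨-, U, hU, D⟩ := p.inl
    obtain ⟨b, hb, s', p'⟩ := f o ho U o D (fun y hy => (hU y hy).2) (Or.inl rfl) n2
    have k : (Sum.inl b : V ⊕ Bool) ≠ Sum.inl c := by
      rcases hb with rfl | ⟨y, hy, rfl⟩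
      · exact (p'.ne rfl).elim
      · exact fun z => (hU y hy).1 (Sum.inl.inj z)
    obtain ⟨h', k1, k2⟩ := conv hv hc n.symm s' p' k
    exact ⟨h', _, k1.symm, k, p'.ne, k2⟩
  · obtain ⟨h', k1, k2⟩ := conv hv ho n s p e
    exact ⟨h', x, k1, p.ne, e, k2⟩

/-- After an additive power of a free letter the block of a second letter is passed. -/
theorem pas {v c o} (i : A.PI v) (hc : c ∈ Λ) (ho : o ∈ Λ) (f : A.fr c) (k : A.cr c o)
    (n1 : ¬ Ds r Λ t₀ v c) (n2 : ¬ Ds r Λ t₀ v o) (p : ℤ)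
    (e : ln r Λ t₀ (r c ^ p * v) = ln r Λ t₀ v + 1) : A.Ps (r c ^ p * v) c (Sum.inl o) := by
  obtain ⟨x, s, hx⟩ := i c hc f n1 ⟨p, e⟩
  refine s.pp p e _ (Ax3.ok ho k) ?_
  rcases hx with rfl | ⟨a, -, rfl, D⟩
  · exact Sum.inl_ne_inr
  · exact fun z => n2 (Sum.inl.inj z ▸ D)

/-- A crossing without winding for one of two free letters that are not descents. -/
theorem seed {v d h c} (hv : v ∈ Subgroup.closure (r '' Λ)) (hd : d ∈ Λ) (hh : h ∈ Λ) (n : d ≠ h)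
    (fd : A.fr d) (fh : A.fr h) (n1 : ¬ Ds r Λ t₀ v d) (n2 : ¬ Ds r Λ t₀ v h) (hc : c = d ∨ c = h)
    (a : Ad r Λ t₀ v c)
    (u : ∀ w ∈ Subgroup.closure (r '' Λ), ln r Λ t₀ w < ln r Λ t₀ v → A.PU w) :
    ∃ c' x, (c' = d ∨ c' = h) ∧ x ≠ Sum.inl d ∧ x ≠ Sum.inl h ∧ A.Cx v c' x 0 := by
  by_cases z : ln r Λ t₀ v = 0
  · refine ⟨c, _, hc, Sum.inr_ne_inl, Sum.inr_ne_inl, A.zero hv z ?_ a⟩
    rcases hc with rfl | rfl <;> assumption
  obtain ⟨b, hb, j, w, hw, rfl, e⟩ := split hv z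
  have D : Ds r Λ t₀ (r b ^ j * w) b := ds_of (by omega)
  have b1 : b ≠ d := fun y => n1 (y ▸ D)
  have b2 : b ≠ h := fun y => n2 (y ▸ D)
  obtain ⟨x, s, -⟩ := u w hw (by omega) b hb (not_ds lnn hw hb e) ⟨j, e⟩
  have k : ∀ c' ∈ Λ, A.fr c' → b ≠ c' → Sum.inl c' ≠ x →
      A.Cx (r b ^ j * w) c' (Sum.inl b) 0 := fun c' h1 h2 h3 h4 =>
    A.pi _ c' h1 b hb (A.fc c' h2 b hb h3)
      (s.pp j e _ (Ax3.ok h1 (A.sy _ _ (A.fc c' h2 b hb h3))) h4)
  have m1 : (Sum.inl b : V ⊕ Bool) ≠ Sum.inl d := fun y => b1 (Sum.inl.inj y)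
  have m2 : (Sum.inl b : V ⊕ Bool) ≠ Sum.inl h := fun y => b2 (Sum.inl.inj y)
  by_cases y : Sum.inl d = x
  · exact ⟨h, _, Or.inr rfl, m1, m2, k h hh fh b2 fun y' => n (Sum.inl.inj (y.trans y'.symm))⟩
  · exact ⟨d, _, Or.inl rfl, m1, m2, k d hd fd b1 y⟩

end Rn

theorem qq : S_QQ := by
  intro V G _ r Λ t₀ A v hv d hd h hh u f n n1 n2 a
  rcases a with a | a
  · exact Rn.key hv hd hh u f n n1 n2 a
  · obtain ⟨h', x, k1, k2, k3, k4⟩ := Rn.key hv hh hd u f n.symm n2 n1 a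
    exact ⟨h', x, k1.symm, k3, k2, k4⟩

theorem rn (h1 : S_TT) (h2 : S_T3) (h3 : S_QQ) : S_RN := by
  intro V G _ r Λ t₀ A w hw d hd h hh j ih c e nd ds
  obtain ⟨q, w₀, hw₀, rfl, e₀⟩ := top hw hh ds
  obtain ⟨E, v, k1, hv, k3, k4, k5, n1, n2, b, hb, a⟩ :=
    Uu.run (t₀ := t₀) (v := r d ^ j * (r h ^ q * w₀)) lnn hd hh [(d, j), (h, q)] w₀ (by simp) hw₀
      (by rw [ev_cons, ev_one, mul_assoc]) (by simp only [List.length_cons, List.length_nil]; omega)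
      (by simp)
  simp only [List.length_cons, List.length_nil] at k5
  have hE : E ≠ [] := fun z => by
    rw [z, List.length_nil] at k5
    omega
  have n : d ≠ h := (A.ne _ _ c).symm
  obtain ⟨u, f, i, -⟩ := ih v hv (by omega)
  have ih' : ∀ w ∈ Subgroup.closure (r '' Λ), ln r Λ t₀ w < ln r Λ t₀ v → A.PU w :=
    fun w hw z => (ih w hw (by omega)).1
  rw [k3] at k4 nd ⊢
  by_cases fr : A.fr h ∧ A.fr d
  · obtain ⟨c', x, m1, m2, m3, m4⟩ := Rn.seed hv hd hh n fr.2 fr.1 n1 n2 hb a ih'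
    exact h2 V G r Λ t₀ A d hd h hh v hv E c' x c fr.1 fr.2 hE k1 k4 nd m1 m2 m3 m4
      (Rn.pas i hd hh fr.2 (A.sy _ _ c) n1 n2) (Rn.pas i hh hd fr.1 c n2 n1)
  · obtain ⟨h', x, m1, m2, m3, m4, -⟩ := h3 V G r Λ t₀ A v hv d hd h hh u f n n1 n2
      (by rcases hb with rfl | rfl; exacts [Or.inl a, Or.inr a])
    rcases h1 V G r Λ t₀ A d hd h hh v hv E h' x c fr hE k1 k4 nd m1 m2 m3 m4 with s | s
    · exact Or.inl s
    · omega

end PartRn

section PartSu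

open Set Pool.Agent.MP_6eaae3_al.LT Pool.Agent.MP_6eaae3_al.EV Pool.Agent.MP_6eaae3_al.EV.Uu

theorem su (h1 : S_TT) (h2 : S_QQ) (h3 : S_RN) : S_SU := by
  intro V G _ r Λ t₀ A v hv ih pi h hh nd ad
  by_cases f : A.fr h
  · obtain ⟨x, s, k⟩ := pi h hh f nd ad
    refine ⟨x, s, ?_⟩
    rcases k with rfl | ⟨a, ha, rfl, da⟩
    · exact Or.inl rfl
    · exact Ax3.Prov.ofDs hv ha (A.fc h f a ha fun u => nd (u ▸ da)) da
  by_cases z : ln r Λ t₀ v = 0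
  · exact ⟨_, Or.inl (Ax3.g2 hh (A.zero hv z hh ad)), Or.inl rfl⟩
  obtain ⟨d, hd, j, w, hw, rfl, e⟩ := split hv z
  have dv : Ds r Λ t₀ (r d ^ j * w) d := ds_of (by omega)
  have n1 : d ≠ h := fun u => nd (u ▸ dv)
  obtain ⟨pu, pf, -⟩ := ih w hw (by omega)
  by_cases c : A.cr d h
  · have c' := A.sy _ _ c
    have pd := Ax3.Prov.ofDs hv hd c' dv
    by_cases dw : Ds r Λ t₀ w h
    · exact ⟨_, h3 V G r Λ t₀ A w hw d hd h hh j ih c' e nd dw, pd⟩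
    obtain ⟨h', x, hh', x1, x2, s, p⟩ := h2 V G r Λ t₀ A w hw d hd h hh pu pf n1
      (not_ds lnn hw hd e) dw (Or.inl ⟨j, e⟩)
    rcases hh' with rfl | rfl
    · exact ⟨_, Or.inl (Ax3.one hh hd c' s.2 x2 e), pd⟩
    · rcases Ax3.tt1 h1 hw hh hd c' (fun u => f u.1) e nd x1 x2 s with u | u
      · exact ⟨_, Or.inl u, pd⟩
      · exact ⟨x, Or.inl u, p.cons hd n1 x1 e⟩
  · obtain ⟨k1, k2, k3, k4, -, -⟩ := Ax3.comm hw hh hd n1 c e
    obtain ⟨x, s, p⟩ := pu h hh (fun u => nd (k1 u)) (k2 ad)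
    exact ⟨x, Or.inl (k3 x (s.ss f)), k4 x p⟩

theorem si (h : S_RN) : S_SI := by
  intro V G _ r Λ t₀ A v hv ih pj s hs f nd ad
  by_cases z : ln r Λ t₀ v = 0
  · exact ⟨_, Or.inl (Ax3.g2 hs (A.zero hv z hs ad)), Or.inl rfl⟩
  obtain ⟨d, hd, j, w, hw, rfl, e⟩ := split hv z
  have dv : Ds r Λ t₀ (r d ^ j * w) d := ds_of (by omega)
  have n1 : d ≠ s := fun u => nd (u ▸ dv)
  have c := A.fc s f d hd n1
  by_cases dw : Ds r Λ t₀ w s
  · exact ⟨_, h V G r Λ t₀ A w hw d hd s hs j ih c e nd dw, Or.inr ⟨d, hd, rfl, dv⟩⟩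
  obtain ⟨x, sw, p⟩ := (ih w hw (by omega)).1 d hd (not_ds lnn hw hd e) ⟨j, e⟩
  by_cases u : x = Sum.inl s
  · subst u
    obtain ⟨-, U, hU, D⟩ := p.inl
    obtain ⟨a, ha, k1, k2⟩ := pj s f _ (D.cons hd e) (fun y hy => by
      rcases List.mem_cons.1 hy with rfl | hy
      exacts [n1, (hU y hy).2]) nd
    exact ⟨_, k1, Or.inr ⟨a, ha, rfl, k2⟩⟩
  · exact ⟨_, Or.inl (Ax3.one hs hd c sw.pp u e), Or.inr ⟨d, hd, rfl, dv⟩⟩

end PartSu

section PartSf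

open Set Pool.Agent.MP_6eaae3_al.LT Pool.Agent.MP_6eaae3_al.EV Pool.Agent.MP_6eaae3_al.EV.Uu

namespace Sf

variable {V G : Type} [Group G] {r : V → G} {Λ : Set V} {t₀ : V} {A : Ax3 r Λ t₀}

/-- One syllable in a free letter. -/
theorem fre {w h d} {j : ℤ} (hw : w ∈ Subgroup.closure (r '' Λ)) (hh : h ∈ Λ) (hd : d ∈ Λ)
    (c : A.cr h d) (f : A.fr d) (pI : A.PI w) (nd : ¬ Ds r Λ t₀ w h)
    (e : ln r Λ t₀ (r d ^ j * w) = ln r Λ t₀ w + 1) : A.SS (r d ^ j * w) h (Sum.inl d) := by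
  obtain ⟨x, s, k⟩ := pI d hd f (not_ds lnn hw hd e) ⟨j, e⟩
  refine Ax3.one hh hd c s.pp ?_ e
  rcases k with rfl | ⟨a, -, rfl, k⟩
  · exact Sum.inr_ne_inl
  · exact fun u => nd (Sum.inl.inj u ▸ k)

end Sf

open Sf

theorem sf (h1 : S_TT) (h2 : S_RN) : S_SF := by
  intro V G _ r Λ t₀ A v hv ih h hh U z D hU hz nd
  rcases U with _ | ⟨⟨d, j⟩, U⟩
  · have dz := D.ds
    have zh : z ≠ h := fun u => nd (u ▸ dz)
    have f : A.fr z := hz.resolve_left zh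
    have mz : z ∈ Λ := D.2.1
    have c : A.cr h z := A.sy _ _ (A.fc z f h hh zh.symm)
    obtain ⟨q, w, hw, rfl, e⟩ := D.nil
    refine ⟨z, Or.inl rfl, ?_, Ax3.Prov.ofDs hv mz c dz⟩
    by_cases k : Ds r Λ t₀ w h
    · exact h2 V G r Λ t₀ A w hw z mz h hh q ih c e nd k
    · exact Or.inl (fre hw hh mz c f (ih w hw (by omega)).2.2.1 k e)
  · obtain ⟨hd, w, D1, rfl, e⟩ := D.tail
    have hw := D1.mem
    have dh : d ≠ h := hU (d, j) (by simp)
    have hU1 : ∀ y ∈ U, y.1 ≠ h := fun y hy => hU y (by simp [hy])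
    obtain ⟨-, pF, pI, -, -⟩ := ih w hw (by omega)
    have up : ∀ a, (a = z ∨ ∃ y ∈ U, y.1 = a) → (a = z ∨ ∃ y ∈ (d, j) :: U, y.1 = a) :=
      fun a u => u.imp_right fun ⟨y, hy, u⟩ => ⟨y, by simp [hy], u⟩
    by_cases c' : A.cr d h
    · have c := A.sy _ _ c'
      have fin : A.SW (r d ^ j * w) h (Sum.inl d) →
          ∃ a, (a = z ∨ ∃ y ∈ (d, j) :: U, y.1 = a) ∧ A.SW (r d ^ j * w) h (Sum.inl a) ∧
            A.Prov (r d ^ j * w) h (Sum.inl a) := fun s =>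
        ⟨d, Or.inr ⟨(d, j), by simp, rfl⟩, s, Ax3.Prov.ofDs hv hd c (ds_of (by omega))⟩
      by_cases k : Ds r Λ t₀ w h
      · exact fin (h2 V G r Λ t₀ A w hw d hd h hh j ih c e nd k)
      obtain ⟨a, ha, s, p⟩ := pF h hh U z D1 hU1 hz k
      by_cases ad : a = d
      · subst ad
        obtain ⟨-, U', hU', D'⟩ := p.inl
        obtain ⟨b, hb, s', -⟩ := pF a hd U' a D' (fun y hy => (hU' y hy).2) (Or.inl rfl)
          (not_ds lnn hw hd e)
        refine fin (Or.inl (Ax3.one hh hd c s'.pp (fun u => ?_) e))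
        have bh := Sum.inl.inj u
        rcases hb with rfl | ⟨y, hy, rfl⟩
        exacts [dh bh, (hU' y hy).1 bh]
      have n1 : (Sum.inl a : V ⊕ Bool) ≠ Sum.inl d := fun u => ad (Sum.inl.inj u)
      by_cases nf : A.fr h ∧ A.fr d
      · exact fin (Or.inl (fre hw hh hd c nf.2 pI k e))
      rcases s with s | s
      · rcases Ax3.tt1 h1 hw hh hd c nf e nd n1 p.ne s with u | u
        · exact fin (Or.inl u)
        · exact ⟨a, up a ha, Or.inl u, p.cons hd dh n1 e⟩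
      · exact fin (Or.inl (Ax3.one hh hd c (s.1.ss hd dh n1).2 p.ne e))
    · obtain ⟨k1, -, k3, k4, k5, -⟩ := Ax3.comm (A := A) hw hh hd dh c' e
      obtain ⟨a, ha, s, p⟩ := pF h hh U z D1 hU1 hz fun u => nd (k1 u)
      exact ⟨a, up a ha, Or.inl (k3 _ (s.ss k5)), k4 _ p⟩

end PartSf

section PartSj

open Set Pool.Agent.MP_6eaae3_al.LT Pool.Agent.MP_6eaae3_al.EV Pool.Agent.MP_6eaae3_al.EV.Uu

theorem sj (h1 : S_TT) (h2 : S_RN) : S_SJ := by
  intro V G _ r Λ t₀ A v hv ih s fs U D hU nd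
  have hs : s ∈ Λ := D.2.1
  cases U with
  | nil => exact (nd D.ds).elim
  | cons z U =>
    obtain ⟨hd, w, Dw, rfl, e⟩ := Dec.tail (d := z.1) (j := z.2) D
    have hw := Dw.mem
    have ds : z.1 ≠ s := hU z (by simp)
    have c : A.cr s z.1 := A.fc s fs _ hd ds
    have dv : Ds r Λ t₀ (r z.1 ^ z.2 * w) z.1 := ds_of (by omega)
    have nw : ¬ Ds r Λ t₀ w z.1 := not_ds lnn hw hd e
    obtain ⟨-, -, pi, pj, pq⟩ := ih w hw (by omega)
    have fin : ∀ x, A.PP w z.1 x → x ≠ Sum.inl s → ∃ a ∈ Λ,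
        A.SW (r z.1 ^ z.2 * w) s (Sum.inl a) ∧ Ds r Λ t₀ (r z.1 ^ z.2 * w) a :=
      fun x p n => ⟨z.1, hd, Or.inl (Ax3.one hs hd c p n e), dv⟩
    by_cases ws : Ds r Λ t₀ w s
    · exact ⟨z.1, hd, h2 V G r Λ t₀ A w hw _ hd s hs _ ih c e nd ws, dv⟩
    obtain ⟨y, hy, sw, dy⟩ := pj s fs U Dw (fun y hy => hU y (by simp [hy])) ws
    have y1 : (Sum.inl y : V ⊕ Bool) ≠ Sum.inl z.1 := fun u => nw (Sum.inl.inj u ▸ dy)
    have y2 : (Sum.inl y : V ⊕ Bool) ≠ Sum.inl s := fun u => ws (Sum.inl.inj u ▸ dy)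
    by_cases fd : A.fr z.1
    · obtain ⟨x, sx, hx⟩ := pi _ hd fd nw ⟨_, e⟩
      refine fin x sx.pp ?_
      rcases hx with rfl | ⟨a, -, rfl, da⟩
      · exact Sum.inr_ne_inl
      · exact fun u => ws (Sum.inl.inj u ▸ da)
    rcases sw with ss | ⟨al, -⟩
    · rcases Ax3.tt1 h1 hw hs hd c (fun u => fd u.2) e nd y1 y2 ss with u | u
      · exact ⟨z.1, hd, Or.inl u, dv⟩
      · by_cases cy : A.cr z.1 y
        · obtain ⟨x, n, p⟩ := pq _ hd y hy s fd fs cy dy nw ws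
          exact fin x p n
        · exact ⟨y, hy, Or.inl u,
            (Ax3.comm hw hy hd (fun k => y1 (congrArg Sum.inl k.symm)) cy e).1 dy⟩
    · exact fin _ (al.ss hd ds y1).2 y2

theorem sq (h1 : S_TT) (h2 : S_RN) : S_SQ := by
  intro V G _ r Λ t₀ A v hv ih d hd y hy s fd fs c dy nd ns
  have ys : (Sum.inl y : V ⊕ Bool) ≠ Sum.inl s := fun u => ns (Sum.inl.inj u ▸ dy)
  obtain ⟨k, w, hw, rfl, e⟩ := top hv hy dy
  have nw : ¬ Ds r Λ t₀ w y := not_ds lnn hw hy e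
  obtain ⟨pu, pf, -, -, -⟩ := ih w hw (by omega)
  have fin : ∀ x, A.PP w y x → x ≠ Sum.inl d → ∃ x, x ≠ Sum.inl s ∧ A.PP (r y ^ k * w) d x :=
    fun x p n => ⟨_, ys, (Ax3.one hd hy c p n e).2⟩
  by_cases wd : Ds r Λ t₀ w d
  · exact ⟨_, ys, (h2 V G r Λ t₀ A w hw y hy d hd k ih c e nd wd).pp⟩
  obtain ⟨x, sx, px⟩ := pu y hy nw ⟨k, e⟩
  by_cases xd : x = Sum.inl d
  swap
  · exact fin x sx.pp xd
  subst xd
  obtain ⟨-, U, hU, D⟩ := px.inl
  by_cases sU : ∃ z ∈ U, z.1 = s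
  · obtain ⟨z, hz, rfl⟩ := sU
    obtain ⟨U1, U2, rfl⟩ := List.append_of_mem hz
    have D1 := Dec.cut (s := z.1) (q := z.2) D
    obtain ⟨a, ha, sa, -⟩ := pf y hy U1 z.1 D1 (fun u hu => (hU u (by simp [hu])).1) (Or.inr fs) nw
    refine fin _ sa.pp fun u => ?_
    have u' := Sum.inl.inj u
    rcases ha with rfl | ⟨t, ht, rfl⟩
    · exact fd (u' ▸ fs)
    · exact (hU t (by simp [ht])).2 u'
  · obtain ⟨a, ha, sa, pa⟩ := pf d hd U d D (fun u hu => (hU u hu).2) (Or.inl rfl) wd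
    have ad := pa.ne
    obtain ⟨t, ht, rfl⟩ := ha.resolve_left fun u => ad (congrArg Sum.inl u)
    rcases Ax3.tt1 h1 hw hd hy c (fun u => fd u.1) e nd
      (fun u => (hU t ht).1 (Sum.inl.inj u)) ad (sa.ss fd) with u | u
    · exact ⟨_, ys, u.2⟩
    · exact ⟨_, fun k => sU ⟨t, ht, Sum.inl.inj k⟩, u.2⟩

end PartSj

section PartGl

open Set Pool.Agent.MP_6eaae3_al.LT Pool.Agent.MP_6eaae3_al.EV Pool.Agent.MP_6eaae3_al.EV.Uu

variable {V G : Type} [Group G] {r : V → G} {Λ : Set V} {t₀ : V}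

namespace Gl

theorem all (h1 : S_SU) (h2 : S_SF) (h3 : S_SI) (h4 : S_SJ) (h5 : S_SQ) (A : Ax3 r Λ t₀) {v}
    (hv : v ∈ Subgroup.closure (r '' Λ)) : A.PU v ∧ A.PF v ∧ A.PI v ∧ A.PJ v ∧ A.PQ v := by
  induction hn : ln r Λ t₀ v using Nat.strong_induction_on generalizing v with
  | _ n ih =>
  have IH : A.IH v := fun w hw l => ih _ (hn ▸ l) hw rfl
  have pj := h4 V G r Λ t₀ A v hv IH
  have pi := h3 V G r Λ t₀ A v hv IH pj
  exact ⟨h1 V G r Λ t₀ A v hv IH pi, h2 V G r Λ t₀ A v hv IH, pi, pj, h5 V G r Λ t₀ A v hv IH⟩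

theorem along (A : Ax3 r Λ t₀) {s₀ : V} {g u : G} (hu : u ∈ Subgroup.closure (r '' (Λ \ {s₀})))
    (h : A.Ps g s₀ (Sum.inr true)) : A.Ps (u * g) s₀ (Sum.inr true) := by
  induction hu using Subgroup.closure_induction_left with
  | one => rwa [one_mul]
  | mul_left x hx y hy ih =>
    obtain ⟨a, ha, rfl⟩ := hx
    simpa [mul_assoc] using A.ps1 _ s₀ _ a 1 ha.2 Sum.inr_ne_inl ih
  | inv_mul_cancel x hx y hy ih =>
    obtain ⟨a, ha, rfl⟩ := hx
    simpa [mul_assoc] using A.ps1 _ s₀ _ a (-1) ha.2 Sum.inr_ne_inl ih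

end Gl

theorem gl (h1 : S_SU) (h2 : S_SF) (h3 : S_SI) (h4 : S_SJ) (h5 : S_SQ) : S_GL := by
  intro V G _ r Λ t₀ A s₀ hs g hg ng
  induction hn : ln r Λ t₀ g using Nat.strong_induction_on generalizing g with
  | _ n ih =>
  rcases n with _ | k
  · exact (ng ⟨1, one_mem _, g, (lnn V G r Λ t₀ g hg).2.1.1 hn, (one_mul g).symm⟩).elim
  obtain ⟨a, ha, p, w, hw, rfl, e⟩ := (lnn V G r Λ t₀ g hg).2.2 k hn
  by_cases c : a = s₀
  · subst c
    have ad : ln r Λ t₀ (r a ^ p * w) = ln r Λ t₀ w + 1 := by omega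
    obtain ⟨x, s, pr⟩ := (Gl.all h1 h2 h3 h4 h5 A hw).1 a ha (not_ds lnn hw ha ad) ⟨p, ad⟩
    exact s.pp p ad _ (fun _ f => (Sum.inr_ne_inl f).elim) pr.ne_true.symm
  · have hm := gen_mem (r := r) (X := Λ \ {s₀}) ⟨ha, c⟩ p
    refine Gl.along A hm (ih k (by omega) w hw ?_ e)
    rintro ⟨u, hu, q, hq, rfl⟩
    exact ng ⟨_, mul_mem hm hu, q, hq, (mul_assoc _ _ _).symm⟩

end PartGl

section PartAx

open FreeGroup (of mk invRev IsReduced)
open Set Pool.Agent.MP_6eaae3_al.LT Pool.Agent.MP_6eaae3_al.LT.Path Pool.Agent.MP_6eaae3_al.EV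

namespace Ax

variable {V M : Type} {m : V → V → ℕ} {n a : ℕ} {Y : Sy m n M} {Λ : Set V} {S : Set (FG M)}

theorem exists_bl (ev : Ni m Λ) (ch : Chs Y a Λ) {h : V} (hh : h ∈ Λ) {r} (ok : Ok m Λ h r) {i}
    (hi : i < n) : ∃ B, Y.Bl (h, i) r B := by
  rcases r with x | k
  · obtain ⟨a, b, d⟩ := ok x rfl
    obtain ⟨c, p, j, cn, -, j1, j2, e⟩ := (ch x a h hh b.symm (ev.1 h x ▸ d)).1 i hi
    obtain ⟨B, u, -⟩ := cn.bl (Or.inr rfl) j1 j2 (by rw [e])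
    exact ⟨B, e ▸ u⟩
  · exact ⟨_, Sy.bl_mr _ _⟩

theorem ps (ev : Ni m Λ) (ch : Chs Y a Λ) {q : V × ℕ} (ha : q.1 ∈ Λ) {r ρ B₀ y y' e e' k}
    (ok : Ok m Λ q.1 ρ) (ne : ρ ≠ r) (q2 : q.2 < n) (b : Y.Bl q r B₀) (a1 : y ∈ B₀) (a2 : y' ∈ B₀)
    (a3 : k ≠ 0) (a4 : Y.Pg S q y e k y' e') : Y.Ps S q.1 ρ := by
  obtain ⟨⟨z₀, sg₀⟩, bl₀⟩ := b
  obtain ⟨B, ⟨z, sg⟩, bl⟩ := exists_bl ev ch ha ok q2
  exact ⟨q, B, rfl, q2, ⟨⟨z, sg⟩, bl⟩, MX.AxA.HP V M m n Y S q B B₀ z z₀ y y' e e' k q2 sg sg₀ a1 a2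
    (fun u => ne (((bl y).1 u).uq ((bl₀ y).1 a1)))
    (fun u => ne (((bl y').1 u).uq ((bl₀ y').1 a2))) a3 a4⟩

theorem pi (ev : Ni m Λ) (ch : Chs Y a Λ) {h d : V} (ha : h ∈ Λ) (ok : Ok m Λ h (Sum.inl d))
    (w : Y.Ps S d (Sum.inl h)) : Y.Cx S h (Sum.inl d) 0 := by
  obtain ⟨q, B, q1, q2, ⟨⟨y, sg⟩, bl⟩, hs⟩ := w
  obtain ⟨a1, p, p1, p2, p3⟩ := (bl y).1 sg.last
  obtain rfl : p.1 = h := p1
  obtain ⟨B', bl'⟩ := exists_bl ev ch ha ok p2
  have a2 : opp y ∈ B' := (bl'.2 _).2 ⟨p3, q, q1, q2, by rwa [opp_opp]⟩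
  have a3 := hs.inf (M2.inf_pw sg.last)
  refine ⟨p, B', opp y, opp y, rfl, p2, bl', a2, a2, ?_⟩
  obtain ⟨μ, _ | _⟩ := y
  · rw [Sy.Pg, Sy.Rn_self, wd_one]
    exact a3
  · rw [← neg_zero]
    refine Sy.Pg.symm ?_
    rw [Sy.Pg, Sy.Rn_self, wd_one]
    exact a3

theorem three (ev : Ni m Λ) {s t : V} (hs : s ∈ Λ) (ht : t ∈ Λ) (u : s ≠ t ∧ m s t ≠ 2) :
    3 ≤ m s t := by
  have := (ev.2 s hs t ht u.1).1
  have := u.2
  omega

theorem four (ev : Ni m Λ) {s t : V} (hs : s ∈ Λ) (ht : t ∈ Λ) (u : s ≠ t ∧ m s t ≠ 2)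
    (nf : ¬ (Fr m Λ s ∧ Fr m Λ t)) : 4 ≤ m s t := by
  have := three ev hs ht u
  have : m s t ≠ 3 := fun e => nf ((ev.2 s hs t ht u.1).2 e)
  omega

theorem nt (sy : ∀ s t, m s t = m t s) {s t : V} (h : 4 ≤ m s t) : MX.Nt m {s, t} := by
  refine ⟨sy, ?_⟩
  rintro x (rfl | rfl) y (rfl | rfl) ne
  exacts [(ne rfl).elim, Or.inr h, Or.inr (sy _ _ ▸ h), (ne rfl).elim]

theorem LL : MX.S_LL :=
  have L := MX.pl MX.po MX.pq
  MX.ll (MX.ls MX.de) (MX.c3 MX.h4) (MX.c4 MX.h4) (MX.p1 MX.df MX.tl MX.ld L MX.en MX.t1 MX.t7)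
    (MX.p3 MX.df MX.tl MX.ld L MX.en MX.t4 MX.t5 MX.t6 MX.t9) (MX.p4 MX.df MX.tl MX.ld L MX.en MX.t5 MX.t7)

end Ax

open EV.AxA in
theorem ax (h1 : S_LC) (h2 : S_L2) : S_AX := by
  intro V M m n Y kk Λ t₀ ev cs hn
  have m1 := m1 (f2 f3) V M m n Y 0
  have ok : ∀ {h d}, d ∈ Λ → h ≠ d ∧ m h d ≠ 2 → Ok m Λ h (Sum.inl d) := fun a b x e => by
    cases e; exact ⟨a, b⟩
  have two : ∀ {a h}, a ≠ h → ¬ (a ≠ h ∧ m a h ≠ 2) → m a h = 2 ∧ m h a = 2 := fun {a h} u v => by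
    have : m a h = 2 := by_contra fun e => v ⟨u, e⟩
    exact ⟨this, ev.1 a h ▸ this⟩
  have ok2 : ∀ {h d : V}, h ≠ d ∧ m h d ≠ 2 → Ok m {h, d} h (Sum.inl d) := fun b x e => by
    cases e; exact ⟨Or.inr rfl, b⟩
  have ok3 : ∀ {h d : V}, h ≠ d ∧ m h d ≠ 2 → Ok m {h, d} d (Sum.inl h) := fun {h d} b x e => by
    cases e; exact ⟨Or.inl rfl, b.1.symm, ev.1 h d ▸ b.2⟩
  have nn : ∀ {s : V} {ρ : V ⊕ Bool}, Ok m Λ s ρ → ρ ≠ Sum.inl s := fun b f => (b _ f).2.1 rfl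
  refine ⟨{ cr := fun a b => a ≠ b ∧ m a b ≠ 2
            fr := Fr m Λ
            Cx := fun g h r k => Y.Cx (Y.im g (Y.S0 t₀)) h r k
            Hh := fun g h r => MX.Hh Y kk (Y.im g (Y.S0 t₀)) h r
            Ps := fun g h r => Y.Ps (Y.im g (Y.S0 t₀)) h r
            sy := fun a b h => ⟨h.1.symm, ev.1 a b ▸ h.2⟩
            ne := fun a b h => h.1
            cm := fun a _ b _ h => ?_
            fc := fun a f b hb ne => ⟨ne.symm, f b hb ne⟩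
            base := ?_
            ps1 := fun g h ρ a j u v w => Y.im_mul _ _ _ ▸ (m1 _ h a ρ j u).1 v w
            cx1 := fun g h ρ a j u v w => Y.im_mul _ _ _ ▸ (m1 _ h a ρ j u).2.1 v w
            cx2 := fun g h _ ρ a _ j k u v w => Y.im_mul _ _ _ ▸
              ((m1 _ h a ρ j u).2.2 (two u v).1 (two u v).2).1 k w
            hh2 := fun g h _ ρ a _ j u v w => Y.im_mul _ _ _ ▸
              w.imp fun _ _ => MX.AxA.far j u (two u v).1 (two u v).2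
            cx0 := fun g h ρ j k w => ?_
            hp := fun g h hh x ρ u v w => ?_
            pi := fun g h hh d hd u w => Ax.pi ev cs hh (ok hd u) w
            sh := fun g h hh d hd j u nf v w => Y.im_mul _ _ _ ▸
              MX.AxA.sh (Ax.nt ev.1 (Ax.four ev hh hd u nf)) ((cs h hh d hd u.1 u.2).2 nf) (Or.inl rfl)
                (ok2 u) v w
            loc := fun g s hs t ht x e he u nf v w z => ?_
            df6 := fun h hh d hd u nf => ?_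
            lc := fun g s hs t ht x e he u v w z => ?_ }, fun _ _ _ h => h⟩
  · by_cases e : a = b
    exacts [e ▸ Commute.refl _, comm e (two e h).1]
  · refine ⟨(t₀, 0), _, _, _, rfl, hn, Sy.bl_mr _ false, List.mem_singleton_self _,
      List.mem_singleton_self _, _, Or.inl (by rw [Y.im_one]; exact ⟨0, hn, rfl⟩), ?_⟩
    rw [Sy.Rn_self, wd_one, Has]
    refine (wd_mk (l := [_, _]) ?_).symm ▸ List.infix_rfl
    simp [FreeGroup.isReduced_cons_cons]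
  · obtain ⟨q, B, y, y', rfl, a, b, c, d, e⟩ := w
    obtain ⟨z, f⟩ := b.1
    refine ⟨q, B, y, y', rfl, a, b, c, d, ?_⟩
    have := m0 (f2 f3) V M m n Y _ q y y' false true k j a (f.mem c) (f.mem d) e
    rw [Y.im_mul]
    simpa using this
  · rcases w with ⟨k, hk, q, B, y, y', rfl, a2, a3, a4, a5, a6⟩ | w
    · exact Ax.ps ev cs hh u v a2 a3 a4 a5 hk a6
    · obtain ⟨i, e, -, a2, B, y, y', k, a3, a4, a5, hk, a6⟩ := w.base
      exact Ax.ps (q := (h, i)) ev cs hh u v a2 a3 a4 a5 hk a6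
  · have f4 := Ax.four ev hs ht u nf
    have c2 := (cs s hs t ht u.1 u.2).2 nf
    have a1 := Ax.LL V M m n Y kk {s, t} _ s t x e (Ax.nt ev.1 f4) c2 (Or.inr rfl) (ok3 u) v w z
      (par_pair s t ▸ he)
    have a2 := h2 V M m n Y kk _ s t x e u.1 f4 c2 v w z (par_pair s t ▸ he)
    rw [← Y.im_mul] at a1 a2
    exact ⟨fun ρ b b' => (a2 ρ (nn b) b').1 fun j hj => Ax.exists_bl ev cs hs b hj,
      fun ρ b b' => (a2 ρ b' (nn b)).2 fun j hj => Ax.exists_bl ev cs ht b hj, a1.2.2.1, a1.2.2.2⟩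
  · have f4 := Ax.four ev hh hd u nf
    obtain ⟨c, p, j, cn, col, j1, jN, e, -⟩ :=
      (cs h hh d hd u.1 u.2).2 nf h (Or.inl rfl) d (Or.inr rfl) u.1 u.2 0 hn
    obtain ⟨P⟩ := exists_pu ta ch u.1 cn col
    have o : 3 ≤ m h d - 1 := by omega
    obtain ⟨U, hU⟩ := exists_cheb cn.two
    have par : (j + p) % 2 = 1 := by
      have := col j
      rw [e, yy] at this
      split_ifs at this
      exacts [(u.1 this.symm).elim, by omega]
    obtain ⟨-, -, f0, f1, f0', f1', a, b, -⟩ := hf _ _ _ _ p P U j hU cn.two j1 jN par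
    refine d6 _ _ _ (U 2) f0 f1 f0' f1' (deg m) ?_ a b (deg_of _) (deg_of _)
    have h3 := hU.ge (j := 2) (by omega)
    have h4 := hU.rc 1
    rw [hU.o] at h4
    norm_num at h3 h4
    linarith
  · have a2 := h1 V M m n Y _ s t x e u.1 (Ax.three ev hs ht u) (cs s hs t ht u.1 u.2).1 v w z
      (par_pair s t ▸ he)
    rw [← Y.im_mul] at a2
    exact ⟨fun ρ b b' => (a2 ρ (nn b) b').1 fun j hj => Ax.exists_bl ev cs hs b hj,
      fun ρ b b' => (a2 ρ b' (nn b)).2 fun j hj => Ax.exists_bl ev cs ht b hj⟩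

end PartAx

section PartDc

open FreeGroup (of mk invRev IsReduced)
open Set Pool.Agent.MP_6eaae3_al.LT Pool.Agent.MP_6eaae3_al.LT.Path Pool.Agent.MP_6eaae3_al.EV

theorem cn : S_CN := by
  intro V M m n Y lv s t sy ha hl ne h3 hn i hi
  have hm : ∀ x ∈ ({s, t} : Set V), ∀ y ∈ ({s, t} : Set V), x ≠ y → m x y = m s t := by
    rintro x (rfl | rfl) y (rfl | rfl) e
    exacts [(e rfl).elim, rfl, sy _ _, (e rfl).elim]
  have hi' := (hl t s i).2 hi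
  have h2 : 2 ≤ m s t - 1 := by omega
  obtain ⟨N, hN⟩ : ∃ N, m s t - 1 = N := ⟨_, rfl⟩
  rw [hN] at h2 hn ⊢
  obtain ⟨r, hr'⟩ : ∃ r, r = lv t s i / N := ⟨_, rfl⟩
  obtain ⟨j, hj⟩ : ∃ j, j = lv t s i % N + 1 := ⟨_, rfl⟩
  have j2 : j ≤ N := hj ▸ Nat.mod_lt _ (by omega)
  have hrj : r * N + j - 1 = lv t s i := by
    have := Nat.div_add_mod' (lv t s i) N
    rw [hr']; omega
  have hr : r * N + N ≤ n := by
    obtain ⟨q, rfl⟩ := hn
    have := Nat.mul_le_mul_right N (Nat.succ_le_of_lt (Nat.div_lt_of_lt_mul hi'))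
    rwa [Nat.succ_mul, mul_comm q, ← hr'] at this
  obtain ⟨b, hb⟩ : ∃ b : ℕ → V, ∀ k : ℕ, b k = yy s t (k + (1 - j)) := ⟨_, fun _ => rfl⟩
  have mem : ∀ k, b k ∈ ({s, t} : Set V) := fun k => by
    rw [hb]; unfold yy; split_ifs <;> simp
  have ne' : ∀ k, b k ≠ b (k + 1) := fun k => by
    rw [hb, hb]; exact Bas.yy_ne ne (by push_cast; omega)
  refine ⟨fun k => (b k, (lv (b k) (b (k + 1))).symm (r * N + k - 1)), 1 - j, j,
    EV.Cs.chain Y ha hl h2 hr mem (fun k => ?_) ne' (fun k x a e => ?_)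
      fun x a y c e => by rw [hm x a y c e, hN], hb, by omega, j2, ?_⟩
  · rw [hb, hb]; exact yy_congr _ _ (by push_cast; omega)
  · rw [hb] at e ⊢
    rcases a with rfl | rfl <;> unfold yy at e ⊢ <;> push_cast at e ⊢ <;> split_ifs at e ⊢ <;>
      first | rfl | omega | exact (e rfl).elim
  · have e1 : b j = t := by rw [hb, yy, if_neg (by omega)]
    have e2 : b (j + 1) = s := by rw [hb, yy, if_pos (by push_cast; omega)]
    simp only [e1, e2, hrj, Equiv.symm_apply_apply]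

theorem dc (h1 : S_CN) (h2 : S_AX) (h3 : S_GL) : S_DC := by
  classical
  intro V _ m Λ n1 ev cl s hs t ht lo
  obtain ⟨a, a3, ha⟩ := Cl.exists_mult' n1
  have four : ∀ s ∈ Λ, ∀ t ∈ Λ, s ≠ t → m s t ≠ 2 → ¬ (Fr m Λ s ∧ Fr m Λ t) → 4 ≤ m s t :=
    fun s u t v d e f => by
      have := ev.2 s u t v d
      have : m s t ≠ 3 := fun k => f (this.2 k)
      omega
  have both : ∀ P : ℕ → Prop, (∀ s ∈ Λ, ∀ t ∈ Λ, s ≠ t → ¬ Fr m Λ s → P (m s t)) →
      ∀ s ∈ Λ, ∀ t ∈ Λ, s ≠ t → ¬ (Fr m Λ s ∧ Fr m Λ t) → P (m s t) := fun P k s u t v d f => by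
    rcases not_and_or.1 f with f | f
    · exact k s u t v d f
    · rw [ev.1]; exact k t v s u d.symm f
  obtain ⟨n, an, hd, hc⟩ : ∃ n, 4 * a ≤ n ∧ a ∣ n ∧ ∀ s ∈ Λ, ∀ t ∈ Λ, s ≠ t → m s t ≠ 2 →
      ¬ (Fr m Λ s ∧ Fr m Λ t) →
      ((m s t - 1) % 2 = 0 → n ≤ (m s t - 1) * a) ∧ ((m s t - 1) % 2 = 1 → n = 6 * a) := by
    rcases cl with cl | cl
    · refine ⟨6 * a, by omega, dvd_mul_left _ _, fun s u t v d e f => ?_⟩
      have := four s u t v d e f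
      have := both (fun k => k ≠ 5) cl s u t v d f
      exact ⟨fun _ => Nat.mul_le_mul_right _ (by omega), fun _ => rfl⟩
    · refine ⟨4 * a, le_rfl, dvd_mul_left _ _, fun s u t v d e f => ?_⟩
      have := four s u t v d e f
      have := both (fun k => k = 2 ∨ k % 2 = 1) cl s u t v d f
      exact ⟨fun _ => Nat.mul_le_mul_right _ (by omega), fun _ => by omega⟩
  have hn : ∀ s t, s ≠ t → m s t ≠ 0 → m s t - 1 ∣ n := fun s t u v => (ha s t u v).trans hd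
  have ex : ∀ N : ℕ, ∃ π : Equiv.Perm ℕ, (∀ i, π i < n ↔ i < n) ∧
      (3 ≤ N → N ∣ n → (N % 2 = 0 → n ≤ N * a) → (N % 2 = 1 → n = 6 * a) →
        ∀ r, r * N + N ≤ n → MX.Pat a N fun k => π.symm (r * N + k - 1)) := by
    intro N
    by_cases c : 3 ≤ N ∧ N ∣ n ∧ (N % 2 = 0 → n ≤ N * a) ∧ (N % 2 = 1 → n = 6 * a)
    · obtain ⟨π, u, v⟩ := MX.lv N n a c.1 c.2.1 an c.2.2.1 c.2.2.2
      exact ⟨π, u, fun _ _ _ _ => v⟩
    · exact ⟨1, fun _ => Iff.rfl, fun a b d e => (c ⟨a, b, d, e⟩).elim⟩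
  choose π hl hk using ex
  obtain ⟨R, Y, ad, mk, ne, H⟩ := EV.ts V m n lo (fun s t => π (m s t - 1)) ev.1 hn fun _ _ => hl _
  have ch : Chs Y a Λ := fun s u t v d e => by
    have o := (ev.2 s u t v d).1
    have o' := hn s t d (by omega)
    refine ⟨h1 V _ m n Y _ s t ev.1 ad (fun _ _ => hl _) d (by omega) o', fun f => ?_⟩
    have o4 := four s u t v d e f
    have hm : ∀ x ∈ ({s, t} : Set V), ∀ y ∈ ({s, t} : Set V), x ≠ y → m x y = m s t := by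
      rintro x (rfl | rfl) y (rfl | rfl) e
      exacts [(e rfl).elim, rfl, ev.1 _ _, (e rfl).elim]
    refine MX.cs V _ m n Y a {s, t} _ ⟨ev.1, fun x p y q k => Or.inr (hm x p y q k ▸ o4)⟩ ad
      (fun _ _ => hl _) (fun s t => by rw [ev.1]) fun x p y q k _ => ?_
    rw [hm x p y q k]
    exact ⟨o', hk _ (by omega) o' (hc s u t v d e f).1 (hc s u t v d e f).2⟩
  obtain ⟨A, hA⟩ := h2 V _ m n Y _ Λ t ev ch (by omega)
  refine ⟨_, R, ((Finset.range n).image fun i => Y.mr (s, i) true) ∪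
      ((Finset.range n).image fun i => Y.mr (t, i) false),
    fun ν => decide (∀ p, ν ≠ Y.mr p true), fun ν hν => ?_, ?_⟩
  · rcases Finset.mem_union.1 hν with hν | hν <;> obtain ⟨i, -, rfl⟩ := Finset.mem_image.1 hν
    · refine mk _ _ _ ?_
      beta_reduce
      rw [decide_eq_false (p := ∀ p, Y.mr (s, i) true ≠ Y.mr p true) fun a => a _ rfl]
      simp [hs]
    · refine mk _ _ _ ?_
      beta_reduce
      rw [decide_eq_true (p := ∀ p, Y.mr (t, i) false ≠ Y.mr p true) fun p => (ne p _).symm]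
      simp [ht]
  rintro g _ _ ⟨rfl, rfl, hg, ng⟩
  obtain ⟨⟨s', j⟩, B, rfl, hj, bl, w, hw, h⟩ := hA _ _ _ (h3 V _ _ Λ t A s hs g hg ng)
  have hB : (Y.mr (s', j) true, false) ∈ B := (bl.2 _).2 ⟨Y.mrf _ _, rfl⟩
  have nm : w ∉ Fre {((Y.mr (s', j) true, false), true)}ᶜ := fun e =>
    wd_mem.1 e (((Y.mr (s', j) true, false), true), true)
      (h.subset (List.mem_flatMap.2 ⟨_, hB, by simp⟩)) rfl
  obtain ⟨_, ⟨i, hi, rfl⟩, e⟩ : ∃ w₀ ∈ Y.S0 t,
      Y.ψ g w₀ ∉ Fre {((Y.mr (s', j) true, false), true)}ᶜ := by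
    rcases hw with ⟨w₀, a, b⟩ | ⟨w₀, a, b⟩
    · exact ⟨w₀, a, b ▸ nm⟩
    · exact ⟨w₀, a, fun e => nm (inv_mem_iff.1 (b ▸ e))⟩
  exact ⟨_, Finset.mem_union_right _ (Finset.mem_image.2 ⟨i, Finset.mem_range.2 hi, rfl⟩), _,
    Finset.mem_union_left _ (Finset.mem_image.2 ⟨j, Finset.mem_range.2 hj, rfl⟩),
    decide_eq_true fun p => (ne p _).symm, decide_eq_false fun a => a _ rfl, fun u => e (H g _ _ u)⟩

end PartDc

end Pool.Agent.MP_6eaae3_al.IS
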