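import Pool.Agent.MP_6eaae3_al.IS.Basic

/-! Seeds for a pair of letters and runs with at least two syllables. -/

namespace Pool.Agent.MP_6eaae3_al.IS

open Set Pool.Agent.MP_6eaae3_al.LT Pool.Agent.MP_6eaae3_al.EV Pool.Agent.MP_6eaae3_al.EV.Uu

namespace Rn

variable {V G : Type} [Group G] {r : V → G} {Λ : Set V} {t₀ : V} {A : Ax3 r Λ t₀}

theorem conv {v c o x} (hv : v ∈ Subgroup.closure (r '' Λ)) (ho : o ∈ Λ) (n : c ≠ o)
    (s : A.SW v c x) (p : A.Prov v c x) (e : x ≠ Sum.inl o) :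
    ∃ h', (h' = c ∨ h' = o) ∧ A.SS v h' x ∧ A.Prov v h' x := by
  rcases s with s | ⟨s, -⟩
  · exact ⟨c, Or.inl rfl, s, p⟩
  · refine ⟨o, Or.inr rfl, s.ss ho n.symm e, ?_⟩
    obtain ⟨a, ha, rfl, -, f, D, -⟩ := s
    exact Ax3.Prov.ofDs hv ha (A.sy _ _ (A.fc a f o ho fun u => e (by rw [u]))) D

theorem key {v c o} (hv : v ∈ Subgroup.closure (r '' Λ)) (hc : c ∈ Λ) (ho : o ∈ Λ) (u : A.PU v)
    (f : A.PF v) (n : c ≠ o) (n1 : ¬ Ds r Λ t₀ v c) (n2 : ¬ Ds r Λ t₀ v o) (a : Ad r Λ t₀ v c) :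
    ∃ h' x, (h' = c ∨ h' = o) ∧ x ≠ Sum.inl c ∧ x ≠ Sum.inl o ∧ A.SS v h' x ∧ A.Prov v h' x := by
  obtain ⟨x, s, p⟩ := u c hc n1 a
  by_cases e : x = Sum.inl o
  · subst e
    obtain ⟨-, U, hU, D⟩ := p.inl
    obtain ⟨b, hb, s', p'⟩ := f o ho U o D (fun y hy => (hU y hy).2) (Or.inl rfl) n2
    have k : (Sum.inl b : V ⊕ Bool) ≠ Sum.inl c := by
      rcases hb with rfl | ⟨y, hy, rfl⟩
      · exact (p'.ne rfl).elim
      · exact fun z => (hU y hy).1 (Sum.inl.inj z)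
    obtain ⟨h', k1, k2⟩ := conv hv hc n.symm s' p' k
    exact ⟨h', _, k1.symm, k, p'.ne, k2⟩
  · obtain ⟨h', k1, k2⟩ := conv hv ho n s p e
    exact ⟨h', x, k1, p.ne, e, k2⟩

/-- After an additive power of a free letter the block of a second letter is passed. -/
theorem pas {v c o} (i : A.PI v) (hc : c ∈ Λ) (ho : o ∈ Λ) (f : A.fr c) (k : A.cr c o)
    (n1 : ¬ Ds r Λ t₀ v c) (n2 : ¬ Ds r Λ t₀ v o) (p : ℤ)
    (e : ln r Λ t₀ (r c ^ p * v) = ln r Λ t₀ v + 1) : A.Ps (r c ^ p * v) c (Sum.inl o) := by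
  obtain ⟨x, s, hx⟩ := i c hc f n1 ⟨p, e⟩
  refine s.pp p e _ (Ax3.ok ho k) ?_
  rcases hx with rfl | ⟨a, -, rfl, D⟩
  · exact Sum.inl_ne_inr
  · exact fun z => n2 (Sum.inl.inj z ▸ D)

/-- A crossing without winding for one of two free letters that are not descents. -/
theorem seed {v d h c} (hv : v ∈ Subgroup.closure (r '' Λ)) (hd : d ∈ Λ) (hh : h ∈ Λ) (n : d ≠ h)
    (fd : A.fr d) (fh : A.fr h) (n1 : ¬ Ds r Λ t₀ v d) (n2 : ¬ Ds r Λ t₀ v h) (hc : c = d ∨ c = h)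
    (a : Ad r Λ t₀ v c)
    (u : ∀ w ∈ Subgroup.closure (r '' Λ), ln r Λ t₀ w < ln r Λ t₀ v → A.PU w) :
    ∃ c' x, (c' = d ∨ c' = h) ∧ x ≠ Sum.inl d ∧ x ≠ Sum.inl h ∧ A.Cx v c' x 0 := by
  by_cases z : ln r Λ t₀ v = 0
  · refine ⟨c, _, hc, Sum.inr_ne_inl, Sum.inr_ne_inl, A.zero hv z ?_ a⟩
    rcases hc with rfl | rfl <;> assumption
  obtain ⟨b, hb, j, w, hw, rfl, e⟩ := split hv z
  have D : Ds r Λ t₀ (r b ^ j * w) b := ds_of (by omega)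
  have b1 : b ≠ d := fun y => n1 (y ▸ D)
  have b2 : b ≠ h := fun y => n2 (y ▸ D)
  obtain ⟨x, s, -⟩ := u w hw (by omega) b hb (not_ds lnn hw hb e) ⟨j, e⟩
  have k : ∀ c' ∈ Λ, A.fr c' → b ≠ c' → Sum.inl c' ≠ x →
      A.Cx (r b ^ j * w) c' (Sum.inl b) 0 := fun c' h1 h2 h3 h4 =>
    A.pi _ c' h1 b hb (A.fc c' h2 b hb h3)
      (s.pp j e _ (Ax3.ok h1 (A.sy _ _ (A.fc c' h2 b hb h3))) h4)
  have m1 : (Sum.inl b : V ⊕ Bool) ≠ Sum.inl d := fun y => b1 (Sum.inl.inj y)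
  have m2 : (Sum.inl b : V ⊕ Bool) ≠ Sum.inl h := fun y => b2 (Sum.inl.inj y)
  by_cases y : Sum.inl d = x
  · exact ⟨h, _, Or.inr rfl, m1, m2, k h hh fh b2 fun y' => n (Sum.inl.inj (y.trans y'.symm))⟩
  · exact ⟨d, _, Or.inl rfl, m1, m2, k d hd fd b1 y⟩

end Rn

theorem qq : S_QQ := by
  intro V G _ r Λ t₀ A v hv d hd h hh u f n n1 n2 a
  rcases a with a | a
  · exact Rn.key hv hd hh u f n n1 n2 a
  · obtain ⟨h', x, k1, k2, k3, k4⟩ := Rn.key hv hh hd u f n.symm n2 n1 a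
    exact ⟨h', x, k1.symm, k3, k2, k4⟩

theorem rn (h1 : S_TT) (h2 : S_T3) (h3 : S_QQ) : S_RN := by
  intro V G _ r Λ t₀ A w hw d hd h hh j ih c e nd ds
  obtain ⟨q, w₀, hw₀, rfl, e₀⟩ := top hw hh ds
  obtain ⟨E, v, k1, hv, k3, k4, k5, n1, n2, b, hb, a⟩ :=
    Uu.run (t₀ := t₀) (v := r d ^ j * (r h ^ q * w₀)) lnn hd hh [(d, j), (h, q)] w₀ (by simp) hw₀
      (by rw [ev_cons, ev_one, mul_assoc]) (by simp only [List.length_cons, List.length_nil]; omega)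
      (by simp)
  simp only [List.length_cons, List.length_nil] at k5
  have hE : E ≠ [] := fun z => by
    rw [z, List.length_nil] at k5
    omega
  have n : d ≠ h := (A.ne _ _ c).symm
  obtain ⟨u, f, i, -⟩ := ih v hv (by omega)
  have ih' : ∀ w ∈ Subgroup.closure (r '' Λ), ln r Λ t₀ w < ln r Λ t₀ v → A.PU w :=
    fun w hw z => (ih w hw (by omega)).1
  rw [k3] at k4 nd ⊢
  by_cases fr : A.fr h ∧ A.fr d
  · obtain ⟨c', x, m1, m2, m3, m4⟩ := Rn.seed hv hd hh n fr.2 fr.1 n1 n2 hb a ih'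
    exact h2 V G r Λ t₀ A d hd h hh v hv E c' x c fr.1 fr.2 hE k1 k4 nd m1 m2 m3 m4
      (Rn.pas i hd hh fr.2 (A.sy _ _ c) n1 n2) (Rn.pas i hh hd fr.1 c n2 n1)
  · obtain ⟨h', x, m1, m2, m3, m4, -⟩ := h3 V G r Λ t₀ A v hv d hd h hh u f n n1 n2
      (by rcases hb with rfl | rfl; exacts [Or.inl a, Or.inr a])
    rcases h1 V G r Λ t₀ A d hd h hh v hv E h' x c fr hE k1 k4 nd m1 m2 m3 m4 with s | s
    · exact Or.inl s
    · omega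

end Pool.Agent.MP_6eaae3_al.IS
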