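import Pool.Agent.MP_6eaae3_al.IS.Basic

/-! The induction step for the port in a marked decomposition. -/

namespace Pool.Agent.MP_6eaae3_al.IS

open Set Pool.Agent.MP_6eaae3_al.LT Pool.Agent.MP_6eaae3_al.EV Pool.Agent.MP_6eaae3_al.EV.Uu

namespace Sf

variable {V G : Type} [Group G] {r : V → G} {Λ : Set V} {t₀ : V} {A : Ax3 r Λ t₀}

/-- One syllable in a free letter. -/
theorem fre {w h d} {j : ℤ} (hw : w ∈ Subgroup.closure (r '' Λ)) (hh : h ∈ Λ) (hd : d ∈ Λ)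
    (c : A.cr h d) (f : A.fr d) (pI : A.PI w) (nd : ¬ Ds r Λ t₀ w h)
    (e : ln r Λ t₀ (r d ^ j * w) = ln r Λ t₀ w + 1) : A.SS (r d ^ j * w) h (Sum.inl d) := by
  obtain ⟨x, s, k⟩ := pI d hd f (not_ds lnn hw hd e) ⟨j, e⟩
  refine Ax3.one hh hd c s.pp ?_ e
  rcases k with rfl | ⟨a, -, rfl, k⟩
  · exact Sum.inr_ne_inl
  · exact fun u => nd (Sum.inl.inj u ▸ k)

end Sf

open Sf

theorem sf (h1 : S_TT) (h2 : S_RN) : S_SF := by
  intro V G _ r Λ t₀ A v hv ih h hh U z D hU hz nd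
  rcases U with _ | ⟨⟨d, j⟩, U⟩
  · have dz := D.ds
    have zh : z ≠ h := fun u => nd (u ▸ dz)
    have f : A.fr z := hz.resolve_left zh
    have mz : z ∈ Λ := D.2.1
    have c : A.cr h z := A.sy _ _ (A.fc z f h hh zh.symm)
    obtain ⟨q, w, hw, rfl, e⟩ := D.nil
    refine ⟨z, Or.inl rfl, ?_, Ax3.Prov.ofDs hv mz c dz⟩
    by_cases k : Ds r Λ t₀ w h
    · exact h2 V G r Λ t₀ A w hw z mz h hh q ih c e nd k
    · exact Or.inl (fre hw hh mz c f (ih w hw (by omega)).2.2.1 k e)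
  · obtain ⟨hd, w, D1, rfl, e⟩ := D.tail
    have hw := D1.mem
    have dh : d ≠ h := hU (d, j) (by simp)
    have hU1 : ∀ y ∈ U, y.1 ≠ h := fun y hy => hU y (by simp [hy])
    obtain ⟨-, pF, pI, -, -⟩ := ih w hw (by omega)
    have up : ∀ a, (a = z ∨ ∃ y ∈ U, y.1 = a) → (a = z ∨ ∃ y ∈ (d, j) :: U, y.1 = a) :=
      fun a u => u.imp_right fun ⟨y, hy, u⟩ => ⟨y, by simp [hy], u⟩
    by_cases c' : A.cr d h
    · have c := A.sy _ _ c'
      have fin : A.SW (r d ^ j * w) h (Sum.inl d) →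
          ∃ a, (a = z ∨ ∃ y ∈ (d, j) :: U, y.1 = a) ∧ A.SW (r d ^ j * w) h (Sum.inl a) ∧
            A.Prov (r d ^ j * w) h (Sum.inl a) := fun s =>
        ⟨d, Or.inr ⟨(d, j), by simp, rfl⟩, s, Ax3.Prov.ofDs hv hd c (ds_of (by omega))⟩
      by_cases k : Ds r Λ t₀ w h
      · exact fin (h2 V G r Λ t₀ A w hw d hd h hh j ih c e nd k)
      obtain ⟨a, ha, s, p⟩ := pF h hh U z D1 hU1 hz k
      by_cases ad : a = d
      · subst ad
        obtain ⟨-, U', hU', D'⟩ := p.inl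
        obtain ⟨b, hb, s', -⟩ := pF a hd U' a D' (fun y hy => (hU' y hy).2) (Or.inl rfl)
          (not_ds lnn hw hd e)
        refine fin (Or.inl (Ax3.one hh hd c s'.pp (fun u => ?_) e))
        have bh := Sum.inl.inj u
        rcases hb with rfl | ⟨y, hy, rfl⟩
        exacts [dh bh, (hU' y hy).1 bh]
      have n1 : (Sum.inl a : V ⊕ Bool) ≠ Sum.inl d := fun u => ad (Sum.inl.inj u)
      by_cases nf : A.fr h ∧ A.fr d
      · exact fin (Or.inl (fre hw hh hd c nf.2 pI k e))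
      rcases s with s | s
      · rcases Ax3.tt1 h1 hw hh hd c nf e nd n1 p.ne s with u | u
        · exact fin (Or.inl u)
        · exact ⟨a, up a ha, Or.inl u, p.cons hd dh n1 e⟩
      · exact fin (Or.inl (Ax3.one hh hd c (s.1.ss hd dh n1).2 p.ne e))
    · obtain ⟨k1, -, k3, k4, k5, -⟩ := Ax3.comm (A := A) hw hh hd dh c' e
      obtain ⟨a, ha, s, p⟩ := pF h hh U z D1 hU1 hz fun u => nd (k1 u)
      exact ⟨a, up a ha, Or.inl (k3 _ (s.ss k5)), k4 _ p⟩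

end Pool.Agent.MP_6eaae3_al.IS
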