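import Pool.Agent.MP_6eaae3_al.IS.Basic

/-! The induction steps for the properties `PJ` and `PQ`. -/

namespace Pool.Agent.MP_6eaae3_al.IS

open Set Pool.Agent.MP_6eaae3_al.LT Pool.Agent.MP_6eaae3_al.EV Pool.Agent.MP_6eaae3_al.EV.Uu

theorem sj (h1 : S_TT) (h2 : S_RN) : S_SJ := by
  intro V G _ r Λ t₀ A v hv ih s fs U D hU nd
  have hs : s ∈ Λ := D.2.1
  cases U with
  | nil => exact (nd D.ds).elim
  | cons z U =>
    obtain ⟨hd, w, Dw, rfl, e⟩ := Dec.tail (d := z.1) (j := z.2) D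
    have hw := Dw.mem
    have ds : z.1 ≠ s := hU z (by simp)
    have c : A.cr s z.1 := A.fc s fs _ hd ds
    have dv : Ds r Λ t₀ (r z.1 ^ z.2 * w) z.1 := ds_of (by omega)
    have nw : ¬ Ds r Λ t₀ w z.1 := not_ds lnn hw hd e
    obtain ⟨-, -, pi, pj, pq⟩ := ih w hw (by omega)
    have fin : ∀ x, A.PP w z.1 x → x ≠ Sum.inl s → ∃ a ∈ Λ,
        A.SW (r z.1 ^ z.2 * w) s (Sum.inl a) ∧ Ds r Λ t₀ (r z.1 ^ z.2 * w) a :=
      fun x p n => ⟨z.1, hd, Or.inl (Ax3.one hs hd c p n e), dv⟩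
    by_cases ws : Ds r Λ t₀ w s
    · exact ⟨z.1, hd, h2 V G r Λ t₀ A w hw _ hd s hs _ ih c e nd ws, dv⟩
    obtain ⟨y, hy, sw, dy⟩ := pj s fs U Dw (fun y hy => hU y (by simp [hy])) ws
    have y1 : (Sum.inl y : V ⊕ Bool) ≠ Sum.inl z.1 := fun u => nw (Sum.inl.inj u ▸ dy)
    have y2 : (Sum.inl y : V ⊕ Bool) ≠ Sum.inl s := fun u => ws (Sum.inl.inj u ▸ dy)
    by_cases fd : A.fr z.1
    · obtain ⟨x, sx, hx⟩ := pi _ hd fd nw ⟨_, e⟩
      refine fin x sx.pp ?_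
      rcases hx with rfl | ⟨a, -, rfl, da⟩
      · exact Sum.inr_ne_inl
      · exact fun u => ws (Sum.inl.inj u ▸ da)
    rcases sw with ss | ⟨al, -⟩
    · rcases Ax3.tt1 h1 hw hs hd c (fun u => fd u.2) e nd y1 y2 ss with u | u
      · exact ⟨z.1, hd, Or.inl u, dv⟩
      · by_cases cy : A.cr z.1 y
        · obtain ⟨x, n, p⟩ := pq _ hd y hy s fd fs cy dy nw ws
          exact fin x p n
        · exact ⟨y, hy, Or.inl u,
            (Ax3.comm hw hy hd (fun k => y1 (congrArg Sum.inl k.symm)) cy e).1 dy⟩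
    · exact fin _ (al.ss hd ds y1).2 y2

theorem sq (h1 : S_TT) (h2 : S_RN) : S_SQ := by
  intro V G _ r Λ t₀ A v hv ih d hd y hy s fd fs c dy nd ns
  have ys : (Sum.inl y : V ⊕ Bool) ≠ Sum.inl s := fun u => ns (Sum.inl.inj u ▸ dy)
  obtain ⟨k, w, hw, rfl, e⟩ := top hv hy dy
  have nw : ¬ Ds r Λ t₀ w y := not_ds lnn hw hy e
  obtain ⟨pu, pf, -, -, -⟩ := ih w hw (by omega)
  have fin : ∀ x, A.PP w y x → x ≠ Sum.inl d → ∃ x, x ≠ Sum.inl s ∧ A.PP (r y ^ k * w) d x :=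
    fun x p n => ⟨_, ys, (Ax3.one hd hy c p n e).2⟩
  by_cases wd : Ds r Λ t₀ w d
  · exact ⟨_, ys, (h2 V G r Λ t₀ A w hw y hy d hd k ih c e nd wd).pp⟩
  obtain ⟨x, sx, px⟩ := pu y hy nw ⟨k, e⟩
  by_cases xd : x = Sum.inl d
  swap
  · exact fin x sx.pp xd
  subst xd
  obtain ⟨-, U, hU, D⟩ := px.inl
  by_cases sU : ∃ z ∈ U, z.1 = s
  · obtain ⟨z, hz, rfl⟩ := sU
    obtain ⟨U1, U2, rfl⟩ := List.append_of_mem hz
    have D1 := Dec.cut (s := z.1) (q := z.2) D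
    obtain ⟨a, ha, sa, -⟩ := pf y hy U1 z.1 D1 (fun u hu => (hU u (by simp [hu])).1) (Or.inr fs) nw
    refine fin _ sa.pp fun u => ?_
    have u' := Sum.inl.inj u
    rcases ha with rfl | ⟨t, ht, rfl⟩
    · exact fd (u' ▸ fs)
    · exact (hU t (by simp [ht])).2 u'
  · obtain ⟨a, ha, sa, pa⟩ := pf d hd U d D (fun u hu => (hU u hu).2) (Or.inl rfl) wd
    have ad := pa.ne
    obtain ⟨t, ht, rfl⟩ := ha.resolve_left fun u => ad (congrArg Sum.inl u)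
    rcases Ax3.tt1 h1 hw hd hy c (fun u => fd u.1) e nd
      (fun u => (hU t ht).1 (Sum.inl.inj u)) ad (sa.ss fd) with u | u
    · exact ⟨_, ys, u.2⟩
    · exact ⟨_, fun k => sU ⟨t, ht, Sum.inl.inj k⟩, u.2⟩

end Pool.Agent.MP_6eaae3_al.IS
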