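import Pool.Agent.MP_6eaae3_al.MX.All

/-! Definitions and statements for cliques whose small odd labels are far from the label two. -/

namespace Pool.Agent.MP_6eaae3_al.IS

open FreeGroup (of mk invRev IsReduced)
open Set Pool.Agent.MP_6eaae3_al.LT Pool.Agent.MP_6eaae3_al.EV

variable {M V G : Type}

/-- No label two at `s` inside `Λ`. -/
def Fr (m : V → V → ℕ) (Λ : Set V) (s : V) : Prop := ∀ u ∈ Λ, u ≠ s → m s u ≠ 2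

/-- Symmetric finite labels; the label three joins two free vertices. -/
def Ni (m : V → V → ℕ) (Λ : Set V) : Prop :=
  (∀ s t, m s t = m t s) ∧
    ∀ s ∈ Λ, ∀ t ∈ Λ, s ≠ t → 2 ≤ m s t ∧ (m s t = 3 → Fr m Λ s ∧ Fr m Λ t)

/-- Every `t`-curve lies in a chain of `s`- and `t`-curves. -/
def Chn {m : V → V → ℕ} {n : ℕ} (Y : Sy m n M) (s t : V) : Prop :=
  ∀ i < n, ∃ (c : ℕ → V × ℕ) (p : ℤ) (j : ℕ), Y.Cn {s, t} (m s t - 1) c ∧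
    (∀ k : ℕ, (c k).1 = yy s t (k + p)) ∧ 1 ≤ j ∧ j ≤ m s t - 1 ∧ c j = (t, i)

def Chs {m : V → V → ℕ} {n : ℕ} (Y : Sy m n M) (a : ℕ) (Λ : Set V) : Prop :=
  ∀ s ∈ Λ, ∀ t ∈ Λ, s ≠ t → m s t ≠ 2 →
    Chn Y s t ∧ (¬ (Fr m Λ s ∧ Fr m Λ t) → MX.Chs Y a {s, t})

/-! The dihedral step for a crossing without winding. -/

def S_N2 : Prop := ∀ (G : Type) [Group G] (s t Δ : G) (p : ℤ) (P : Pu s t 2 p) (i : ℕ) (k h : ℤ),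
  (∀ i, aa s t i (2 + 1) = Δ) → 1 ≤ i → i ≤ 2 → (i + p) % 2 = 1 → k % 2 = 0 → Tri h →
    Bd (of i) (Fre (Tp i)ᶜ) (P.W (Δ ^ k * t ^ h) i) → ∃ a b c : ℤ, Δ ^ k * t ^ h = s ^ a * t ^ b * s ^ c

def S_AC : Prop := ∀ (G : Type) [Group G] (s t Δ : G) (N : ℕ) (p : ℤ) (P : Pu s t N p) (i : ℕ)
  (Q : G → Prop) (g : G), 2 ≤ N → (∀ i, aa s t i (N + 1) = Δ) → 1 ≤ i → i ≤ N → (i + p) % 2 = 1 →
    g ∈ Subgroup.closure {s, t} → Q g →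
    ((∀ g j, Q g → Q (t ^ (j : ℤ) * g)) →
      (∀ g ∈ Subgroup.closure {s, t}, Q g → P.W g i ∈ Fre (Tp i)) → ∃ a b : ℤ, g = t ^ a * s ^ b) ∧
    ((∀ g j, Q g → Q (s ^ (j : ℤ) * g)) →
      (∀ g ∈ Subgroup.closure {s, t}, Q g → Bd (of i) (Fre (Tp i)ᶜ) (P.W g i)) →
        ∃ a b c : ℤ, g = s ^ a * t ^ b * s ^ c)

def S_LC : Prop := ∀ (V M : Type) (m : V → V → ℕ) (n : ℕ) (Y : Sy m n M) (S : Set (FG M)) (s t : V)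
  (x : V ⊕ Bool) (g : Art m), s ≠ t → 3 ≤ m s t → Chn Y s t → x ≠ Sum.inl s → x ≠ Sum.inl t →
    Y.Cx S t x 0 → g ∈ Par m {s, t} → ∀ r, r ≠ Sum.inl s → r ≠ Sum.inl t →
    ((∀ j < n, ∃ B, Y.Bl (s, j) r B) → Y.Ps (Y.im g S) s r ∨ ∃ a b : ℤ,
      g = PresentedGroup.of t ^ a * PresentedGroup.of s ^ b) ∧
    ((∀ j < n, ∃ B, Y.Bl (t, j) r B) → Y.Ps (Y.im g S) t r ∨ ∃ a b c : ℤ,
      g = PresentedGroup.of s ^ a * PresentedGroup.of t ^ b * PresentedGroup.of s ^ c)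

/-- The first two parts of `MX.S_LL` for any target. -/
def S_L2 : Prop := ∀ (V M : Type) (m : V → V → ℕ) (n : ℕ) (Y : Sy m n M) (a : ℕ) (S : Set (FG M))
  (s t : V) (x : V ⊕ Bool) (g : Art m), s ≠ t → 4 ≤ m s t → MX.Chs Y a {s, t} → x ≠ Sum.inl s →
    x ≠ Sum.inl t → MX.Sd Y a S t x → g ∈ Par m {s, t} → ∀ r, r ≠ Sum.inl s → r ≠ Sum.inl t →
    ((∀ j < n, ∃ B, Y.Bl (s, j) r B) → Y.Ps (Y.im g S) s r ∨ ∃ a b c : ℤ,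
      g = PresentedGroup.of t ^ a * PresentedGroup.of s ^ b * PresentedGroup.of t ^ c) ∧
    ((∀ j < n, ∃ B, Y.Bl (t, j) r B) → Y.Ps (Y.im g S) t r ∨ ∃ a b c d : ℤ, g = PresentedGroup.of s ^ a *
      PresentedGroup.of t ^ b * PresentedGroup.of s ^ c * PresentedGroup.of t ^ d)

/-! The induction on the number of syllables. -/

structure Ax3 [Group G] (r : V → G) (Λ : Set V) (t₀ : V) where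
  cr : V → V → Prop
  fr : V → Prop
  Cx : G → V → V ⊕ Bool → ℤ → Prop
  Hh : G → V → V ⊕ Bool → Prop
  Ps : G → V → V ⊕ Bool → Prop
  sy : ∀ a b, cr a b → cr b a
  ne : ∀ a b, cr a b → a ≠ b
  cm : ∀ a ∈ Λ, ∀ b ∈ Λ, ¬ cr a b → Commute (r a) (r b)
  fc : ∀ a, fr a → ∀ b ∈ Λ, b ≠ a → cr a b
  base : Cx 1 t₀ (Sum.inr false) 0
  ps1 : ∀ g h ρ a (j : ℤ), a ≠ h → ρ ≠ Sum.inl a → Ps g h ρ → Ps (r a ^ j * g) h ρ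
  cx1 : ∀ g h ρ a (j : ℤ), a ≠ h → ρ ≠ Sum.inl a → Cx g h ρ 0 → Cx (r a ^ j * g) h ρ 0
  cx2 : ∀ g, ∀ h ∈ Λ, ∀ ρ, ∀ a ∈ Λ, ∀ (j k : ℤ), a ≠ h → ¬ cr a h → Cx g h ρ k → Cx (r a ^ j * g) h ρ k
  hh2 : ∀ g, ∀ h ∈ Λ, ∀ ρ, ∀ a ∈ Λ, ∀ j : ℤ, a ≠ h → ¬ cr a h → Hh g h ρ → Hh (r a ^ j * g) h ρ
  cx0 : ∀ g h ρ (j k : ℤ), Cx g h ρ k → Cx (r h ^ j * g) h ρ (k + j)
  hp : ∀ g, ∀ h ∈ Λ, ∀ x ρ, (∀ a, ρ = Sum.inl a → a ∈ Λ ∧ cr h a) → ρ ≠ x →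
    ((∃ k ≠ 0, Cx g h x k) ∨ Hh g h x) → Ps g h ρ
  pi : ∀ g, ∀ h ∈ Λ, ∀ d ∈ Λ, cr h d → Ps g d (Sum.inl h) → Cx g h (Sum.inl d) 0
  sh : ∀ g, ∀ h ∈ Λ, ∀ d ∈ Λ, ∀ j : ℤ, cr h d → ¬ (fr h ∧ fr d) → j ≠ 0 → Ps g h (Sum.inl d) →
    Cx (r d ^ j * g) h (Sum.inl d) 0
  loc : ∀ g, ∀ s ∈ Λ, ∀ t ∈ Λ, ∀ x, ∀ e ∈ Subgroup.closure {r s, r t}, cr s t → ¬ (fr s ∧ fr t) →
    x ≠ Sum.inl s → x ≠ Sum.inl t → ((∃ k, Cx g t x k) ∨ Hh g t x) →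
    (∀ ρ, (∀ a, ρ = Sum.inl a → a ∈ Λ ∧ cr s a) → ρ ≠ Sum.inl t →
      Ps (e * g) s ρ ∨ ∃ a b c : ℤ, e = r t ^ a * r s ^ b * r t ^ c) ∧
    (∀ ρ, (∀ a, ρ = Sum.inl a → a ∈ Λ ∧ cr t a) → ρ ≠ Sum.inl s →
      Ps (e * g) t ρ ∨ ∃ a b c d : ℤ, e = r s ^ a * r t ^ b * r s ^ c * r t ^ d) ∧
    (((∃ k, Cx (e * g) t (Sum.inl s) k) ∨ Hh (e * g) t (Sum.inl s)) ∨
      ∃ a b c : ℤ, e = r t ^ a * r s ^ b * r t ^ c) ∧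
    (((∃ k, Cx (e * g) s (Sum.inl t) k) ∨ Hh (e * g) s (Sum.inl t)) ∨ ∃ a c : ℤ, e = r s ^ a * r t ^ c)
  df6 : ∀ h ∈ Λ, ∀ d ∈ Λ, cr h d → ¬ (fr h ∧ fr d) → ∀ p j q a b c : ℤ, p ≠ 0 → j ≠ 0 → a ≠ 0 → b ≠ 0 →
    r h ^ p * r d ^ j * r h ^ q ≠ r d ^ a * r h ^ b * r d ^ c
  lc : ∀ g, ∀ s ∈ Λ, ∀ t ∈ Λ, ∀ x, ∀ e ∈ Subgroup.closure {r s, r t}, cr s t →
    x ≠ Sum.inl s → x ≠ Sum.inl t → Cx g t x 0 →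
    (∀ ρ, (∀ a, ρ = Sum.inl a → a ∈ Λ ∧ cr s a) → ρ ≠ Sum.inl t →
      Ps (e * g) s ρ ∨ ∃ a b : ℤ, e = r t ^ a * r s ^ b) ∧
    ∀ ρ, (∀ a, ρ = Sum.inl a → a ∈ Λ ∧ cr t a) → ρ ≠ Sum.inl s →
      Ps (e * g) t ρ ∨ ∃ a b c : ℤ, e = r s ^ a * r t ^ b * r s ^ c

namespace Ax3

variable [Group G] {r : V → G} {Λ : Set V} {t₀ : V} (A : Ax3 r Λ t₀)

/-- After an additive power of `h` all blocks of `h` other than `x` are passed. -/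
def PP (v : G) (h : V) (x : V ⊕ Bool) : Prop :=
  ∀ p : ℤ, ln r Λ t₀ (r h ^ p * v) = ln r Λ t₀ v + 1 →
    ∀ ρ, (∀ a, ρ = Sum.inl a → a ∈ Λ ∧ A.cr h a) → ρ ≠ x → A.Ps (r h ^ p * v) h ρ

def SS (v : G) (h : V) (x : V ⊕ Bool) : Prop := ((∃ k, A.Cx v h x k) ∨ A.Hh v h x) ∧ A.PP v h x

/-- What replaces the seed after a long run in two free letters. -/
def AL (v : G) (h : V) (x : V ⊕ Bool) : Prop :=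
  ∃ a ∈ Λ, x = Sum.inl a ∧ A.fr h ∧ A.fr a ∧ Ds r Λ t₀ v a ∧
    ∀ ρ, (∀ b, ρ = Sum.inl b → b ∈ Λ ∧ A.cr a b) → ρ ≠ Sum.inl h → A.Ps v a ρ

def SW (v : G) (h : V) (x : V ⊕ Bool) : Prop := A.SS v h x ∨ (A.AL v h x ∧ A.PP v h x)

end Ax3

/-- An additive decomposition with a marked syllable. -/
def Dec [Group G] (r : V → G) (Λ : Set V) (t₀ : V) (v : G) (U : List (V × ℤ)) (z : V) : Prop :=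
  (∀ y ∈ U, y.1 ∈ Λ) ∧ z ∈ Λ ∧ ∃ q : ℤ, ∃ w ∈ Subgroup.closure (r '' Λ),
    v = ev r U * (r z ^ q * w) ∧ ln r Λ t₀ v = U.length + 1 + ln r Λ t₀ w

/-- Some power of `h` increases the length. -/
def Ad [Group G] (r : V → G) (Λ : Set V) (t₀ : V) (v : G) (h : V) : Prop :=
  ∃ p : ℤ, ln r Λ t₀ (r h ^ p * v) = ln r Λ t₀ v + 1

namespace Ax3

variable [Group G] {r : V → G} {Λ : Set V} {t₀ : V} (A : Ax3 r Λ t₀)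

/-- The provenance of the label `x`. -/
def Prov (v : G) (h : V) (x : V ⊕ Bool) : Prop :=
  x = Sum.inr false ∨ ∃ (a : V) (U : List (V × ℤ)), x = Sum.inl a ∧ A.cr h a ∧
    (∀ y ∈ U, y.1 ≠ h ∧ y.1 ≠ a) ∧ Dec r Λ t₀ v U a

def PU (v : G) : Prop := ∀ h ∈ Λ, ¬ Ds r Λ t₀ v h → Ad r Λ t₀ v h → ∃ x, A.SW v h x ∧ A.Prov v h x

def PF (v : G) : Prop := ∀ h ∈ Λ, ∀ U z, Dec r Λ t₀ v U z → (∀ y ∈ U, y.1 ≠ h) → (z = h ∨ A.fr z) →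
  ¬ Ds r Λ t₀ v h → ∃ a, (a = z ∨ ∃ y ∈ U, y.1 = a) ∧ A.SW v h (Sum.inl a) ∧ A.Prov v h (Sum.inl a)

def PI (v : G) : Prop := ∀ s ∈ Λ, A.fr s → ¬ Ds r Λ t₀ v s → Ad r Λ t₀ v s →
  ∃ x, A.SW v s x ∧ (x = Sum.inr false ∨ ∃ a ∈ Λ, x = Sum.inl a ∧ Ds r Λ t₀ v a)

def PJ (v : G) : Prop := ∀ s, A.fr s → ∀ U, Dec r Λ t₀ v U s → (∀ y ∈ U, y.1 ≠ s) → ¬ Ds r Λ t₀ v s →
  ∃ a ∈ Λ, A.SW v s (Sum.inl a) ∧ Ds r Λ t₀ v a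

def PQ (v : G) : Prop := ∀ d ∈ Λ, ∀ y ∈ Λ, ∀ s, ¬ A.fr d → A.fr s → A.cr d y → Ds r Λ t₀ v y →
  ¬ Ds r Λ t₀ v d → ¬ Ds r Λ t₀ v s → ∃ x, x ≠ Sum.inl s ∧ A.PP v d x

def IH (v : G) : Prop := ∀ w ∈ Subgroup.closure (r '' Λ), ln r Λ t₀ w < ln r Λ t₀ v →
  A.PU w ∧ A.PF w ∧ A.PI w ∧ A.PJ w ∧ A.PQ w

end Ax3

def S_TT : Prop := ∀ (V G : Type) [Group G] (r : V → G) (Λ : Set V) (t₀ : V) (A : Ax3 r Λ t₀),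
  ∀ d ∈ Λ, ∀ h ∈ Λ, ∀ v ∈ Subgroup.closure (r '' Λ), ∀ (E : List (V × ℤ)) (h' : V) (x : V ⊕ Bool),
    A.cr h d → ¬ (A.fr h ∧ A.fr d) → E ≠ [] → (∀ y ∈ E, y.1 = d ∨ y.1 = h) →
    ln r Λ t₀ (ev r E * v) = E.length + ln r Λ t₀ v → ¬ Ds r Λ t₀ (ev r E * v) h →
    (h' = d ∨ h' = h) → x ≠ Sum.inl d → x ≠ Sum.inl h → A.SS v h' x →
      A.SS (ev r E * v) h (Sum.inl d) ∨ (E.length = 1 ∧ h' = h ∧ A.SS (ev r E * v) h x)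

/-- A run in two free letters. -/
def S_T3 : Prop := ∀ (V G : Type) [Group G] (r : V → G) (Λ : Set V) (t₀ : V) (A : Ax3 r Λ t₀),
  ∀ d ∈ Λ, ∀ h ∈ Λ, ∀ v ∈ Subgroup.closure (r '' Λ), ∀ (E : List (V × ℤ)) (c : V) (x : V ⊕ Bool),
    A.cr h d → A.fr h → A.fr d → E ≠ [] → (∀ y ∈ E, y.1 = d ∨ y.1 = h) →
    ln r Λ t₀ (ev r E * v) = E.length + ln r Λ t₀ v → ¬ Ds r Λ t₀ (ev r E * v) h →
    (c = d ∨ c = h) → x ≠ Sum.inl d → x ≠ Sum.inl h → A.Cx v c x 0 →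
    (∀ p : ℤ, ln r Λ t₀ (r d ^ p * v) = ln r Λ t₀ v + 1 → A.Ps (r d ^ p * v) d (Sum.inl h)) →
    (∀ p : ℤ, ln r Λ t₀ (r h ^ p * v) = ln r Λ t₀ v + 1 → A.Ps (r h ^ p * v) h (Sum.inl d)) →
      A.SW (ev r E * v) h (Sum.inl d)

/-- A seed for a pair of letters that are not descents. -/
def S_QQ : Prop := ∀ (V G : Type) [Group G] (r : V → G) (Λ : Set V) (t₀ : V) (A : Ax3 r Λ t₀),
  ∀ v ∈ Subgroup.closure (r '' Λ), ∀ d ∈ Λ, ∀ h ∈ Λ, A.PU v → A.PF v → d ≠ h → ¬ Ds r Λ t₀ v d →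
    ¬ Ds r Λ t₀ v h → (Ad r Λ t₀ v d ∨ Ad r Λ t₀ v h) →
      ∃ h' x, (h' = d ∨ h' = h) ∧ x ≠ Sum.inl d ∧ x ≠ Sum.inl h ∧ A.SS v h' x ∧ A.Prov v h' x

/-- Runs with at least two syllables. -/
def S_RN : Prop := ∀ (V G : Type) [Group G] (r : V → G) (Λ : Set V) (t₀ : V) (A : Ax3 r Λ t₀),
  ∀ w ∈ Subgroup.closure (r '' Λ), ∀ d ∈ Λ, ∀ h ∈ Λ, ∀ j : ℤ, A.IH (r d ^ j * w) → A.cr h d →
    ln r Λ t₀ (r d ^ j * w) = ln r Λ t₀ w + 1 → ¬ Ds r Λ t₀ (r d ^ j * w) h → Ds r Λ t₀ w h →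
      A.SW (r d ^ j * w) h (Sum.inl d)

def S_SU : Prop := ∀ (V G : Type) [Group G] (r : V → G) (Λ : Set V) (t₀ : V) (A : Ax3 r Λ t₀),
  ∀ v ∈ Subgroup.closure (r '' Λ), A.IH v → A.PI v → A.PU v

def S_SF : Prop := ∀ (V G : Type) [Group G] (r : V → G) (Λ : Set V) (t₀ : V) (A : Ax3 r Λ t₀),
  ∀ v ∈ Subgroup.closure (r '' Λ), A.IH v → A.PF v

def S_SI : Prop := ∀ (V G : Type) [Group G] (r : V → G) (Λ : Set V) (t₀ : V) (A : Ax3 r Λ t₀),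
  ∀ v ∈ Subgroup.closure (r '' Λ), A.IH v → A.PJ v → A.PI v

def S_SJ : Prop := ∀ (V G : Type) [Group G] (r : V → G) (Λ : Set V) (t₀ : V) (A : Ax3 r Λ t₀),
  ∀ v ∈ Subgroup.closure (r '' Λ), A.IH v → A.PJ v

def S_SQ : Prop := ∀ (V G : Type) [Group G] (r : V → G) (Λ : Set V) (t₀ : V) (A : Ax3 r Λ t₀),
  ∀ v ∈ Subgroup.closure (r '' Λ), A.IH v → A.PQ v

def S_GL : Prop := ∀ (V G : Type) [Group G] (r : V → G) (Λ : Set V) (t₀ : V) (A : Ax3 r Λ t₀),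
  ∀ s₀ ∈ Λ, ∀ g ∈ Subgroup.closure (r '' Λ), (¬ ∃ p ∈ Subgroup.closure (r '' (Λ \ {s₀})),
    ∃ q ∈ Subgroup.closure (r '' (Λ \ {t₀})), g = p * q) → A.Ps g s₀ (Sum.inr true)

/-! The plumbing. -/

def S_CN : Prop := ∀ (V M : Type) (m : V → V → ℕ) (n : ℕ) (Y : Sy m n M) (lv : V → V → Equiv.Perm ℕ)
  (s t : V), (∀ s t, m s t = m t s) → Y.ad = Cl.Aj m n lv → (∀ s t i, lv s t i < n ↔ i < n) →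
    s ≠ t → 3 ≤ m s t → m s t - 1 ∣ n → Chn Y s t

def S_AX : Prop := ∀ (V M : Type) (m : V → V → ℕ) (n : ℕ) (Y : Sy m n M) (a : ℕ) (Λ : Set V) (t₀ : V),
  Ni m Λ → Chs Y a Λ → 0 < n → ∃ A : Ax3 (PresentedGroup.of : V → Art m) Λ t₀,
    ∀ g h ρ, A.Ps g h ρ → Y.Ps (Y.im g (Y.S0 t₀)) h ρ

def S_DC : Prop := ∀ (V : Type) [Finite V] (m : V → V → ℕ) (Λ : Set V),
  (∀ s t, s ≠ t → m s t ≠ 1) → Ni m Λ →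
    ((∀ s ∈ Λ, ∀ t ∈ Λ, s ≠ t → ¬ Fr m Λ s → m s t ≠ 5) ∨
      ∀ s ∈ Λ, ∀ t ∈ Λ, s ≠ t → ¬ Fr m Λ s → m s t = 2 ∨ m s t % 2 = 1) →
    ∀ s ∈ Λ, ∀ t ∈ Λ, Dc m Λ {s} {t}

end Pool.Agent.MP_6eaae3_al.IS
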