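import Pool.Agent.MP_6eaae3_al.IS.Basic

/-! Two of the induction steps. -/

namespace Pool.Agent.MP_6eaae3_al.IS

open Set Pool.Agent.MP_6eaae3_al.LT Pool.Agent.MP_6eaae3_al.EV Pool.Agent.MP_6eaae3_al.EV.Uu

theorem su (h1 : S_TT) (h2 : S_QQ) (h3 : S_RN) : S_SU := by
  intro V G _ r Λ t₀ A v hv ih pi h hh nd ad
  by_cases f : A.fr h
  · obtain ⟨x, s, k⟩ := pi h hh f nd ad
    refine ⟨x, s, ?_⟩
    rcases k with rfl | ⟨a, ha, rfl, da⟩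
    · exact Or.inl rfl
    · exact Ax3.Prov.ofDs hv ha (A.fc h f a ha fun u => nd (u ▸ da)) da
  by_cases z : ln r Λ t₀ v = 0
  · exact ⟨_, Or.inl (Ax3.g2 hh (A.zero hv z hh ad)), Or.inl rfl⟩
  obtain ⟨d, hd, j, w, hw, rfl, e⟩ := split hv z
  have dv : Ds r Λ t₀ (r d ^ j * w) d := ds_of (by omega)
  have n1 : d ≠ h := fun u => nd (u ▸ dv)
  obtain ⟨pu, pf, -⟩ := ih w hw (by omega)
  by_cases c : A.cr d h
  · have c' := A.sy _ _ c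
    have pd := Ax3.Prov.ofDs hv hd c' dv
    by_cases dw : Ds r Λ t₀ w h
    · exact ⟨_, h3 V G r Λ t₀ A w hw d hd h hh j ih c' e nd dw, pd⟩
    obtain ⟨h', x, hh', x1, x2, s, p⟩ := h2 V G r Λ t₀ A w hw d hd h hh pu pf n1
      (not_ds lnn hw hd e) dw (Or.inl ⟨j, e⟩)
    rcases hh' with rfl | rfl
    · exact ⟨_, Or.inl (Ax3.one hh hd c' s.2 x2 e), pd⟩
    · rcases Ax3.tt1 h1 hw hh hd c' (fun u => f u.1) e nd x1 x2 s with u | u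
      · exact ⟨_, Or.inl u, pd⟩
      · exact ⟨x, Or.inl u, p.cons hd n1 x1 e⟩
  · obtain ⟨k1, k2, k3, k4, -, -⟩ := Ax3.comm hw hh hd n1 c e
    obtain ⟨x, s, p⟩ := pu h hh (fun u => nd (k1 u)) (k2 ad)
    exact ⟨x, Or.inl (k3 x (s.ss f)), k4 x p⟩

theorem si (h : S_RN) : S_SI := by
  intro V G _ r Λ t₀ A v hv ih pj s hs f nd ad
  by_cases z : ln r Λ t₀ v = 0
  · exact ⟨_, Or.inl (Ax3.g2 hs (A.zero hv z hs ad)), Or.inl rfl⟩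
  obtain ⟨d, hd, j, w, hw, rfl, e⟩ := split hv z
  have dv : Ds r Λ t₀ (r d ^ j * w) d := ds_of (by omega)
  have n1 : d ≠ s := fun u => nd (u ▸ dv)
  have c := A.fc s f d hd n1
  by_cases dw : Ds r Λ t₀ w s
  · exact ⟨_, h V G r Λ t₀ A w hw d hd s hs j ih c e nd dw, Or.inr ⟨d, hd, rfl, dv⟩⟩
  obtain ⟨x, sw, p⟩ := (ih w hw (by omega)).1 d hd (not_ds lnn hw hd e) ⟨j, e⟩
  by_cases u : x = Sum.inl s
  · subst u
    obtain ⟨-, U, hU, D⟩ := p.inl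
    obtain ⟨a, ha, k1, k2⟩ := pj s f _ (D.cons hd e) (fun y hy => by
      rcases List.mem_cons.1 hy with rfl | hy
      exacts [n1, (hU y hy).2]) nd
    exact ⟨_, k1, Or.inr ⟨a, ha, rfl, k2⟩⟩
  · exact ⟨_, Or.inl (Ax3.one hs hd c sw.pp u e), Or.inr ⟨d, hd, rfl, dv⟩⟩

end Pool.Agent.MP_6eaae3_al.IS
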