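import Pool.Agent.MP_6eaae3_al.IS.Basic

/-! A run in two free letters. -/

namespace Pool.Agent.MP_6eaae3_al.IS

open Set Pool.Agent.MP_6eaae3_al.LT Pool.Agent.MP_6eaae3_al.EV Pool.Agent.MP_6eaae3_al.EV.Uu

namespace T3

variable {V G : Type} [Group G] {r : V → G} {Λ : Set V} {t₀ : V}

/-- A crossing without winding followed by a nontrivial power. -/
theorem pw (A : Ax3 r Λ t₀) {g : G} {h d : V} (hh : h ∈ Λ) (hd : d ∈ Λ) (cr : A.cr h d) {b : ℤ}
    (b0 : b ≠ 0) (s : A.Ps g d (Sum.inl h)) (ρ : V ⊕ Bool)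
    (ok : ∀ a, ρ = Sum.inl a → a ∈ Λ ∧ A.cr h a) (n : ρ ≠ Sum.inl d) : A.Ps (r h ^ b * g) h ρ :=
  A.hp _ h hh (Sum.inl d) ρ ok n
    (Or.inl ⟨0 + b, by rwa [zero_add], A.cx0 _ _ _ b 0 (A.pi _ h hh d hd cr s)⟩)

/-- An element of the pair that adds at least three syllables. -/
theorem long (A : Ax3 r Λ t₀) {d h c : V} (hd : d ∈ Λ) (hh : h ∈ Λ) {v e : G}
    (hv : v ∈ Subgroup.closure (r '' Λ)) {x : V ⊕ Bool} (cr : A.cr h d)
    (he : e ∈ Subgroup.closure {r d, r h}) (l : 3 + ln r Λ t₀ v ≤ ln r Λ t₀ (e * v))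
    (hc : c = d ∨ c = h) (xd : x ≠ Sum.inl d) (xh : x ≠ Sum.inl h) (s : A.Cx v c x 0)
    (Hd : ∀ p : ℤ, ln r Λ t₀ (r d ^ p * v) = ln r Λ t₀ v + 1 → A.Ps (r d ^ p * v) d (Sum.inl h))
    (ρ : V ⊕ Bool) (ok : ∀ a, ρ = Sum.inl a → a ∈ Λ ∧ A.cr h a) (n : ρ ≠ Sum.inl d) :
    A.Ps (e * v) h ρ := by
  rcases hc with rfl | rfl
  · refine ((A.lc v h hh c hd x e (by rwa [pair_comm]) cr xh xd s).1 ρ ok n).resolve_right
      fun ⟨a, b, u⟩ => ?_
    have a1 := lpow (t₀ := t₀) hv hh b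
    have a2 := lpow (t₀ := t₀) (mm hh b hv) hd a
    rw [u, mul_assoc] at l
    omega
  · refine ((A.lc v d hd c hh x e he (A.sy _ _ cr) xd xh s).2 ρ ok n).elim id
      fun ⟨a, b, f, u⟩ => ?_
    have a1 := lpow (t₀ := t₀) hv hd f
    have a2 := lpow (t₀ := t₀) (mm hd f hv) hh b
    have a3 := lpow (t₀ := t₀) (mm hh b (mm hd f hv)) hd a
    rw [u, mul_assoc, mul_assoc] at l ⊢
    have b0 : b ≠ 0 := fun z => by
      rw [z, zpow_zero, one_mul] at a3 l
      omega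
    exact A.ps1 _ _ _ d a (A.ne _ _ cr).symm n (pw A hh hd cr b0 (Hd f (by omega)) ρ ok n)

end T3

open T3 in
theorem t3 : S_T3 := by
  intro V G _ r Λ t₀ A d hd h hh v hv E c x cr fh fd hE col add nds hc xd xh s Hd Hh
  have cr' := A.sy _ _ cr
  have uc : ev r E ∈ Subgroup.closure {r d, r h} := Tt.ev_two r col
  obtain ⟨⟨c0, j⟩, E', rfl⟩ := List.exists_cons_of_ne_nil hE
  have colΛ : ∀ y ∈ E', y.1 ∈ Λ := fun y hy => by
    rcases col y (by simp [hy]) with e | e <;> rw [e] <;> assumption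
  have l1 := ln_le (t₀ := t₀) lnn hv colΛ
  have ds : Ds r Λ t₀ (ev r ((c0, j) :: E') * v) c0 := by
    rw [List.length_cons] at add
    rw [ev_cons, mul_assoc] at add ⊢
    exact ds_of (by omega)
  obtain rfl : d = c0 := by
    rcases col (c0, j) (by simp) with e | e
    · exact e.symm
    · cases e
      exact (nds ds).elim
  rcases E' with _ | ⟨y, E'⟩
  · rw [ev_one] at add ⊢
    rw [List.length_singleton] at add
    exact Or.inl (Ax3.g2 hh (A.pi _ h hh d hd cr (Hd j (by omega))))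
  refine Or.inr ⟨⟨d, hd, rfl, fh, fd, ds, fun ρ ok n => ?_⟩, fun p hp ρ ok n => ?_⟩
  · rcases E' with _ | ⟨y', E'⟩
    · obtain ⟨j0, e1, e2⟩ := Tt.two lnn hd hh hv (col y (by simp)) add
      rw [e1, mul_assoc]
      exact pw A hd hh cr' j0 (Hh _ e2) ρ ok n
    · refine long A hh hd hv cr' (by rwa [pair_comm]) ?_ hc.symm xh xd s Hh ρ ok n
      rw [add]
      simp only [List.length_cons]
      omega
  · rw [← mul_assoc] at hp ⊢
    refine long A hd hh hv cr (mul_mem (zpow_mem (Subgroup.subset_closure (by simp)) p) uc) ?_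
      hc xd xh s Hd ρ ok n
    rw [hp, add]
    simp only [List.length_cons]
    omega

end Pool.Agent.MP_6eaae3_al.IS
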