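import Pool.Agent.MP_6eaae3_al.IS.Basic

/-! The step along a run in two crossing colours that are not both free. -/

namespace Pool.Agent.MP_6eaae3_al.IS

open FreeGroup (of mk invRev IsReduced)
open Set Pool.Agent.MP_6eaae3_al.LT Pool.Agent.MP_6eaae3_al.LT.Path Pool.Agent.MP_6eaae3_al.EV

theorem tt : S_TT := by
  intro V G _ r Λ t₀ A d hd h hh v hv E h' x cr nf hE col add nds hh' xd xh ss
  have cr' := A.sy _ _ cr
  have nf' : ¬ (A.fr d ∧ A.fr h) := fun u => nf u.symm
  have ne := A.ne _ _ cr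
  have okd : ∀ a, (Sum.inl d : V ⊕ Bool) = Sum.inl a → a ∈ Λ ∧ A.cr h a := fun a e => by
    cases e; exact ⟨hd, cr⟩
  have okh : ∀ a, (Sum.inl h : V ⊕ Bool) = Sum.inl a → a ∈ Λ ∧ A.cr d a := fun a e => by
    cases e; exact ⟨hh, cr'⟩
  have uc : ev r E ∈ Subgroup.closure {r d, r h} := Tt.ev_two r col
  have uc' : ev r E ∈ Subgroup.closure {r h, r d} := by rwa [pair_comm]
  have hc : ∀ p : ℤ, r h ^ p * ev r E ∈ Subgroup.closure {r d, r h} := fun p =>
    mul_mem (zpow_mem (Subgroup.subset_closure (by simp)) p) uc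
  have hc' : ∀ p : ℤ, r h ^ p * ev r E ∈ Subgroup.closure {r h, r d} := fun p => by
    rw [pair_comm]; exact hc p
  have nd : ∀ (a : ℤ) (w : G), ev r E = r h ^ a * w →
      E.length + ln r Λ t₀ v ≤ ln r Λ t₀ (w * v) := fun a w e => by
    by_contra lt
    refine nds ⟨-a, ?_⟩
    rw [add]
    rw [e, ← mul_assoc, ← mul_assoc, ← zpow_add, neg_add_cancel, zpow_zero, one_mul]
    omega
  obtain ⟨⟨c, j⟩, E', rfl⟩ := List.exists_cons_of_ne_nil hE
  have colΛ : ∀ y ∈ E', y.1 ∈ Λ := fun y hy => by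
    rcases col y (by simp [hy]) with e | e <;> rw [e] <;> assumption
  obtain rfl : d = c := by
    rcases col (c, j) (by simp) with e | e
    · exact e.symm
    · cases e
      have a := nd j _ (In.ev_cons _ _)
      have b := (lnn V G r Λ t₀ v hv).1 E' colΛ
      rw [List.length_cons] at a
      omega
  rcases E' with _ | ⟨y, E'⟩
  · have e0 : ev r [(d, j)] = r d ^ j := by simp [ev]
    rw [e0] at add ⊢
    have j0 : j ≠ 0 := fun z => by
      rw [z, zpow_zero, one_mul] at add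
      simp at add
    rcases hh' with e | e <;> subst h'
    · exact Or.inl (Ax3.g2 hh (A.pi _ h hh d hd cr
        (ss.2 j (by simpa [add_comm] using add) _ okh xh.symm)))
    · by_cases c0 : A.Cx v h x 0
      · exact Or.inr ⟨rfl, rfl, Ax3.g2 hh (A.cx1 _ _ _ d j ne.symm xd c0)⟩
      · refine Or.inl (Ax3.g2 hh (A.sh _ h hh d hd j cr nf j0 (A.hp _ h hh x _ okd xd.symm ?_)))
        exact ss.1.imp_left fun ⟨k, ck⟩ => ⟨k, fun z => c0 (z ▸ ck), ck⟩
  left
  have y1 := col y (by simp)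
  rcases hh' with e | e <;> subst h'
  · refine ⟨?_, fun p hp ρ ok nρ => ?_⟩
    · refine (A.loc v h hh d hd x _ uc' cr nf xh xd ss.1).2.2.2.resolve_right fun ⟨a, c, e⟩ => ?_
      have a1 := nd a _ e
      have a2 := Tt.l1 lnn t₀ hd c hv
      simp only [List.length_cons] at a1
      omega
    · rw [← mul_assoc]
      refine ((A.loc v h hh d hd x _ (hc' p) cr nf xh xd ss.1).1 ρ ok nρ).resolve_right
        fun ⟨a, b, c, e⟩ => ?_
      have p0 : p ≠ 0 := fun z => by
        rw [z, zpow_zero, one_mul] at hp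
        omega
      rw [add, ← mul_assoc, e] at hp
      have a1 := Tt.l1 lnn t₀ hd c hv
      have a2 := Tt.l1 lnn t₀ hh b (mm hd c hv)
      have a3 := Tt.l1 lnn t₀ hd a (mm hh b (mm hd c hv))
      simp only [List.length_cons, mul_assoc] at hp
      obtain rfl : E' = [] := List.eq_nil_of_length_eq_zero (by omega)
      obtain ⟨j0, e1, -⟩ := Tt.two lnn hd hh hv y1 add
      refine A.df6 h hh d hd cr nf p j y.2 a b c p0 j0 (fun z => ?_) (fun z => ?_)
        (by rw [← e, e1, mul_assoc])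
      · rw [z, zpow_zero, one_mul] at hp
        simp only [List.length_nil] at hp
        omega
      · have := Tt.l1 lnn t₀ hd (a + c) hv
        rw [z, zpow_zero, one_mul] at hp
        rw [zpow_add, mul_assoc] at this
        simp only [List.length_nil] at hp
        omega
  rcases E' with _ | ⟨y', E'⟩
  · obtain ⟨j0, e1, e2⟩ := Tt.two lnn hd hh hv y1 add
    rw [e1, mul_assoc]
    exact Ax3.g2 hh (A.sh _ h hh d hd j cr nf j0 (ss.2 _ e2 _ okd xd.symm))
  refine ⟨?_, fun p hp ρ ok nρ => ?_⟩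
  · refine (A.loc v d hd h hh x _ uc cr' nf' xd xh ss.1).2.2.1.resolve_right fun ⟨a, b, c, e⟩ => ?_
    have a1 := nd a _ (e.trans (mul_assoc _ _ _))
    have a2 := Tt.l1 lnn t₀ hh c hv
    have a3 := Tt.l1 lnn t₀ hd b (mm hh c hv)
    simp only [List.length_cons, mul_assoc] at a1
    omega
  · rw [← mul_assoc]
    refine ((A.loc v d hd h hh x _ (hc p) cr' nf' xd xh ss.1).2.1 ρ ok nρ).elim id
      fun ⟨a, b, c, f, e⟩ => ?_
    rw [add, ← mul_assoc, e] at hp
    have a1 := Tt.l1 lnn t₀ hh f hv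
    have a2 := Tt.l1 lnn t₀ hd c (mm hh f hv)
    have a3 := Tt.l1 lnn t₀ hh b (mm hd c (mm hh f hv))
    have a4 := Tt.l1 lnn t₀ hd a (mm hh b (mm hd c (mm hh f hv)))
    simp only [List.length_cons, mul_assoc] at hp
    have c0 : c ≠ 0 := fun z => by
      rw [z, zpow_zero, one_mul] at a2 a3 a4 hp
      have := Tt.l1 lnn t₀ hh b (mm hh f hv)
      have := Tt.l1 lnn t₀ hd a (mm hh b (mm hh f hv))
      omega
    have b0 : b ≠ 0 := fun z => by
      rw [z, zpow_zero, one_mul] at a3 a4 hp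
      omega
    rw [e]
    simp only [mul_assoc]
    exact A.ps1 _ _ _ d a ne.symm nρ (A.hp _ h hh (Sum.inl d) ρ ok nρ (Or.inl ⟨0 + b, by simpa using b0,
      A.cx0 _ _ _ b 0 (A.sh _ h hh d hd c cr nf c0 (ss.2 f (by omega) _ okd xd.symm))⟩))

end Pool.Agent.MP_6eaae3_al.IS
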